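import Mathlib

set_option autoImplicit false
set_option linter.unusedSectionVars false
set_option linter.unusedSimpArgs false

/-! Semistable integral models of configurations of points on the line. -/

namespace Pool.Agent.Y714.ML

open Finset

/-- the determinant of two rational vectors -/
def detQ (x y : ℚ × ℚ) : ℚ := x.1 * y.2 - x.2 * y.1

/-- the determinant of two integral vectors -/
def dt (x y : ℤ × ℤ) : ℤ := x.1 * y.2 - x.2 * y.1

theorem dt_mk (a b c d : ℤ) : dt (a, b) (c, d) = a * d - b * c := rfl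

theorem dt_comm (x y : ℤ × ℤ) : dt y x = -dt x y := by unfold dt; ring

theorem natAbs_dt_comm (x y : ℤ × ℤ) : (dt y x).natAbs = (dt x y).natAbs := by
  rw [dt_comm, Int.natAbs_neg]

section

variable {I : Type} [Fintype I] [DecidableEq I]

/-- `v` arises from `x` by an element of `GL_2(ℚ)` and scalars -/
def Rep (x : I → ℚ × ℚ) (v : I → ℤ × ℤ) : Prop :=
  ∃ a b c d : ℚ, a * d - b * c ≠ 0 ∧ ∃ κ : I → ℚ, (∀ i, κ i ≠ 0) ∧
    ∀ i, ((v i).1 : ℚ) = κ i * (a * (x i).1 + b * (x i).2) ∧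
      ((v i).2 : ℚ) = κ i * (c * (x i).1 + d * (x i).2)

theorem Rep.det {x : I → ℚ × ℚ} {v : I → ℤ × ℤ} (h : Rep x v) :
    ∃ (D : ℚ) (κ : I → ℚ), D ≠ 0 ∧ (∀ i, κ i ≠ 0) ∧
      ∀ i j, ((dt (v i) (v j) : ℤ) : ℚ) = κ i * κ j * D * detQ (x i) (x j) := by
  obtain ⟨a, b, c, d, hD, κ, hκ, h1⟩ := h
  refine ⟨a * d - b * c, κ, hD, hκ, fun i j => ?_⟩
  unfold dt detQ
  push_cast
  rw [(h1 i).1, (h1 i).2, (h1 j).1, (h1 j).2]
  ring

theorem Rep.dt_ne {x : I → ℚ × ℚ} {v : I → ℤ × ℤ} (h : Rep x v)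
    (hx : ∀ i j, i ≠ j → detQ (x i) (x j) ≠ 0) (i j : I) (hij : i ≠ j) : dt (v i) (v j) ≠ 0 := by
  obtain ⟨D, κ, hD, hκ, h1⟩ := h.det
  intro h0
  have h2 := h1 i j
  rw [h0, Int.cast_zero] at h2
  exact (mul_ne_zero (mul_ne_zero (mul_ne_zero (hκ i) (hκ j)) hD) (hx i j hij)) h2.symm

theorem Rep.trans {x : I → ℚ × ℚ} {v w : I → ℤ × ℤ} (h : Rep x v)
    (h' : ∃ a b c d : ℚ, a * d - b * c ≠ 0 ∧ ∃ κ : I → ℚ, (∀ i, κ i ≠ 0) ∧
    ∀ i, ((w i).1 : ℚ) = κ i * (a * (v i).1 + b * (v i).2) ∧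
      ((w i).2 : ℚ) = κ i * (c * (v i).1 + d * (v i).2)) : Rep x w := by
  obtain ⟨a, b, c, d, hD, κ, hκ, h1⟩ := h
  obtain ⟨a', b', c', d', hD', κ', hκ', h1'⟩ := h'
  refine ⟨a' * a + b' * c, a' * b + b' * d, c' * a + d' * c, c' * b + d' * d, ?_,
    fun i => κ' i * κ i, fun i => mul_ne_zero (hκ' i) (hκ i), fun i => ?_⟩
  · have : (a' * a + b' * c) * (c' * b + d' * d) - (a' * b + b' * d) * (c' * a + d' * c) =
        (a' * d' - b' * c') * (a * d - b * c) := by ring
    rw [this]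
    exact mul_ne_zero hD' hD
  · rw [(h1' i).1, (h1' i).2, (h1 i).1, (h1 i).2]
    constructor <;> ring

/-- primitive integral representative of a rational vector -/
theorem exists_primitive (p q : ℚ) (h : p ≠ 0 ∨ q ≠ 0) :
    ∃ (κ : ℚ) (a b : ℤ), κ ≠ 0 ∧ IsCoprime a b ∧ (a : ℚ) = κ * p ∧ (b : ℚ) = κ * q := by
  set P : ℤ := p.num * q.den with hP
  set Q : ℤ := q.num * p.den with hQ
  have hpd : (p.den : ℚ) ≠ 0 := by exact_mod_cast p.den_nz
  have hqd : (q.den : ℚ) ≠ 0 := by exact_mod_cast q.den_nz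
  have hPq : (P : ℚ) = (p.den * q.den : ℚ) * p := by
    rw [hP]; push_cast
    have := Rat.mul_den_eq_num p
    rw [← this]; ring
  have hQq : (Q : ℚ) = (p.den * q.den : ℚ) * q := by
    rw [hQ]; push_cast
    have := Rat.mul_den_eq_num q
    rw [← this]; ring
  have hne : Int.gcd P Q ≠ 0 := by
    intro h0
    rw [Int.gcd_eq_zero_iff] at h0
    obtain ⟨h1, h2⟩ := h0
    rw [h1, Int.cast_zero] at hPq
    rw [h2, Int.cast_zero] at hQq
    have h3 := mul_ne_zero hpd hqd
    rcases h with h | h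
    · exact (mul_ne_zero h3 h) hPq.symm
    · exact (mul_ne_zero h3 h) hQq.symm
  have hg : (0 : ℤ) < Int.gcd P Q := by exact_mod_cast Nat.pos_of_ne_zero hne
  obtain ⟨a, ha⟩ := Int.gcd_dvd_left P Q
  obtain ⟨b, hb⟩ := Int.gcd_dvd_right P Q
  have hgq : ((Int.gcd P Q : ℤ) : ℚ) ≠ 0 := by exact_mod_cast hg.ne'
  refine ⟨(p.den * q.den : ℚ) / (Int.gcd P Q : ℤ), a, b, ?_, ?_, ?_, ?_⟩
  · exact div_ne_zero (mul_ne_zero hpd hqd) hgq
  · have h1 := Int.gcd_eq_gcd_ab P Q
    refine ⟨Int.gcdA P Q, Int.gcdB P Q, ?_⟩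
    have h2 : (Int.gcd P Q : ℤ) * (Int.gcdA P Q * a + Int.gcdB P Q * b) = Int.gcd P Q * 1 := by
      calc (Int.gcd P Q : ℤ) * (Int.gcdA P Q * a + Int.gcdB P Q * b)
          = (Int.gcd P Q * a) * Int.gcdA P Q + (Int.gcd P Q * b) * Int.gcdB P Q := by ring
        _ = P * Int.gcdA P Q + Q * Int.gcdB P Q := by rw [← ha, ← hb]
        _ = Int.gcd P Q * 1 := by rw [← h1, mul_one]
    exact mul_left_cancel₀ hg.ne' h2
  · have h1 : (P : ℚ) = (Int.gcd P Q : ℤ) * a := by exact_mod_cast ha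
    rw [div_mul_eq_mul_div, eq_div_iff hgq, mul_comm, ← h1, hPq]
  · have h1 : (Q : ℚ) = (Int.gcd P Q : ℤ) * b := by exact_mod_cast hb
    rw [div_mul_eq_mul_div, eq_div_iff hgq, mul_comm, ← h1, hQq]

theorem exists_rep (x : I → ℚ × ℚ) (hx : ∀ i, (x i).1 ≠ 0 ∨ (x i).2 ≠ 0) :
    ∃ v : I → ℤ × ℤ, Rep x v ∧ ∀ i, IsCoprime (v i).1 (v i).2 := by
  choose κ a b hκ hco h1 h2 using fun i => exists_primitive (x i).1 (x i).2 (hx i)
  refine ⟨fun i => (a i, b i), ⟨1, 0, 0, 1, by norm_num, κ, hκ, fun i => ⟨?_, ?_⟩⟩, hco⟩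
  · simp only [h1 i]; ring
  · simp only [h2 i]; ring

/-- the product of all determinants -/
def Phi (v : I → ℤ × ℤ) : ℕ := ∏ q ∈ (univ : Finset I).offDiag, (dt (v q.1) (v q.2)).natAbs

/-- the modification of a configuration at the prime `p`, in a basis adapted to `v i₀` -/
def modif (v : I → ℤ × ℤ) (i₀ : I) (u w : ℤ) (p : ℕ) (j : I) : ℤ × ℤ :=
  if (p : ℤ) ∣ dt (v i₀) (v j) then (u * (v j).1 + w * (v j).2, dt (v i₀) (v j) / p)
  else (p * (u * (v j).1 + w * (v j).2), dt (v i₀) (v j))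

theorem modif_dt (v : I → ℤ × ℤ) (i₀ : I) (u w : ℤ) (h : u * (v i₀).1 + w * (v i₀).2 = 1) (p : ℕ)
    (hp : 0 < p) (i j : I) :
    dt (modif v i₀ u w p i) (modif v i₀ u w p j) *
      (p : ℤ) ^ (if (p : ℤ) ∣ dt (v i₀) (v i) ∧ (p : ℤ) ∣ dt (v i₀) (v j) then 1 else 0) =
    dt (v i) (v j) *
      (p : ℤ) ^ (if ¬ (p : ℤ) ∣ dt (v i₀) (v i) ∧ ¬ (p : ℤ) ∣ dt (v i₀) (v j) then 1 else 0) := by
  have hbase : (u * (v i).1 + w * (v i).2) * dt (v i₀) (v j) -
      dt (v i₀) (v i) * (u * (v j).1 + w * (v j).2) = dt (v i) (v j) := by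
    have e : (u * (v i).1 + w * (v i).2) * dt (v i₀) (v j) -
      dt (v i₀) (v i) * (u * (v j).1 + w * (v j).2) =
      (u * (v i₀).1 + w * (v i₀).2) * dt (v i) (v j) := by unfold dt; ring
    rw [e, h, one_mul]
  by_cases h1 : (p : ℤ) ∣ dt (v i₀) (v i)
  · by_cases h2 : (p : ℤ) ∣ dt (v i₀) (v j)
    · simp only [modif, h1, h2, if_true, and_self, not_true_eq_false, and_false, if_false, pow_one,
        pow_zero, mul_one]
      obtain ⟨c1, hc1⟩ := h1
      obtain ⟨c2, hc2⟩ := h2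
      rw [hc1, hc2] at hbase
      rw [hc1, hc2, Int.mul_ediv_cancel_left _ (by exact_mod_cast hp.ne'),
        Int.mul_ediv_cancel_left _ (by exact_mod_cast hp.ne'), ← hbase]
      unfold dt
      ring
    · simp only [modif, h1, h2, if_true, and_false, not_true_eq_false, false_and, if_false,
        pow_zero, mul_one]
      obtain ⟨c1, hc1⟩ := h1
      rw [hc1] at hbase
      rw [hc1, Int.mul_ediv_cancel_left _ (by exact_mod_cast hp.ne'), ← hbase]
      rw [dt_mk]
      ring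
  · by_cases h2 : (p : ℤ) ∣ dt (v i₀) (v j)
    · simp only [modif, h1, h2, if_true, false_and, not_true_eq_false, and_false, if_false,
        pow_zero, mul_one]
      obtain ⟨c2, hc2⟩ := h2
      rw [hc2] at hbase
      rw [hc2, Int.mul_ediv_cancel_left _ (by exact_mod_cast hp.ne'), ← hbase]
      rw [dt_mk]
      ring
    · simp only [modif, h1, h2, and_self, if_false, not_false_eq_true, if_true, pow_zero, mul_one,
        pow_one]
      rw [← hbase]
      rw [dt_mk]
      ring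

theorem isCoprime_adapted (v v0 : ℤ × ℤ) (u w : ℤ) (h : u * v0.1 + w * v0.2 = 1)
    (hv : IsCoprime v.1 v.2) : IsCoprime (u * v.1 + w * v.2) (dt v0 v) := by
  obtain ⟨r, s, hrs⟩ := hv
  -- inverse matrix: v.1 = v0.1 * X - w * Y, v.2 = v0.2 * X + u * Y
  refine ⟨r * v0.1 + s * v0.2, s * u - r * w, ?_⟩
  have e : (r * v0.1 + s * v0.2) * (u * v.1 + w * v.2) + (s * u - r * w) * dt v0 v =
      (u * v0.1 + w * v0.2) * (r * v.1 + s * v.2) := by unfold dt; ring
  rw [e, h, hrs, one_mul]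

theorem modif_coprime (v : I → ℤ × ℤ) (i₀ : I) (u w : ℤ) (h : u * (v i₀).1 + w * (v i₀).2 = 1)
    (p : ℕ) (hp : p.Prime) (j : I) (hj : IsCoprime (v j).1 (v j).2) :
    IsCoprime (modif v i₀ u w p j).1 (modif v i₀ u w p j).2 := by
  have h0 := isCoprime_adapted (v j) (v i₀) u w h hj
  unfold modif
  split_ifs with h1
  · obtain ⟨c, hc⟩ := h1
    rw [hc] at h0 ⊢
    simp only
    rw [Int.mul_ediv_cancel_left _ (by exact_mod_cast hp.ne_zero)]
    exact h0.of_mul_right_right
  · simp only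
    refine IsCoprime.mul_left ?_ h0
    exact ((Nat.prime_iff_prime_int.1 hp).irreducible.coprime_iff_not_dvd).2 h1

/-- the modification is again a representative -/
theorem modif_rep {x : I → ℚ × ℚ} {v : I → ℤ × ℤ} (hrep : Rep x v) (i₀ : I) (u w : ℤ)
    (huw : u * (v i₀).1 + w * (v i₀).2 = 1) (p : ℕ) (hp : p.Prime) :
    Rep x (modif v i₀ u w p) := by
  have hp0 : (p : ℚ) ≠ 0 := by exact_mod_cast hp.ne_zero
  refine hrep.trans ⟨u, w, -(v i₀).2 / p, (v i₀).1 / p, ?_,
    fun j => if (p : ℤ) ∣ dt (v i₀) (v j) then 1 else p, ?_, ?_⟩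
  · have : (u : ℚ) * ((v i₀).1 / p) - w * (-(v i₀).2 / p) = 1 / p := by
      have h1 : (u : ℚ) * (v i₀).1 + w * (v i₀).2 = 1 := by exact_mod_cast huw
      field_simp
      linarith
    rw [this]
    exact one_div_ne_zero hp0
  · intro j
    simp only
    split_ifs
    · exact one_ne_zero
    · exact hp0
  · intro j
    unfold modif
    by_cases h1 : (p : ℤ) ∣ dt (v i₀) (v j)
    · simp only [h1, if_true]
      constructor
      · push_cast; ring
      · obtain ⟨c, hc⟩ := h1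
        have hc' : ((v i₀).1 * (v j).2 - (v i₀).2 * (v j).1 : ℚ) = p * c := by
          have : ((dt (v i₀) (v j) : ℤ) : ℚ) = ((p * c : ℤ) : ℚ) := by rw [hc]
          unfold dt at this
          push_cast at this
          exact this
        rw [hc, Int.mul_ediv_cancel_left _ (by exact_mod_cast hp.ne_zero)]
        field_simp
        linarith
    · simp only [h1, if_false]
      constructor
      · push_cast; ring
      · unfold dt
        push_cast
        field_simp
        ring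

/-- Semistable model: at every prime at most half of the points coincide with a given one. -/
theorem exists_semistable (x : I → ℚ × ℚ) (hx : ∀ i j, i ≠ j → detQ (x i) (x j) ≠ 0)
    (hcard : 3 ≤ Fintype.card I) :
    ∃ v : I → ℤ × ℤ, Rep x v ∧ (∀ i, IsCoprime (v i).1 (v i).2) ∧
      ∀ p : ℕ, p.Prime → ∀ i,
        2 * (univ.filter fun j => (p : ℤ) ∣ dt (v i) (v j)).card ≤ Fintype.card I := by
  classical
  have hx0 : ∀ i, (x i).1 ≠ 0 ∨ (x i).2 ≠ 0 := by
    intro i
    by_contra hcon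
    push Not at hcon
    obtain ⟨j, hj⟩ : ∃ j, i ≠ j := by
      by_contra hc
      push Not at hc
      have : Fintype.card I ≤ 1 := Fintype.card_le_one_iff.2 fun a b => (hc a).symm.trans (hc b)
      omega
    apply hx i j hj
    unfold detQ
    rw [hcon.1, hcon.2]
    ring
  let P : ℕ → Prop := fun m => ∃ v : I → ℤ × ℤ,
    (Rep x v ∧ ∀ i, IsCoprime (v i).1 (v i).2) ∧ Phi v = m
  have hP : ∃ m, P m := by
    obtain ⟨v, hv⟩ := exists_rep x hx0
    exact ⟨_, v, hv, rfl⟩
  obtain ⟨v, ⟨hrep, hco⟩, hphi⟩ := Nat.find_spec hP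
  refine ⟨v, hrep, hco, fun p hp i₀ => ?_⟩
  by_contra hcon
  push Not at hcon
  obtain ⟨u, w, huw⟩ := hco i₀
  set S : Finset I := univ.filter fun j => (p : ℤ) ∣ dt (v i₀) (v j) with hS
  set v' : I → ℤ × ℤ := modif v i₀ u w p with hv'
  have hp0 : (p : ℚ) ≠ 0 := by exact_mod_cast hp.ne_zero
  -- v' is again a primitive representation
  have hrep' : Rep x v' := by
    refine hrep.trans ⟨u, w, -(v i₀).2 / p, (v i₀).1 / p, ?_,
      fun j => if (p : ℤ) ∣ dt (v i₀) (v j) then 1 else p, ?_, ?_⟩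
    · have : (u : ℚ) * ((v i₀).1 / p) - w * (-(v i₀).2 / p) = 1 / p := by
        have h1 : (u : ℚ) * (v i₀).1 + w * (v i₀).2 = 1 := by exact_mod_cast huw
        field_simp
        linarith
      rw [this]
      exact one_div_ne_zero hp0
    · intro j
      simp only
      split_ifs
      · exact one_ne_zero
      · exact hp0
    · intro j
      rw [hv']
      unfold modif
      by_cases h1 : (p : ℤ) ∣ dt (v i₀) (v j)
      · simp only [h1, if_true]
        constructor
        · push_cast; ring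
        · obtain ⟨c, hc⟩ := h1
          have hc' : ((v i₀).1 * (v j).2 - (v i₀).2 * (v j).1 : ℚ) = p * c := by
            have : ((dt (v i₀) (v j) : ℤ) : ℚ) = ((p * c : ℤ) : ℚ) := by rw [hc]
            unfold dt at this
            push_cast at this
            exact this
          rw [hc, Int.mul_ediv_cancel_left _ (by exact_mod_cast hp.ne_zero)]
          field_simp
          linarith
      · simp only [h1, if_false]
        constructor
        · push_cast; ring
        · unfold dt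
          push_cast
          field_simp
          ring
  have hco' : ∀ j, IsCoprime (v' j).1 (v' j).2 := fun j => modif_coprime v i₀ u w huw p hp j (hco j)
  have hmin : Phi v ≤ Phi v' := by
    rw [hphi]
    exact Nat.find_min' hP ⟨v', ⟨hrep', hco'⟩, rfl⟩
  -- compare the products
  have hprod : Phi v' * p ^ S.offDiag.card = Phi v * p ^ (Sᶜ).offDiag.card := by
    have e1 : ∀ q ∈ (univ : Finset I).offDiag,
        (dt (v' q.1) (v' q.2)).natAbs * p ^ (if q ∈ S.offDiag then 1 else 0) =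
        (dt (v q.1) (v q.2)).natAbs * p ^ (if q ∈ (Sᶜ).offDiag then 1 else 0) := by
      intro q hq
      have hne : q.1 ≠ q.2 := (mem_offDiag.1 hq).2.2
      have h1 := modif_dt v i₀ u w huw p hp.pos q.1 q.2
      have h2 := congrArg Int.natAbs h1
      rw [Int.natAbs_mul, Int.natAbs_mul, Int.natAbs_pow, Int.natAbs_pow, Int.natAbs_natCast] at h2
      have h3 : (if q ∈ S.offDiag then 1 else 0 : ℕ) =
          if (p : ℤ) ∣ dt (v i₀) (v q.1) ∧ (p : ℤ) ∣ dt (v i₀) (v q.2) then 1 else 0 := by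
        simp [mem_offDiag, hS, hne]
      have h4 : (if q ∈ (Sᶜ).offDiag then 1 else 0 : ℕ) =
          if ¬ (p : ℤ) ∣ dt (v i₀) (v q.1) ∧ ¬ (p : ℤ) ∣ dt (v i₀) (v q.2) then 1 else 0 := by
        simp [mem_offDiag, hS, hne]
      rw [h3, h4]
      exact h2
    have e2 := prod_congr rfl e1
    rw [prod_mul_distrib, prod_mul_distrib, prod_pow_eq_pow_sum, prod_pow_eq_pow_sum] at e2
    have e3 : ∑ q ∈ (univ : Finset I).offDiag, (if q ∈ S.offDiag then 1 else 0 : ℕ) =
        S.offDiag.card := by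
      rw [← card_filter]
      congr 1
      ext q
      simp only [mem_filter, mem_offDiag, mem_univ, true_and]
      tauto
    have e4 : ∑ q ∈ (univ : Finset I).offDiag, (if q ∈ (Sᶜ).offDiag then 1 else 0 : ℕ) =
        (Sᶜ).offDiag.card := by
      rw [← card_filter]
      congr 1
      ext q
      simp only [mem_filter, mem_offDiag, mem_univ, true_and]
      tauto
    rw [e3, e4] at e2
    exact e2
  have hphipos : 0 < Phi v := by
    unfold Phi
    refine prod_pos fun q hq => ?_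
    exact Int.natAbs_pos.2 (hrep.dt_ne hx _ _ (mem_offDiag.1 hq).2.2)
  have hlt : (Sᶜ).offDiag.card < S.offDiag.card := by
    rw [offDiag_card, offDiag_card, card_compl]
    have h1 : S.card ≤ Fintype.card I := card_le_univ S
    obtain ⟨r, hr⟩ : ∃ r, Fintype.card I = S.card + r := ⟨_, (Nat.add_sub_of_le h1).symm⟩
    rw [hr, Nat.add_sub_cancel_left]
    have h2 : r < S.card := by omega
    have h3 : r + S.card ≥ 3 := by omega
    zify [Nat.le_mul_self r, Nat.le_mul_self S.card]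
    nlinarith
  have h5 : p ^ (Sᶜ).offDiag.card < p ^ S.offDiag.card := Nat.pow_lt_pow_right hp.one_lt hlt
  have h6 : Phi v * p ^ S.offDiag.card ≤ Phi v' * p ^ S.offDiag.card :=
    Nat.mul_le_mul_right _ hmin
  rw [hprod] at h6
  have h7 := Nat.le_of_mul_le_mul_left h6 hphipos
  omega

end

end Pool.Agent.Y714.ML
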