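import Pool.Agent.Y714.ML.Hall
import Pool.Agent.Y714.ML.Semi

set_option autoImplicit false
set_option linter.unusedSectionVars false

/-! The heights defined by the monomials in the brackets. -/

namespace Pool.Agent.Y714.ML

open Finset

section

variable {I : Type} [Fintype I] [DecidableEq I]

/-- the exponents of the monomials of degree `d` in the brackets -/
def Mon (d : I → ℕ) : Type := {m : I × I → ℕ // ∀ i, ∑ j, (m (i, j) + m (j, i)) = d i}

instance (d : I → ℕ) : Finite (Mon d) := by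
  have hle : ∀ (m : Mon d) (q : I × I), m.1 q ≤ d q.1 := by
    intro m q
    have h1 := m.2 q.1
    have h2 : m.1 (q.1, q.2) + m.1 (q.2, q.1) ≤ ∑ j, (m.1 (q.1, j) + m.1 (j, q.1)) :=
      single_le_sum (f := fun j => m.1 (q.1, j) + m.1 (j, q.1)) (fun _ _ => Nat.zero_le _)
        (mem_univ q.2)
    have h3 : m.1 q = m.1 (q.1, q.2) := rfl
    omega
  let g : Mon d → ((q : I × I) → Fin (d q.1 + 1)) := fun m q => ⟨m.1 q, by
    have := hle m q
    omega⟩
  refine Finite.of_injective g ?_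
  intro m m' h
  apply Subtype.ext
  funext q
  have := congrFun h q
  simpa [g] using this

/-- the value of a monomial in the brackets -/
def monQ {d : I → ℕ} (x : I → ℚ × ℚ) (m : Mon d) : ℚ :=
  ∏ q : I × I, detQ (x q.1) (x q.2) ^ m.1 q

/-- the value of a monomial in the brackets -/
def monZ {d : I → ℕ} (v : I → ℤ × ℤ) (m : Mon d) : ℤ :=
  ∏ q : I × I, dt (v q.1) (v q.2) ^ m.1 q

/-- the height defined by the monomials of degree `d` in the brackets -/
noncomputable def hgt (d : I → ℕ) (x : I → ℚ × ℚ) : ℝ :=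
  Height.mulHeight fun m : Mon d => monQ x m

theorem sum_snd {d : I → ℕ} (m : Mon d) : ∑ q : I × I, m.1 q + ∑ q : I × I, m.1 q = ∑ i, d i := by
  have h1 : ∑ i, d i = ∑ i, ∑ j, (m.1 (i, j) + m.1 (j, i)) :=
    sum_congr rfl fun i _ => (m.2 i).symm
  rw [h1]
  simp only [sum_add_distrib]
  rw [Fintype.sum_prod_type]
  congr 1
  rw [sum_comm]

theorem prod_kappa {d : I → ℕ} (m : Mon d) (κ : I → ℚ) :
    ∏ q : I × I, (κ q.1 * κ q.2) ^ m.1 q = ∏ i, κ i ^ d i := by
  have h1 : ∀ i, κ i ^ d i = (∏ j, κ i ^ m.1 (i, j)) * ∏ j, κ i ^ m.1 (j, i) := by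
    intro i
    rw [← m.2 i, sum_add_distrib, pow_add, prod_pow_eq_pow_sum, prod_pow_eq_pow_sum]
  rw [prod_congr rfl fun i _ => h1 i, prod_mul_distrib]
  simp only [mul_pow, prod_mul_distrib]
  rw [Fintype.prod_prod_type, Fintype.prod_prod_type]
  congr 1
  rw [prod_comm]

theorem monQ_rep {d : I → ℕ} {x : I → ℚ × ℚ} {v : I → ℤ × ℤ} (h : Rep x v) :
    ∃ c : ℚ, c ≠ 0 ∧ ∀ m : Mon d, ((monZ v m : ℤ) : ℚ) = c * monQ x m := by
  obtain ⟨D, κ, hD, hκ, h1⟩ := h.det
  by_cases hn : Nonempty (Mon d)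
  · obtain ⟨m0⟩ := hn
    refine ⟨D ^ (∑ q : I × I, m0.1 q) * ∏ i, κ i ^ d i, ?_, fun m => ?_⟩
    · exact mul_ne_zero (pow_ne_zero _ hD) (prod_ne_zero_iff.2 fun i _ => pow_ne_zero _ (hκ i))
    · have e0 : ∑ q : I × I, m0.1 q = ∑ q : I × I, m.1 q := by
        have h2 := sum_snd m0
        have h3 := sum_snd m
        omega
      rw [e0, ← prod_kappa m κ, ← prod_pow_eq_pow_sum, ← prod_mul_distrib]
      unfold monZ monQ
      rw [← prod_mul_distrib]
      push_cast
      refine prod_congr rfl fun q _ => ?_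
      rw [h1 q.1 q.2, ← mul_pow, ← mul_pow]
      congr 1
      ring
  · exact ⟨1, one_ne_zero, fun m => absurd ⟨m⟩ hn⟩

theorem hgt_rep (d : I → ℕ) {x : I → ℚ × ℚ} {v : I → ℤ × ℤ} (h : Rep x v) :
    hgt d x = Height.mulHeight (((↑) : ℤ → ℚ) ∘ fun m : Mon d => monZ v m) := by
  obtain ⟨c, hc, h1⟩ := monQ_rep (d := d) h
  have h2 : (((↑) : ℤ → ℚ) ∘ fun m : Mon d => monZ v m) = c • fun m : Mon d => monQ x m := by
    funext m
    simp only [Function.comp_apply, Pi.smul_apply, smul_eq_mul]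
    exact h1 m
  rw [h2, Height.mulHeight_smul_eq_mulHeight _ hc]
  rfl

/-! ### the monomial of a permutation -/

/-- the index set with `e i` copies of `i` -/
abbrev Cop (e : I → ℕ) : Type := Σ i : I, Fin (e i)

theorem card_Cop (e : I → ℕ) : Fintype.card (Cop e) = ∑ i, e i := by
  simp [Cop]

theorem card_filter_Cop (e : I → ℕ) (P : I → Prop) [DecidablePred P] :
    (univ.filter fun j : Cop e => P j.1).card = ∑ i ∈ univ.filter P, e i := by
  have h1 : (univ.filter fun j : Cop e => P j.1) =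
      (univ.filter P).sigma fun i => (univ : Finset (Fin (e i))) := by
    ext j
    simp
  rw [h1, card_sigma]
  simp

/-- the monomial of degree `2e` of a permutation of the copies -/
def permMon (e : I → ℕ) (σ : Equiv.Perm (Cop e)) : Mon (fun i => 2 * e i) :=
  ⟨fun q => (univ.filter fun j : Cop e => j.1 = q.1 ∧ (σ j).1 = q.2).card, by
    intro i
    have h1 : ∑ k, (univ.filter fun j : Cop e => j.1 = i ∧ (σ j).1 = k).card = e i := by
      have h2 : ∀ k, (univ.filter fun j : Cop e => j.1 = i ∧ (σ j).1 = k) =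
          (univ.filter fun j : Cop e => j.1 = i).filter fun j => (σ j).1 = k := by
        intro k
        rw [filter_filter]
      rw [sum_congr rfl fun k _ => congrArg card (h2 k),
        ← card_eq_sum_card_fiberwise (f := fun j : Cop e => (σ j).1) (t := univ)
        (fun j _ => mem_univ _)]
      rw [card_filter_Cop e (fun k => k = i)]
      rw [Finset.filter_eq', if_pos (mem_univ i), sum_singleton]
    have h3 : ∑ k, (univ.filter fun j : Cop e => j.1 = k ∧ (σ j).1 = i).card = e i := by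
      have h2 : ∀ k, (univ.filter fun j : Cop e => j.1 = k ∧ (σ j).1 = i) =
          (univ.filter fun j : Cop e => (σ j).1 = i).filter fun j => j.1 = k := by
        intro k
        rw [filter_filter]
        congr 1
        ext j
        tauto
      rw [sum_congr rfl fun k _ => congrArg card (h2 k),
        ← card_eq_sum_card_fiberwise (f := fun j : Cop e => j.1) (t := univ)
        (fun j _ => mem_univ _)]
      have h4 : (univ.filter fun j : Cop e => (σ j).1 = i).card =
          (univ.filter fun j : Cop e => j.1 = i).card := by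
        refine card_bij (fun j _ => σ j) ?_ ?_ ?_
        · intro j hj
          simpa using hj
        · intro j _ k _ h
          exact σ.injective h
        · intro k hk
          exact ⟨σ.symm k, by simpa using hk, by simp⟩
      rw [h4, card_filter_Cop e (fun k => k = i)]
      rw [Finset.filter_eq', if_pos (mem_univ i), sum_singleton]
    change ∑ k, ((univ.filter fun j : Cop e => j.1 = i ∧ (σ j).1 = k).card +
      (univ.filter fun j : Cop e => j.1 = k ∧ (σ j).1 = i).card) = 2 * e i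
    rw [sum_add_distrib, h1, h3]
    omega⟩

theorem monZ_perm (e : I → ℕ) (σ : Equiv.Perm (Cop e)) (v : I → ℤ × ℤ) :
    monZ v (permMon e σ) = ∏ j : Cop e, dt (v j.1) (v (σ j).1) := by
  unfold monZ permMon
  simp only
  have h1 : ∏ j : Cop e, dt (v j.1) (v (σ j).1) =
      ∏ j : Cop e, (fun q : I × I => dt (v q.1) (v q.2)) ((fun j : Cop e => (j.1, (σ j).1)) j) := rfl
  rw [h1, ← Finset.prod_fiberwise_of_maps_to' (s := (univ : Finset (Cop e))) (t := univ)
    (g := fun j : Cop e => (j.1, (σ j).1)) (fun j _ => mem_univ _)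
    (fun q : I × I => dt (v q.1) (v q.2))]
  refine prod_congr rfl fun q _ => ?_
  rw [prod_const]
  congr 1
  congr 1
  ext j
  simp [Prod.ext_iff]

/-- the multidegrees `e` for which at most half of the weight lies on at most half of the points -/
def Nef (e : I → ℕ) : Prop :=
  ∀ S : Finset I, 2 * S.card ≤ Fintype.card I → 2 * ∑ i ∈ S, e i ≤ ∑ i, e i

theorem exists_not_dvd (e : I → ℕ) (v : I → ℤ × ℤ) (p : ℕ) (hp : p.Prime)
    (hss : ∀ i, 2 * ∑ j ∈ univ.filter (fun j => (p : ℤ) ∣ dt (v i) (v j)), e j ≤ ∑ j, e j) :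
    ∃ τ : Equiv.Perm (Cop e), ¬ (p : ℤ) ∣ monZ v (permMon e τ) := by
  obtain ⟨τ, hτ⟩ := exists_perm_of_dense
    (fun j k : Cop e => ¬ (p : ℤ) ∣ dt (v j.1) (v k.1))
    (fun j k h1 h2 => h1 (by rw [dt_comm]; exact (dvd_neg.2 h2)))
    (fun j => by
      simp only [not_not]
      rw [card_filter_Cop e (fun i => (p : ℤ) ∣ dt (v j.1) (v i)), card_Cop]
      exact hss j.1)
  refine ⟨τ, fun h1 => ?_⟩
  rw [monZ_perm] at h1
  obtain ⟨j, _, hj⟩ := (Prime.dvd_finsetProd_iff (Nat.prime_iff_prime_int.1 hp) _).1 h1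
  exact hτ j hj

theorem gcd_monZ (e : I → ℕ) (hnef : Nef e) {v : I → ℤ × ℤ}
    (hss : ∀ p : ℕ, p.Prime → ∀ i,
        2 * (univ.filter fun j => (p : ℤ) ∣ dt (v i) (v j)).card ≤ Fintype.card I)
    [Fintype (Mon fun i => 2 * e i)] :
    Finset.univ.gcd (fun m : Mon (fun i => 2 * e i) => monZ v m) = 1 := by
  set g := Finset.univ.gcd (fun m : Mon (fun i => 2 * e i) => monZ v m) with hg
  have hnorm : normalize g = g := Finset.normalize_gcd
  by_contra hne
  have hnu : ¬ IsUnit g := by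
    intro hu
    apply hne
    rw [← hnorm]
    exact normalize_eq_one.2 hu
  have hna : g.natAbs ≠ 1 := fun h => hnu (Int.isUnit_iff_natAbs_eq.2 h)
  obtain ⟨p, hp, hpg⟩ := Nat.exists_prime_and_dvd hna
  have hpg' : (p : ℤ) ∣ g := by
    rw [← Int.natAbs_dvd_natAbs]
    simpa using hpg
  obtain ⟨τ, hτ⟩ := exists_perm_of_dense
    (fun j k : Cop e => ¬ (p : ℤ) ∣ dt (v j.1) (v k.1))
    (fun j k h1 h2 => h1 (by rw [dt_comm]; exact (dvd_neg.2 h2)))
    (fun j => by
      simp only [not_not]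
      rw [card_filter_Cop e (fun i => (p : ℤ) ∣ dt (v j.1) (v i)), card_Cop]
      exact hnef _ (hss p hp j.1))
  have h1 : (p : ℤ) ∣ monZ v (permMon e τ) := hpg'.trans (Finset.gcd_dvd (mem_univ _))
  rw [monZ_perm] at h1
  obtain ⟨j, _, hj⟩ := (Prime.dvd_finsetProd_iff (Nat.prime_iff_prime_int.1 hp) _).1 h1
  exact hτ j hj

theorem le_hgt (e : I → ℕ) {x : I → ℚ × ℚ} {v : I → ℤ × ℤ} (h : Rep x v)
    [Fintype (Mon fun i => 2 * e i)]
    (hgcd : Finset.univ.gcd (fun m : Mon (fun i => 2 * e i) => monZ v m) = 1)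
    (σ : Equiv.Perm (Cop e)) :
    ((∏ j : Cop e, (dt (v j.1) (v (σ j).1)).natAbs : ℕ) : ℝ) ≤ hgt (fun i => 2 * e i) x := by
  classical
  have : Nonempty (Mon fun i => 2 * e i) := ⟨permMon e σ⟩
  rw [hgt_rep _ h, Rat.mulHeight_eq_max_abs_of_gcd_eq_one hgcd]
  have h2 : |monZ v (permMon e σ)| ≤ ⨆ m : Mon (fun i => 2 * e i), |monZ v m| :=
    Finite.le_ciSup (fun m : Mon (fun i => 2 * e i) => |monZ v m|) (permMon e σ)
  have h3 : ((∏ j : Cop e, (dt (v j.1) (v (σ j).1)).natAbs : ℕ) : ℤ) = |monZ v (permMon e σ)| := by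
    rw [monZ_perm, abs_prod]
    push_cast
    rfl
  have h4 : (((∏ j : Cop e, (dt (v j.1) (v (σ j).1)).natAbs : ℕ) : ℤ) : ℝ) ≤
      ((⨆ m : Mon (fun i => 2 * e i), |monZ v m| : ℤ) : ℝ) := by
    rw [h3]
    exact_mod_cast h2
  simpa using h4

/-- an upper bound for the height of a semistable configuration -/
theorem hgt_le (e : I → ℕ) (hnef : Nef e) {x : I → ℚ × ℚ} {v : I → ℤ × ℤ} (h : Rep x v)
    (hss : ∀ p : ℕ, p.Prime → ∀ i,
        2 * (univ.filter fun j => (p : ℤ) ∣ dt (v i) (v j)).card ≤ Fintype.card I)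
    (κ : I → ℚ) (hle : ∀ i j, |((dt (v i) (v j) : ℤ) : ℚ)| ≤ κ i * κ j) :
    hgt (fun i => 2 * e i) x ≤ ((∏ i, κ i ^ (2 * e i) : ℚ) : ℝ) := by
  classical
  have : Fintype (Mon fun i => 2 * e i) := Fintype.ofFinite _
  have : Nonempty (Mon fun i => 2 * e i) := ⟨permMon e 1⟩
  rw [hgt_rep _ h, Rat.mulHeight_eq_max_abs_of_gcd_eq_one (gcd_monZ e hnef hss)]
  obtain ⟨m, hm⟩ := exists_eq_ciSup_of_finite (f := fun m : Mon (fun i => 2 * e i) => |monZ v m|)
  rw [← hm]
  have h1 : ((|monZ v m| : ℤ) : ℚ) ≤ ∏ i, κ i ^ (2 * e i) := by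
    rw [← prod_kappa m κ]
    unfold monZ
    rw [abs_prod]
    push_cast
    refine prod_le_prod (fun q _ => abs_nonneg _) fun q _ => ?_
    rw [abs_pow]
    exact pow_le_pow_left₀ (abs_nonneg _) (hle q.1 q.2) _
  exact_mod_cast h1

end

end Pool.Agent.Y714.ML
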