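import Pool.Agent.Y714.ML.Main

set_option autoImplicit false
set_option linter.unusedSectionVars false

/-! The configurations `∞, 0, 1, t_1, ..., t_N`. -/

namespace Pool.Agent.Y714.ML

open Finset

/-- the vectors `(1,0)`, `(0,1)`, `(1,1)`, `(t_j,1)` -/
def vec {N : ℕ} (t : Fin N → ℚ) : Fin 3 ⊕ Fin N → ℚ × ℚ
  | Sum.inl i => ![(1, 0), (0, 1), (1, 1)] i
  | Sum.inr j => (t j, 1)

/-- pairwise distinct points -/
def UU (N : ℕ) : Set (Fin N → ℚ) := {t | Function.Injective t ∧ ∀ j, t j ≠ 0 ∧ t j ≠ 1}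

theorem detQ_vec {N : ℕ} (t : Fin N → ℚ) (ht : t ∈ UU N) (i j : Fin 3 ⊕ Fin N) (hij : i ≠ j) :
    detQ (vec t i) (vec t j) ≠ 0 := by
  obtain ⟨h1, h2⟩ := ht
  unfold detQ
  rcases i with i | i <;> rcases j with j | j
  · have hij' : i ≠ j := fun h => hij (by rw [h])
    fin_cases i <;> fin_cases j <;> first | exact absurd rfl hij' | (simp [vec])
  · fin_cases i
    · simp [vec]
    · simp only [vec]
      simp
      exact (h2 j).1
    · simp only [vec]
      simp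
      exact fun h => (h2 j).2 (by linarith)
  · fin_cases j
    · simp [vec]
    · simp only [vec]
      simp
      exact (h2 i).1
    · simp only [vec]
      simp
      exact fun h => (h2 i).2 (by linarith)
  · simp only [vec, mul_one, one_mul]
    intro h
    exact hij (by rw [h1 (by linarith : t i = t j)])

/-- recovering the cross ratios -/
def cr {N : ℕ} (w : Fin 3 ⊕ Fin N → ℤ × ℤ) (j : Fin N) : ℚ :=
  ((dt (w (Sum.inl 1)) (w (Sum.inr j)) * dt (w (Sum.inl 0)) (w (Sum.inl 2)) : ℤ) : ℚ) /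
    ((dt (w (Sum.inl 0)) (w (Sum.inr j)) * dt (w (Sum.inl 1)) (w (Sum.inl 2)) : ℤ) : ℚ)

theorem cr_rep {N : ℕ} (t : Fin N → ℚ) (w : Fin 3 ⊕ Fin N → ℤ × ℤ) (h : Rep (vec t) w) :
    cr w = t := by
  obtain ⟨D, κ, hD, hκ, h1⟩ := h.det
  funext j
  unfold cr
  push_cast
  rw [h1, h1, h1, h1]
  have e1 : detQ (vec t (Sum.inl 1)) (vec t (Sum.inr j)) = - t j := by simp [detQ, vec]
  have e2 : detQ (vec t (Sum.inl 0)) (vec t (Sum.inl 2)) = 1 := by simp [detQ, vec]
  have e3 : detQ (vec t (Sum.inl 0)) (vec t (Sum.inr j)) = 1 := by simp [detQ, vec]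
  have e4 : detQ (vec t (Sum.inl 1)) (vec t (Sum.inl 2)) = -1 := by simp [detQ, vec]
  rw [e1, e2, e3, e4]
  have k1 := hκ (Sum.inl 0)
  have k2 := hκ (Sum.inl 1)
  have k3 := hκ (Sum.inl 2)
  have k4 := hκ (Sum.inr j)
  field_simp

/-- the Fujita invariant -/
noncomputable def fuj {I : Type} [Fintype I] (e : I → ℕ) : ℝ := sInf {s : ℝ | Eff fun i => s * e i - 2}

theorem fuj_mem {I : Type} [Fintype I] [DecidableEq I] (e : I → ℕ) (he : ∀ i, 0 < e i)
    (h2e : ∀ i, 2 * e i < ∑ j, e j) (hcard : 4 ≤ Fintype.card I) :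
    0 ≤ fuj e ∧ Eff fun i => fuj e * e i - 2 := by
  have : Nonempty I := Fintype.card_pos_iff.1 (by omega)
  obtain ⟨i0⟩ := this
  set S : Set ℝ := {s : ℝ | Eff fun i => s * e i - 2} with hS
  have hpos : ∀ s ∈ S, 0 ≤ s := by
    intro s hs
    have h1 := (hs i0).1
    have h2 : (0 : ℝ) < e i0 := by exact_mod_cast he i0
    by_contra hneg
    push Not at hneg
    nlinarith
  have hbdd : BddBelow S := ⟨0, fun s hs => hpos s hs⟩
  have hclosed : IsClosed S := by
    have : S = ⋂ i, ({s : ℝ | 0 ≤ s * e i - 2} ∩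
        {s : ℝ | 2 * (s * e i - 2) ≤ ∑ j, (s * (e j : ℝ) - 2)}) := by
      ext s
      rw [Set.mem_iInter]
      exact Iff.rfl
    rw [this]
    refine isClosed_iInter fun i => IsClosed.inter ?_ ?_
    · have c1 : Continuous fun s : ℝ => s * (e i : ℝ) - 2 := by fun_prop
      exact isClosed_le continuous_const c1
    · have c1 : Continuous fun s : ℝ => 2 * (s * (e i : ℝ) - 2) := by fun_prop
      have c2 : Continuous fun s : ℝ => ∑ j, (s * (e j : ℝ) - 2) := by fun_prop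
      exact isClosed_le c1 c2
  have hne : S.Nonempty := by
    refine ⟨2 * (Fintype.card I : ℝ), fun i => ?_⟩
    have h4 : (4 : ℝ) ≤ Fintype.card I := by exact_mod_cast hcard
    have hei : (1 : ℝ) ≤ e i := by exact_mod_cast he i
    have h6 : (2 : ℝ) * e i + 1 ≤ ∑ j, (e j : ℝ) := by exact_mod_cast h2e i
    constructor
    · nlinarith
    · rw [sum_sub_distrib, ← mul_sum]
      simp only [sum_const, Finset.card_univ, nsmul_eq_mul]
      nlinarith
  exact ⟨hpos _ (hclosed.csInf_mem hne hbdd), hclosed.csInf_mem hne hbdd⟩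

theorem upper_fin (N : ℕ) (hN : 1 ≤ N) (e : Fin 3 ⊕ Fin N → ℕ) (he : ∀ i, 0 < e i)
    (h2e : ∀ i, 2 * e i < ∑ j, e j) :
    ∃ C : ℝ, ∀ T : ℝ, 1 ≤ T → {t ∈ UU N | hgt (fun i => 2 * e i) (vec t) ≤ T ^ 2}.Finite ∧
      ({t ∈ UU N | hgt (fun i => 2 * e i) (vec t) ≤ T ^ 2}.ncard : ℝ) ≤
        C * T ^ fuj e * (1 + Real.log T) ^ (N + 2) := by
  have hc : Fintype.card (Fin 3 ⊕ Fin N) = N + 3 := by
    rw [Fintype.card_sum, Fintype.card_fin, Fintype.card_fin]; ring
  obtain ⟨h1, h2⟩ := fuj_mem e he h2e (by omega)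
  obtain ⟨C, hC⟩ := upper (UU N) vec (fun t ht => detQ_vec t ht) cr
    (fun t _ w hw => cr_rep t w hw) (by omega) e he (fun i => (h2e i).le) (fuj e) h1 h2
  rw [hc, show N + 3 - 1 = N + 2 by omega] at hC
  exact ⟨C, hC⟩

end Pool.Agent.Y714.ML
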