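import Pool.Agent.Y714.ML.Count

set_option autoImplicit false
set_option linter.unusedSectionVars false

/-! The upper bound for the number of configurations of bounded height. -/

namespace Pool.Agent.Y714.ML

open Finset

section

variable {I : Type} [Fintype I] [DecidableEq I]

/-- all normalised configurations with `∑ ζ ≤ K` -/
noncomputable def GG {X : Type} [DecidableEq X] (g : (I → ℤ × ℤ) → X) (K : ℕ) : Finset X := by
  classical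
  exact (range (K + 1)).biUnion fun κ => (ZZ I κ).biUnion fun ζ =>
    ((univ : Finset (I × I)).filter fun q => q.1 ≠ q.2 ∧ (∀ k, Lam ζ q.1 ≤ Lam ζ k) ∧
      ∀ k, k ≠ q.1 → 1 ≤ Lam ζ q.1 * Lam ζ k).biUnion fun q => (KK (Lam ζ) q.1 q.2).image g

theorem mem_GG {X : Type} [DecidableEq X] (g : (I → ℤ × ℤ) → X) (K κ : ℕ) (hκ : κ ≤ K) (ζ : I → ℤ)
    (hζ : ζ ∈ ZZ I κ) (i0 i1 : I) (h01 : i0 ≠ i1) (hmin : ∀ k, Lam ζ i0 ≤ Lam ζ k)
    (hone : ∀ k, k ≠ i0 → 1 ≤ Lam ζ i0 * Lam ζ k) (w : I → ℤ × ℤ) (hw : w ∈ KK (Lam ζ) i0 i1) :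
    g w ∈ GG g K := by
  classical
  unfold GG
  simp only [mem_biUnion, mem_range, mem_filter, mem_univ, true_and, mem_image]
  exact ⟨κ, by omega, ζ, hζ, (i0, i1), ⟨h01, hmin, hone⟩, w, hw, rfl⟩

theorem card_GG {X : Type} [DecidableEq X] (g : (I → ℤ × ℤ) → X) (K : ℕ) [Nonempty I] :
    ((GG g K).card : ℝ) ≤ 2 * (15 ^ Fintype.card I * (Fintype.card I : ℝ) ^ 2) *
      (2 * K + 1) ^ (Fintype.card I - 1) * 2 ^ K := by
  classical
  set n := Fintype.card I with hn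
  have h1 : ∀ κ : ℕ, ∀ ζ ∈ ZZ I κ, ∀ q ∈ ((univ : Finset (I × I)).filter fun q => q.1 ≠ q.2 ∧
      (∀ k, Lam ζ q.1 ≤ Lam ζ k) ∧ ∀ k, k ≠ q.1 → 1 ≤ Lam ζ q.1 * Lam ζ k),
      (((KK (Lam ζ) q.1 q.2).image g).card : ℝ) ≤ 15 ^ n * 2 ^ κ := by
    intro κ ζ hζ q hq
    rw [mem_filter] at hq
    have h2 := card_KK (Lam ζ) (Lam_pos ζ) q.1 q.2 hq.2.1 hq.2.2.1 hq.2.2.2
    rw [Lam_prod] at h2
    have h3 : ∑ i, ζ i = (κ : ℤ) := by
      rw [ZZ, mem_filter] at hζ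
      exact hζ.2
    rw [h3, zpow_natCast] at h2
    refine le_trans ?_ h2
    exact_mod_cast card_image_le
  have h2 : ∀ κ : ℕ, ∀ ζ ∈ ZZ I κ, ((((univ : Finset (I × I)).filter fun q => q.1 ≠ q.2 ∧
      (∀ k, Lam ζ q.1 ≤ Lam ζ k) ∧ ∀ k, k ≠ q.1 → 1 ≤ Lam ζ q.1 * Lam ζ k).biUnion
      fun q => (KK (Lam ζ) q.1 q.2).image g).card : ℝ) ≤ (n : ℝ) ^ 2 * (15 ^ n * 2 ^ κ) := by
    intro κ ζ hζ
    have h3 : ((((univ : Finset (I × I)).filter fun q => q.1 ≠ q.2 ∧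
      (∀ k, Lam ζ q.1 ≤ Lam ζ k) ∧ ∀ k, k ≠ q.1 → 1 ≤ Lam ζ q.1 * Lam ζ k).biUnion
      fun q => (KK (Lam ζ) q.1 q.2).image g).card : ℝ) ≤
      ∑ q ∈ ((univ : Finset (I × I)).filter fun q => q.1 ≠ q.2 ∧
      (∀ k, Lam ζ q.1 ≤ Lam ζ k) ∧ ∀ k, k ≠ q.1 → 1 ≤ Lam ζ q.1 * Lam ζ k),
      (((KK (Lam ζ) q.1 q.2).image g).card : ℝ) := by exact_mod_cast card_biUnion_le
    refine (h3.trans (sum_le_sum (h1 κ ζ hζ))).trans ?_
    rw [sum_const, nsmul_eq_mul]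
    refine mul_le_mul_of_nonneg_right ?_ (by positivity)
    have h4 : ((univ : Finset (I × I)).filter fun q => q.1 ≠ q.2 ∧
      (∀ k, Lam ζ q.1 ≤ Lam ζ k) ∧ ∀ k, k ≠ q.1 → 1 ≤ Lam ζ q.1 * Lam ζ k).card ≤ n ^ 2 := by
      refine (card_filter_le _ _).trans ?_
      rw [Finset.card_univ, Fintype.card_prod, hn, pow_two]
    exact_mod_cast h4
  have h3 : ∀ κ ∈ range (K + 1), ((((ZZ I κ).biUnion fun ζ =>
      ((univ : Finset (I × I)).filter fun q => q.1 ≠ q.2 ∧ (∀ k, Lam ζ q.1 ≤ Lam ζ k) ∧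
      ∀ k, k ≠ q.1 → 1 ≤ Lam ζ q.1 * Lam ζ k).biUnion
      fun q => (KK (Lam ζ) q.1 q.2).image g)).card : ℝ) ≤
      (2 * K + 1) ^ (n - 1) * ((n : ℝ) ^ 2 * (15 ^ n * 2 ^ κ)) := by
    intro κ hκ
    rw [mem_range] at hκ
    have h4 : ((((ZZ I κ).biUnion fun ζ =>
      ((univ : Finset (I × I)).filter fun q => q.1 ≠ q.2 ∧ (∀ k, Lam ζ q.1 ≤ Lam ζ k) ∧
      ∀ k, k ≠ q.1 → 1 ≤ Lam ζ q.1 * Lam ζ k).biUnion
      fun q => (KK (Lam ζ) q.1 q.2).image g)).card : ℝ) ≤ ∑ ζ ∈ ZZ I κ,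
      ((((univ : Finset (I × I)).filter fun q => q.1 ≠ q.2 ∧
      (∀ k, Lam ζ q.1 ≤ Lam ζ k) ∧ ∀ k, k ≠ q.1 → 1 ≤ Lam ζ q.1 * Lam ζ k).biUnion
      fun q => (KK (Lam ζ) q.1 q.2).image g).card : ℝ) := by exact_mod_cast card_biUnion_le
    refine (h4.trans (sum_le_sum (h2 κ))).trans ?_
    rw [sum_const, nsmul_eq_mul]
    refine mul_le_mul_of_nonneg_right ?_ (by positivity)
    have h5 : (ZZ I κ).card ≤ (2 * K + 1) ^ (n - 1) :=
      (card_ZZ κ).trans (Nat.pow_le_pow_left (by omega) _)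
    exact_mod_cast h5
  have h4 : ((GG g K).card : ℝ) ≤ ∑ κ ∈ range (K + 1), ((((ZZ I κ).biUnion fun ζ =>
      ((univ : Finset (I × I)).filter fun q => q.1 ≠ q.2 ∧ (∀ k, Lam ζ q.1 ≤ Lam ζ k) ∧
      ∀ k, k ≠ q.1 → 1 ≤ Lam ζ q.1 * Lam ζ k).biUnion
      fun q => (KK (Lam ζ) q.1 q.2).image g)).card : ℝ) := by
    unfold GG
    exact_mod_cast card_biUnion_le
  refine (h4.trans (sum_le_sum h3)).trans ?_
  rw [← mul_sum, ← mul_sum, ← mul_sum]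
  have h5 : ∑ κ ∈ range (K + 1), (2 : ℝ) ^ κ ≤ 2 * 2 ^ K := by
    have h6 := geom_sum_eq (x := (2 : ℝ)) (by norm_num) (K + 1)
    rw [h6]
    rw [pow_succ]
    norm_num
    linarith [pow_pos (two_pos (α := ℝ)) K]
  have h6 : (0 : ℝ) ≤ (2 * K + 1) ^ (n - 1) * ((n : ℝ) ^ 2 * 15 ^ n) := by positivity
  nlinarith [mul_le_mul_of_nonneg_left h5 h6]

/-- The upper bound. -/
theorem upper {X : Type} (U : Set X) (x : X → I → ℚ × ℚ)
    (hx : ∀ t ∈ U, ∀ i j, i ≠ j → detQ (x t i) (x t j) ≠ 0) (g : (I → ℤ × ℤ) → X)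
    (hg : ∀ t ∈ U, ∀ w, Rep (x t) w → g w = t) (hcard : 3 ≤ Fintype.card I)
    (e : I → ℕ) (he : ∀ i, 0 < e i) (h2e : ∀ i, 2 * e i ≤ ∑ j, e j) (s : ℝ) (hs0 : 0 ≤ s)
    (hs : Eff fun i => s * e i - 2) :
    ∃ C : ℝ, ∀ T : ℝ, 1 ≤ T → {t ∈ U | hgt (fun i => 2 * e i) (x t) ≤ T ^ 2}.Finite ∧
      ({t ∈ U | hgt (fun i => 2 * e i) (x t) ≤ T ^ 2}.ncard : ℝ) ≤
        C * T ^ s * (1 + Real.log T) ^ (Fintype.card I - 1) := by
  classical
  have : Nonempty I := Fintype.card_pos_iff.1 (by omega)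
  set n := Fintype.card I with hn
  set E : ℝ := ∑ i, (e i : ℝ) with hE
  have hE0 : 0 ≤ E := sum_nonneg fun i _ => Nat.cast_nonneg _
  have hl2 : 0 < Real.log 2 := Real.log_pos one_lt_two
  set B : ℝ → ℝ := fun T => s / 2 * (E + 2 * (Real.log T / Real.log 2)) with hB
  have hB0 : ∀ T : ℝ, 1 ≤ T → 0 ≤ B T := by
    intro T hT
    have h1 : 0 ≤ Real.log T / Real.log 2 := div_nonneg (Real.log_nonneg hT) hl2.le
    have : 0 ≤ s / 2 := by positivity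
    positivity
  -- the main inclusion
  have hsub : ∀ T : ℝ, 1 ≤ T → {t ∈ U | hgt (fun i => 2 * e i) (x t) ≤ T ^ 2} ⊆
      (GG g ⌊B T⌋₊ : Set X) := by
    rintro T hT t ⟨htU, htT⟩
    obtain ⟨ζ, i0, i1, w, hw, hKK, h01, hmin, hone, hpair, hlast⟩ :=
      exists_data e he h2e hcard (x t) (hx t htU)
    obtain ⟨κ, hκ, hζ⟩ := mem_ZZ hcard ζ hpair
    rw [← hg t htU w hw]
    refine mem_GG g _ κ ?_ ζ hζ i0 i1 h01 hmin hone w hKK
    -- the bound for κ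
    have hT0 : 0 < T := by linarith
    have h1 : (2 : ℝ) ^ (∑ i, (e i : ℤ) * ζ i) ≤ 2 ^ (∑ i, e i) * T ^ 2 :=
      hlast.trans (mul_le_mul_of_nonneg_left htT (by positivity))
    have h2 := Real.log_le_log (zpow_pos two_pos _) h1
    rw [Real.log_zpow, Real.log_mul (by positivity) (by positivity), Real.log_pow,
      Real.log_pow] at h2
    have h3 : ((∑ i, (e i : ℤ) * ζ i : ℤ) : ℝ) ≤ E + 2 * (Real.log T / Real.log 2) := by
      have h4 : ((∑ i, (e i : ℤ) * ζ i : ℤ) : ℝ) * Real.log 2 ≤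
          (E + 2 * (Real.log T / Real.log 2)) * Real.log 2 := by
        have e1 : (E + 2 * (Real.log T / Real.log 2)) * Real.log 2 =
            E * Real.log 2 + 2 * Real.log T := by field_simp
        rw [e1, hE]
        have e2 : ((∑ i, e i : ℕ) : ℝ) = ∑ i, (e i : ℝ) := by push_cast; rfl
        rw [← e2]
        exact_mod_cast h2
      exact le_of_mul_le_mul_right h4 hl2
    have h5 := eff_sum (fun i => s * e i - 2) (fun i => (ζ i : ℝ)) hs (fun i k hik => by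
      have := hpair i k hik
      exact_mod_cast this)
    have h6 : ∑ i, (s * e i - 2) * (ζ i : ℝ) =
        s * ((∑ i, (e i : ℤ) * ζ i : ℤ) : ℝ) - 2 * ((∑ i, ζ i : ℤ) : ℝ) := by
      push_cast
      rw [mul_sum, mul_sum, ← sum_sub_distrib]
      exact sum_congr rfl fun i _ => by ring
    rw [h6, hκ] at h5
    have h7 : (κ : ℝ) ≤ B T := by
      have h8 : s * ((∑ i, (e i : ℤ) * ζ i : ℤ) : ℝ) ≤ s * (E + 2 * (Real.log T / Real.log 2)) :=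
        mul_le_mul_of_nonneg_left h3 hs0
      simp only [hB]
      rw [Int.cast_natCast] at h5
      linarith
    exact Nat.le_floor h7
  refine ⟨2 * (15 ^ n * (n : ℝ) ^ 2) * (s * E + 1 + 2 * s / Real.log 2) ^ (n - 1) *
    (2 : ℝ) ^ (s / 2 * E), fun T hT => ?_⟩
  have hfin : {t ∈ U | hgt (fun i => 2 * e i) (x t) ≤ T ^ 2}.Finite :=
    (GG g ⌊B T⌋₊).finite_toSet.subset (hsub T hT)
  refine ⟨hfin, ?_⟩
  have h1 : ({t ∈ U | hgt (fun i => 2 * e i) (x t) ≤ T ^ 2}.ncard : ℝ) ≤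
      ((GG g ⌊B T⌋₊).card : ℝ) := by
    have := Set.ncard_le_ncard (hsub T hT) (GG g ⌊B T⌋₊).finite_toSet
    rw [Set.ncard_coe_finset] at this
    exact_mod_cast this
  refine h1.trans ((card_GG g _).trans ?_)
  rw [← hn]
  have hlogT := Real.log_nonneg hT
  have hT0 : 0 < T := by linarith
  have hfl : ((⌊B T⌋₊ : ℕ) : ℝ) ≤ B T := Nat.floor_le (hB0 T hT)
  have h2 : 2 * ((⌊B T⌋₊ : ℕ) : ℝ) + 1 ≤ (s * E + 1 + 2 * s / Real.log 2) * (1 + Real.log T) := by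
    have h3 : 2 * B T + 1 = s * E + 1 + 2 * s / Real.log 2 * Real.log T := by
      simp only [hB]
      field_simp
      ring
    have h4 : 0 ≤ (s * E + 1) * Real.log T := mul_nonneg (by positivity) hlogT
    have h5 : 0 ≤ 2 * s / Real.log 2 := div_nonneg (by positivity) hl2.le
    nlinarith
  have h3 : (2 : ℝ) ^ ⌊B T⌋₊ ≤ (2 : ℝ) ^ (s / 2 * E) * T ^ s := by
    rw [← Real.rpow_natCast]
    calc (2 : ℝ) ^ ((⌊B T⌋₊ : ℕ) : ℝ) ≤ (2 : ℝ) ^ B T :=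
          Real.rpow_le_rpow_of_exponent_le one_le_two hfl
      _ = (2 : ℝ) ^ (s / 2 * E) * T ^ s := by
          have h4 : B T = s / 2 * E + Real.logb 2 T * s := by
            simp only [hB, Real.logb]
            ring
          rw [h4, Real.rpow_add two_pos, Real.rpow_mul zero_le_two (Real.logb 2 T) s,
            Real.rpow_logb two_pos (by norm_num) hT0]
  have h4 : (2 * ((⌊B T⌋₊ : ℕ) : ℝ) + 1) ^ (n - 1) ≤
      (s * E + 1 + 2 * s / Real.log 2) ^ (n - 1) * (1 + Real.log T) ^ (n - 1) := by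
    rw [← mul_pow]
    exact pow_le_pow_left₀ (by positivity) h2 _
  calc 2 * (15 ^ n * (n : ℝ) ^ 2) * (2 * ((⌊B T⌋₊ : ℕ) : ℝ) + 1) ^ (n - 1) * 2 ^ ⌊B T⌋₊
      ≤ 2 * (15 ^ n * (n : ℝ) ^ 2) * ((s * E + 1 + 2 * s / Real.log 2) ^ (n - 1) *
        (1 + Real.log T) ^ (n - 1)) * ((2 : ℝ) ^ (s / 2 * E) * T ^ s) := by
        refine mul_le_mul (mul_le_mul_of_nonneg_left h4 (by positivity)) h3 (by positivity) ?_
        have h5 : 0 ≤ 2 * s / Real.log 2 := div_nonneg (by positivity) hl2.le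
        positivity
    _ = _ := by ring

end

end Pool.Agent.Y714.ML
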