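import Pool.Agent.Y714.ML.Two

set_option autoImplicit false
set_option linter.unusedSectionVars false
set_option linter.unusedSimpArgs false

/-! The lower bound on dense open subsets. -/

namespace Pool.Agent.Y714.ML

open Finset

/-- a zero bound of the type of Schwartz and Zippel -/
theorem zeros_le {N : ℕ} {G : MvPolynomial (Fin N) ℚ} (hG : G ≠ 0) (S : Fin N → Finset ℚ)
    (hS : ∀ i, 0 < (S i).card) (M : Fin N → ℝ) (hM : ∀ i, ((S i).card : ℝ) ≤ M i) (Q : ℝ)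
    (hQ : 0 < Q) (hMQ : ∀ i, Q ≤ M i) :
    (((Fintype.piFinset S).filter fun t => MvPolynomial.eval t G = 0).card : ℝ) ≤
      (∑ i, (G.degreeOf i : ℝ)) / Q * ∏ i, M i := by
  have h := MvPolynomial.schwartz_zippel_sum_degreeOf hG S
  have h1 : ((((Fintype.piFinset S).filter fun t => MvPolynomial.eval t G = 0).card : ℝ)) /
      ∏ i, ((S i).card : ℝ) ≤ ∑ i, (G.degreeOf i : ℝ) / ((S i).card : ℝ) := by
    have h' := (NNRat.cast_le (K := ℝ)).2 h
    push_cast at h'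
    exact h'
  have hpos : (0 : ℝ) < ∏ i, ((S i).card : ℝ) := prod_pos fun i _ => by exact_mod_cast hS i
  rw [div_le_iff₀ hpos] at h1
  refine h1.trans ?_
  rw [sum_mul, sum_div, sum_mul]
  refine sum_le_sum fun i _ => ?_
  rw [← mul_prod_erase univ _ (mem_univ i), ← mul_prod_erase univ M (mem_univ i)]
  have hSi : (0 : ℝ) < (S i).card := by exact_mod_cast hS i
  have e1 : (G.degreeOf i : ℝ) / ((S i).card : ℝ) * (((S i).card : ℝ) *
      ∏ k ∈ univ.erase i, ((S k).card : ℝ)) = (G.degreeOf i : ℝ) *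
      ∏ k ∈ univ.erase i, ((S k).card : ℝ) := by
    field_simp
  have e2 : (G.degreeOf i : ℝ) / Q * (M i * ∏ k ∈ univ.erase i, M k) =
      (G.degreeOf i : ℝ) * (M i / Q) * ∏ k ∈ univ.erase i, M k := by
    field_simp
  rw [e1, e2]
  have e3 : ∏ k ∈ univ.erase i, ((S k).card : ℝ) ≤ ∏ k ∈ univ.erase i, M k :=
    prod_le_prod (fun k _ => Nat.cast_nonneg _) fun k _ => hM k
  have e4 : (0 : ℝ) ≤ ∏ k ∈ univ.erase i, M k := le_trans (prod_nonneg fun k _ => Nat.cast_nonneg _) e3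
  have e5 : 1 ≤ M i / Q := by rw [one_le_div hQ]; exact hMQ i
  have e6 : (0 : ℝ) ≤ (G.degreeOf i : ℝ) := Nat.cast_nonneg _
  calc (G.degreeOf i : ℝ) * ∏ k ∈ univ.erase i, ((S k).card : ℝ)
      ≤ (G.degreeOf i : ℝ) * ∏ k ∈ univ.erase i, M k := mul_le_mul_of_nonneg_left e3 e6
    _ = (G.degreeOf i : ℝ) * 1 * ∏ k ∈ univ.erase i, M k := by ring
    _ ≤ (G.degreeOf i : ℝ) * (M i / Q) * ∏ k ∈ univ.erase i, M k := by
        gcongr

section

variable {N P0 P : ℕ} {r : Fin 3 ⊕ Fin N → ℕ}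

/-- the cross ratio of the `j`-th point -/
def muj (P : ℕ) (r : Fin 3 ⊕ Fin N → ℕ) (α : Fin 3 → ℕ × ℕ) (j : Fin N) (z : ℕ × ℕ) : ℚ :=
  cr (fun i => wv P r (mm N) (rr N) (fun i => match i with
    | Sum.inl i => α i
    | Sum.inr _ => z) i) j

theorem cr_eq_muj (ω : Fin 3 ⊕ Fin N → ℕ × ℕ) (j : Fin N) :
    cr (wv P r (mm N) (rr N) ω) j = muj P r (fun i => ω (Sum.inl i)) j (ω (Sum.inr j)) := rfl

open Classical in
theorem card_zero (h : Siz P0 P 16 (rkk N) r (mm N) (rr N)) {G : MvPolynomial (Fin N) ℚ}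
    (hG : G ≠ 0) (L : ℕ) (hL : ∀ i, 2 ^ L ≤ 2 ^ r i) :
    ((((bx r).filter (Good P0 P (rkk N) r (mm N) (rr N))).filter fun ω =>
      MvPolynomial.eval (cr (wv P r (mm N) (rr N) ω)) G = 0).card : ℝ) ≤
      (∑ i, (G.degreeOf i : ℝ)) / 2 ^ L * (bx r).card := by
  set B3 : Finset (Fin 3 → ℕ × ℕ) := Fintype.piFinset fun i =>
    range (2 ^ r (Sum.inl i)) ×ˢ range (2 ^ r (Sum.inl i)) with hB3
  set S : (Fin 3 → ℕ × ℕ) → Fin N → Finset ℚ := fun α j =>
    (range (2 ^ r (Sum.inr j)) ×ˢ range (2 ^ r (Sum.inr j))).image (muj P r α j) with hS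
  have h1 : ((((bx r).filter (Good P0 P (rkk N) r (mm N) (rr N))).filter fun ω =>
      MvPolynomial.eval (cr (wv P r (mm N) (rr N) ω)) G = 0).card) ≤
      (B3.sigma fun α => (Fintype.piFinset (S α)).filter fun t => MvPolynomial.eval t G = 0).card := by
    refine card_le_card_of_injOn (fun ω => (⟨fun i => ω (Sum.inl i),
      cr (wv P r (mm N) (rr N) ω)⟩ : Σ _ : (Fin 3 → ℕ × ℕ), Fin N → ℚ)) ?_ ?_
    · intro ω hω
      have hω' := mem_filter.1 (Finset.mem_coe.1 hω)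
      have hω'' := mem_filter.1 hω'.1
      refine Finset.mem_coe.2 (mem_sigma.2 ⟨?_, mem_filter.2 ⟨?_, hω'.2⟩⟩)
      · exact Fintype.mem_piFinset.2 fun i => mem_bx hω''.1 _
      · refine Fintype.mem_piFinset.2 fun j => ?_
        exact mem_image.2 ⟨ω (Sum.inr j), mem_bx hω''.1 _, (cr_eq_muj ω j).symm⟩
    · intro ω hω ω' hω' heq
      have g1 := mem_filter.1 (mem_filter.1 (Finset.mem_coe.1 hω)).1
      have g2 := mem_filter.1 (mem_filter.1 (Finset.mem_coe.1 hω')).1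
      simp only [Sigma.mk.injEq, heq_eq_eq] at heq
      exact (inj_cr h h g1.1 g2.1 g1.2 g2.2 heq.2).2
  have h2 : ((((bx r).filter (Good P0 P (rkk N) r (mm N) (rr N))).filter fun ω =>
      MvPolynomial.eval (cr (wv P r (mm N) (rr N) ω)) G = 0).card : ℝ) ≤
      ∑ α ∈ B3, (((Fintype.piFinset (S α)).filter fun t => MvPolynomial.eval t G = 0).card : ℝ) := by
    rw [card_sigma] at h1
    exact_mod_cast h1
  refine h2.trans ?_
  have h3 : ∀ α ∈ B3, (((Fintype.piFinset (S α)).filter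
      fun t => MvPolynomial.eval t G = 0).card : ℝ) ≤
      (∑ i, (G.degreeOf i : ℝ)) / 2 ^ L * ∏ j : Fin N, ((2 : ℝ) ^ r (Sum.inr j)) ^ 2 := by
    intro α _
    refine zeros_le hG (S α) ?_ (fun j => ((2 : ℝ) ^ r (Sum.inr j)) ^ 2) ?_ (2 ^ L) (by positivity) ?_
    · intro j
      rw [card_pos]
      refine Nonempty.image ⟨(0, 0), ?_⟩ _
      rw [mem_product, mem_range]
      constructor <;> positivity
    · intro j
      have : (S α j).card ≤ (2 ^ r (Sum.inr j)) ^ 2 := by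
        refine card_image_le.trans (le_of_eq ?_)
        rw [card_product, card_range]; ring
      exact_mod_cast this
    · intro j
      have e1 : (2 : ℝ) ^ L ≤ 2 ^ r (Sum.inr j) := by exact_mod_cast hL (Sum.inr j)
      have e2 : (1 : ℝ) ≤ 2 ^ r (Sum.inr j) := one_le_pow₀ (by norm_num)
      nlinarith
  refine (sum_le_sum h3).trans (le_of_eq ?_)
  rw [sum_const, nsmul_eq_mul]
  have e1 : ((bx r).card : ℝ) = (B3.card : ℝ) * ∏ j : Fin N, ((2 : ℝ) ^ r (Sum.inr j)) ^ 2 := by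
    unfold bx
    rw [hB3, Fintype.card_piFinset, Fintype.card_piFinset, Fintype.prod_sum_type]
    simp only [card_product, card_range]
    push_cast
    congr 1
    refine prod_congr rfl fun j _ => ?_
    ring
  rw [e1]
  ring

end

open Classical in
theorem low_KG (N P0 P D K L : ℕ) (hN : 2 ≤ N) (hP : P = P0.factorial)
    (hP0 : 6 * (N + 3) + 8 * (N + 3) ^ 3 ≤ P0) (hD : D = (N + 3 + 4) * 4 ^ (N + 3))
    (hL : L = K / D) (h1 : (K + 1) * P0 ≤ 2 ^ L) (h2 : 2 * ((16 + 1) * P * P0) ≤ 2 ^ L)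
    (h3 : (17 * P) ^ 2 ≤ 2 ^ L) (h4 : 1 ≤ L) {G : MvPolynomial (Fin N) ℚ} (hG : G ≠ 0)
    (hGL : 4 * ∑ i, G.degreeOf i ≤ 2 ^ L)
    (hfin : {t ∈ UU N | MvPolynomial.eval t G ≠ 0 ∧
      hgt (fun _ => 2) (vec t) ≤ ((17 * P : ℕ) : ℝ) ^ (2 * (N + 3)) * 4 ^ K}.Finite) :
    (L : ℝ) ^ (N + 2) * (4 ^ K / 4) ≤
      {t ∈ UU N | MvPolynomial.eval t G ≠ 0 ∧
        hgt (fun _ => 2) (vec t) ≤ ((17 * P : ℕ) : ℝ) ^ (2 * (N + 3)) * 4 ^ K}.ncard := by
  have hPpos : 0 < P := by rw [hP]; exact Nat.factorial_pos _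
  have hc : Fintype.card (Fin 3 ⊕ Fin N) = N + 3 := by
    rw [Fintype.card_sum, Fintype.card_fin, Fintype.card_fin]; ring
  set l : Fin 3 ⊕ Fin N := Sum.inr ⟨N - 1, by omega⟩ with hl
  have hll : rkk N l + 1 = N + 3 := by
    simp only [hl, rkk]; omega
  have hrkl : ∀ i, i ≠ l → rkk N i + 2 ≤ N + 3 := by
    rintro (i | j) hi
    · simp only [rkk]
      have := i.isLt
      omega
    · simp only [rkk]
      have := j.isLt
      have hne : j.val ≠ N - 1 := by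
        intro h
        apply hi
        rw [hl]
        congr 1
        exact Fin.ext h
      omega
  have hKL : (N + 3 + 4) * 4 ^ (N + 3) * L ≤ K := by
    rw [← hD, hL]; exact Nat.mul_div_le K D
  set R : (Fin 3 ⊕ Fin N → ℕ) → Fin 3 ⊕ Fin N → ℕ := fun s => ex (rkk N) l K L s with hR
  have hsum : ∀ s ∈ SS l L, ∑ i, R s i = K := fun s hs =>
    ex_sum (rkk N) l (N + 3) K L s hc hrkl hll hs hKL
  have hge : ∀ s ∈ SS l L, ∀ i, L ≤ R s i := by
    intro s hs i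
    refine le_trans ?_ (ex_ge (rkk N) l (N + 3) K L s hc hrkl hll hs hKL i)
    exact Nat.le_mul_of_pos_left _ (by positivity)
  have hpow : ∀ s ∈ SS l L, ∀ i, 2 ^ L ≤ 2 ^ R s i := fun s hs i =>
    Nat.pow_le_pow_right (by norm_num) (hge s hs i)
  have hsiz : ∀ s ∈ SS l L, Siz P0 P 16 (rkk N) (R s) (mm N) (rr N) := by
    intro s hs
    refine ⟨hP, by norm_num, rkk_inj N, rr_res N, ?_, ?_, ?_, ?_, ?_, ?_, ?_⟩
    · rintro (i | j)
      · fin_cases i <;> simp [mm]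
      · simp [mm]
    · rintro (i | j)
      · fin_cases i <;> simp [mm]
      · simp [mm]
    · rintro (i | j)
      · fin_cases i <;> simp [mm]
      · simp [mm]
    · intro i j hij
      have := ex_two (rkk N) l (N + 3) K L s hc (rkk_inj N) hrkl hll hs hKL i j hij
      simp only [hR]
      omega
    · intro i j k hij hjk
      have h5 := ex_three (rkk N) l (N + 3) K L s hc (rkk_inj N) hrkl hll hs hKL i j k hij hjk
      calc (16 + 1) * P * 2 ^ R s i * ((16 + 1) * P * 2 ^ R s j)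
          = (17 * P) ^ 2 * 2 ^ (R s i + R s j) := by rw [pow_add]; ring
        _ ≤ 2 ^ L * 2 ^ (R s i + R s j) := Nat.mul_le_mul_right _ h3
        _ = 2 ^ (R s i + R s j + L) := by rw [← pow_add]; congr 1; ring
        _ ≤ 2 ^ R s k := Nat.pow_le_pow_right (by norm_num) h5
    · intro i
      rw [hc]
      exact card_cls N hN i
    · omega
  set G0 : (Fin 3 ⊕ Fin N → ℕ) → Finset (Fin 3 ⊕ Fin N → ℕ × ℕ) := fun s =>
    (bx (R s)).filter (Good P0 P (rkk N) (R s) (mm N) (rr N)) with hG0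
  set G1 : (Fin 3 ⊕ Fin N → ℕ) → Finset (Fin 3 ⊕ Fin N → ℕ × ℕ) := fun s =>
    (G0 s).filter fun ω => ¬ MvPolynomial.eval (cr (wv P (R s) (mm N) (rr N) ω)) G = 0 with hG1
  have hGcard : ∀ s ∈ SS l L, (4 : ℝ) ^ K / 4 ≤ (G1 s).card := by
    intro s hs
    have hle : ∀ i, R s i ≤ K := fun i => by
      rw [← hsum s hs]
      exact single_le_sum (f := R s) (fun _ _ => Nat.zero_le _) (mem_univ i)
    have h5 := card_good P0 P 16 K (by omega) hP (by norm_num) (rkk N) (R s) (mm N) (rr N)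
      (hsiz s hs).hρ (hsiz s hs).hm1 (hsiz s hs).hm2 (hsiz s hs).hm hle
      (fun i => h1.trans (hpow s hs i)) (fun i => h2.trans (hpow s hs i)) (by rw [hc]; exact hP0)
    have h6 := card_zero (hsiz s hs) hG L (hpow s hs)
    have h7 : (G0 s).card = ((G0 s).filter fun ω =>
        MvPolynomial.eval (cr (wv P (R s) (mm N) (rr N) ω)) G = 0).card + (G1 s).card :=
      (card_filter_add_card_filter_not (s := G0 s) fun ω =>
        MvPolynomial.eval (cr (wv P (R s) (mm N) (rr N) ω)) G = 0).symm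
    have h8 : ((G0 s).card : ℝ) = (((G0 s).filter fun ω =>
        MvPolynomial.eval (cr (wv P (R s) (mm N) (rr N) ω)) G = 0).card : ℝ) + (G1 s).card := by
      exact_mod_cast h7
    have h9 : (∑ i, (G.degreeOf i : ℝ)) / 2 ^ L ≤ 1 / 4 := by
      rw [div_le_div_iff₀ (by positivity) (by norm_num)]
      have : ((4 * ∑ i, G.degreeOf i : ℕ) : ℝ) ≤ ((2 ^ L : ℕ) : ℝ) := by exact_mod_cast hGL
      push_cast at this
      linarith
    have h10 : (0 : ℝ) ≤ (bx (R s)).card := Nat.cast_nonneg _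
    have h11 := mul_le_mul_of_nonneg_right h9 h10
    rw [card_bx, hsum s hs] at h5 h6 h11
    push_cast at h5 h6 h11
    simp only [hG0] at h8 ⊢
    linarith
  -- the map
  set Z : Finset (Σ _ : (Fin 3 ⊕ Fin N → ℕ), Fin 3 ⊕ Fin N → ℕ × ℕ) := (SS l L).sigma G1 with hZ
  have hZcard : (L : ℝ) ^ (N + 2) * (4 ^ K / 4) ≤ Z.card := by
    rw [hZ, card_sigma]
    push_cast
    have h5 : ∑ s ∈ SS l L, (4 : ℝ) ^ K / 4 ≤ ∑ s ∈ SS l L, ((G1 s).card : ℝ) := sum_le_sum hGcard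
    rw [sum_const, nsmul_eq_mul, card_SS, hc] at h5
    push_cast at h5
    exact h5
  let f : (Σ _ : (Fin 3 ⊕ Fin N → ℕ), Fin 3 ⊕ Fin N → ℕ × ℕ) → (Fin N → ℚ) := fun z =>
    cr (wv P (R z.1) (mm N) (rr N) z.2)
  have hinj : Set.InjOn f (Z : Set _) := by
    rintro ⟨s, ω⟩ hz ⟨s', ω'⟩ hz' heq
    rw [Finset.mem_coe, hZ, mem_sigma] at hz hz'
    simp only [hG1, hG0, mem_filter] at hz hz'
    obtain ⟨h5, h6⟩ := inj_cr (hsiz s hz.1) (hsiz s' hz'.1) hz.2.1.1 hz'.2.1.1 hz.2.1.2 hz'.2.1.2 heq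
    have h7 := ex_inj (rkk N) l K L s s' hz.1 hz'.1 h5
    rw [h7, h6]
  have hsub : ((Z.image f : Finset (Fin N → ℚ)) : Set (Fin N → ℚ)) ⊆
      {t ∈ UU N | MvPolynomial.eval t G ≠ 0 ∧
        hgt (fun _ => 2) (vec t) ≤ ((17 * P : ℕ) : ℝ) ^ (2 * (N + 3)) * 4 ^ K} := by
    intro t ht
    rw [Finset.mem_coe, mem_image] at ht
    obtain ⟨⟨s, ω⟩, hz, rfl⟩ := ht
    rw [hZ, mem_sigma] at hz
    simp only [hG1, hG0, mem_filter] at hz
    refine ⟨cr_mem _ ((hsiz s hz.1).dt_ne hz.2.1.1 hz.2.1.2), hz.2.2, ?_⟩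
    have h5 := hgt_good (hsiz s hz.1) hz.2.1.1 hz.2.1.2
    rw [hsum s hz.1] at h5
    exact h5
  have h5 := Set.ncard_le_ncard hsub hfin
  rw [Set.ncard_coe_finset, card_image_of_injOn hinj] at h5
  refine hZcard.trans ?_
  exact_mod_cast h5

theorem lower_open (N : ℕ) (hN : 2 ≤ N) {G : MvPolynomial (Fin N) ℚ} (hG : G ≠ 0) :
    ∃ c : ℝ, 0 < c ∧ ∃ B0 : ℝ, ∀ B : ℝ, B0 ≤ B →
      c * B * Real.log B ^ (N + 2) ≤
        {t ∈ UU N | MvPolynomial.eval t G ≠ 0 ∧ hgt (fun _ => 2) (vec t) ≤ B}.ncard := by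
  have hfinall : ∀ B : ℝ, 1 ≤ B → {t ∈ UU N | MvPolynomial.eval t G ≠ 0 ∧
      hgt (fun _ => 2) (vec t) ≤ B}.Finite := by
    intro B hB
    suffices h : {t ∈ UU N | hgt (fun _ => 2) (vec t) ≤ B}.Finite from
      h.subset fun t ht => ⟨ht.1, ht.2.2⟩
    obtain ⟨C, hC⟩ := upper_fin N (by omega) (fun _ => 1) (fun _ => by norm_num) (by
      intro i
      simp only [sum_const, smul_eq_mul, mul_one, Finset.card_univ, Fintype.card_sum,
        Fintype.card_fin]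
      omega)
    have h1 := (hC (Real.sqrt B) (Real.one_le_sqrt.2 hB)).1
    rw [Real.sq_sqrt (by linarith)] at h1
    exact h1
  obtain ⟨P0, hP0⟩ : ∃ P0 : ℕ, P0 = 6 * (N + 3) + 8 * (N + 3) ^ 3 := ⟨_, rfl⟩
  obtain ⟨P, hP⟩ : ∃ P : ℕ, P = P0.factorial := ⟨_, rfl⟩
  have hPpos : 0 < P := by rw [hP]; exact Nat.factorial_pos _
  obtain ⟨D, hD⟩ : ∃ D : ℕ, D = (N + 3 + 4) * 4 ^ (N + 3) := ⟨_, rfl⟩
  have hDpos : 0 < D := by rw [hD]; positivity
  obtain ⟨K1, hK1⟩ := exists_large D P0 (2 * ((16 + 1) * P * P0) + (17 * P) ^ 2 +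
    4 * ∑ i, G.degreeOf i) hDpos
  obtain ⟨C0, hC0⟩ : ∃ C0 : ℝ, C0 = ((17 * P : ℕ) : ℝ) ^ (2 * (N + 3)) := ⟨_, rfl⟩
  have hC01 : 1 ≤ C0 := by
    rw [hC0]
    apply one_le_pow₀
    have : 1 ≤ 17 * P := by omega
    exact_mod_cast this
  obtain ⟨A, hA⟩ : ∃ A : ℝ, A = 2 * D * (Real.log C0 + 2) := ⟨_, rfl⟩
  have hlogC0 : 0 ≤ Real.log C0 := Real.log_nonneg hC01
  have hDr : (0 : ℝ) < D := by exact_mod_cast hDpos
  have hApos : 0 < A := by rw [hA]; positivity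
  refine ⟨1 / (16 * C0 * A ^ (N + 2)), by positivity, C0 * 4 ^ (K1 + 1), fun B hB => ?_⟩
  have hC0pos : 0 < C0 := by linarith
  have h4K1 : (1 : ℝ) ≤ 4 ^ (K1 + 1) := one_le_pow₀ (by norm_num)
  have hBC : (4 : ℝ) ^ (K1 + 1) ≤ B / C0 := by rw [le_div_iff₀ hC0pos]; linarith
  set b : ℕ := ⌊B / C0⌋₊ with hb
  set K : ℕ := Nat.log 4 b with hK
  have hb1 : 4 ^ (K1 + 1) ≤ b := by
    apply Nat.le_floor
    push_cast
    exact hBC
  have hbne : b ≠ 0 := by
    have : 0 < 4 ^ (K1 + 1) := by positivity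
    omega
  have hKK1 : K1 ≤ K := by
    have h5 := (Nat.le_log_iff_pow_le (by norm_num : 1 < 4) hbne).2 hb1
    omega
  have hKle : (4 : ℝ) ^ K ≤ B / C0 := by
    have h5 := Nat.pow_log_le_self 4 hbne
    have h6 : ((4 ^ K : ℕ) : ℝ) ≤ (b : ℝ) := by exact_mod_cast h5
    push_cast at h6
    exact h6.trans (Nat.floor_le (by linarith))
  have hKlt : B / C0 < 4 ^ (K + 1) := by
    have h5 := Nat.lt_pow_succ_log_self (by norm_num : 1 < 4) b
    have h6 : ((b + 1 : ℕ) : ℝ) ≤ ((4 ^ (K + 1) : ℕ) : ℝ) := by exact_mod_cast h5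
    push_cast at h6
    exact (Nat.lt_floor_add_one _).trans_le h6
  obtain ⟨e1, e2, e3⟩ := hK1 K hKK1
  have hB1 : C0 * 4 ^ K ≤ B := by
    rw [le_div_iff₀ hC0pos] at hKle; linarith
  have hB2 : B < C0 * 4 ^ (K + 1) := by
    rw [div_lt_iff₀ hC0pos] at hKlt; linarith
  have hCK1 : 1 ≤ C0 * 4 ^ K := by
    have : (1 : ℝ) ≤ 4 ^ K := one_le_pow₀ (by norm_num)
    nlinarith
  have hmain := low_KG N P0 P D K (K / D) hN hP hP0.ge hD rfl e1
    (((Nat.le_add_right _ _).trans (Nat.le_add_right _ _)).trans e2)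
    (((Nat.le_add_left _ _).trans (Nat.le_add_right _ _)).trans e2) e3 hG
    ((Nat.le_add_left _ _).trans e2) (by rw [← hC0]; exact hfinall _ hCK1)
  rw [← hC0] at hmain
  have hmono : ({t ∈ UU N | MvPolynomial.eval t G ≠ 0 ∧
      hgt (fun _ => 2) (vec t) ≤ C0 * 4 ^ K}.ncard : ℝ) ≤
      {t ∈ UU N | MvPolynomial.eval t G ≠ 0 ∧ hgt (fun _ => 2) (vec t) ≤ B}.ncard := by
    have := Set.ncard_le_ncard (s := {t ∈ UU N | MvPolynomial.eval t G ≠ 0 ∧
      hgt (fun _ => 2) (vec t) ≤ C0 * 4 ^ K}) (t := {t ∈ UU N | MvPolynomial.eval t G ≠ 0 ∧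
      hgt (fun _ => 2) (vec t) ≤ B})
      (fun t ht => ⟨ht.1, ht.2.1, ht.2.2.trans hB1⟩) (hfinall B (hCK1.trans hB1))
    exact_mod_cast this
  refine le_trans ?_ (hmain.trans hmono)
  -- `log B ≤ A * (K / D)`
  have hBpos : 0 < B := by linarith
  have hlog : Real.log B ≤ A * (K / D : ℕ) := by
    have h5 : Real.log B ≤ Real.log C0 + (K + 1) * Real.log 4 := by
      have h6 := Real.log_le_log hBpos hB2.le
      rw [Real.log_mul hC0pos.ne' (by positivity), Real.log_pow] at h6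
      push_cast at h6
      exact h6
    have h6 : Real.log 4 ≤ 2 := by
      have : Real.log 4 = 2 * Real.log 2 := by
        rw [show (4 : ℝ) = 2 ^ 2 by norm_num, Real.log_pow]; norm_num
      rw [this]
      have := Real.log_two_lt_d9
      linarith
    have h7 : (0 : ℝ) ≤ K := Nat.cast_nonneg K
    have h8 : Real.log B ≤ (K + 1) * (Real.log C0 + 2) := by
      nlinarith
    have h9 : K + 1 ≤ 2 * D * (K / D) := by
      have h10 : K + 1 ≤ D * (K / D + 1) := Nat.lt_mul_div_succ K hDpos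
      calc K + 1 ≤ D * (K / D + 1) := h10
        _ ≤ D * (2 * (K / D)) := Nat.mul_le_mul_left _ (by omega)
        _ = 2 * D * (K / D) := by ring
    have h9' : ((K : ℝ) + 1) ≤ 2 * D * (K / D : ℕ) := by exact_mod_cast h9
    calc Real.log B ≤ (K + 1) * (Real.log C0 + 2) := h8
      _ ≤ (2 * D * (K / D : ℕ)) * (Real.log C0 + 2) :=
          mul_le_mul_of_nonneg_right h9' (by linarith)
      _ = A * (K / D : ℕ) := by rw [hA]; ring
  have hlog0 : 0 ≤ Real.log B := Real.log_nonneg (by linarith)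
  have h5 : Real.log B ^ (N + 2) ≤ A ^ (N + 2) * ((K / D : ℕ) : ℝ) ^ (N + 2) := by
    rw [← mul_pow]
    exact pow_le_pow_left₀ hlog0 hlog _
  have h6 : B ≤ 4 * C0 * 4 ^ K := by
    have : C0 * (4 : ℝ) ^ (K + 1) = 4 * C0 * 4 ^ K := by rw [pow_succ]; ring
    linarith
  have hAn : 0 < A ^ (N + 2) := by positivity
  calc 1 / (16 * C0 * A ^ (N + 2)) * B * Real.log B ^ (N + 2)
      ≤ 1 / (16 * C0 * A ^ (N + 2)) * (4 * C0 * 4 ^ K) *
        (A ^ (N + 2) * ((K / D : ℕ) : ℝ) ^ (N + 2)) := by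
        refine mul_le_mul ?_ h5 (by positivity) (by positivity)
        exact mul_le_mul_of_nonneg_left h6 (by positivity)
    _ = ((K / D : ℕ) : ℝ) ^ (N + 2) * (4 ^ K / 4) := by
        field_simp
        ring

end Pool.Agent.Y714.ML
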