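import Pool.Agent.Y714.ML.Ht

set_option autoImplicit false
set_option linter.unusedSectionVars false

/-! Uniqueness of stable models. -/

namespace Pool.Agent.Y714.ML

open Finset

/-- A non-zero rational matrix is a multiple of a primitive integral matrix. -/
theorem exists_primitive4 (a b c d : ℚ) (h : a * d - b * c ≠ 0) :
    ∃ (l : ℚ) (A B C D : ℤ), l ≠ 0 ∧ (A : ℚ) = l * a ∧ (B : ℚ) = l * b ∧ (C : ℚ) = l * c ∧
      (D : ℚ) = l * d ∧ ∀ p : ℕ, p.Prime → ¬ ((p : ℤ) ∣ A ∧ (p : ℤ) ∣ B ∧ (p : ℤ) ∣ C ∧ (p : ℤ) ∣ D) := by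
  classical
  -- integral multiples, minimal determinant
  let P : ℕ → Prop := fun m => ∃ (l : ℚ) (A B C D : ℤ), l ≠ 0 ∧ (A : ℚ) = l * a ∧ (B : ℚ) = l * b ∧
    (C : ℚ) = l * c ∧ (D : ℚ) = l * d ∧ (A * D - B * C).natAbs = m
  have hP : ∃ m, P m := by
    refine ⟨_, (a.den * b.den * c.den * d.den : ℚ), a.num * b.den * c.den * d.den,
      b.num * a.den * c.den * d.den, c.num * a.den * b.den * d.den, d.num * a.den * b.den * c.den,
      ?_, ?_, ?_, ?_, ?_, rfl⟩
    · have h1 : (a.den : ℚ) ≠ 0 := by exact_mod_cast a.den_nz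
      have h2 : (b.den : ℚ) ≠ 0 := by exact_mod_cast b.den_nz
      have h3 : (c.den : ℚ) ≠ 0 := by exact_mod_cast c.den_nz
      have h4 : (d.den : ℚ) ≠ 0 := by exact_mod_cast d.den_nz
      exact mul_ne_zero (mul_ne_zero (mul_ne_zero h1 h2) h3) h4
    · push_cast
      rw [← Rat.mul_den_eq_num a]; ring
    · push_cast
      rw [← Rat.mul_den_eq_num b]; ring
    · push_cast
      rw [← Rat.mul_den_eq_num c]; ring
    · push_cast
      rw [← Rat.mul_den_eq_num d]; ring
  obtain ⟨l, A, B, C, D, hl, hA, hB, hC, hD, hm⟩ := Nat.find_spec hP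
  refine ⟨l, A, B, C, D, hl, hA, hB, hC, hD, fun p hp ⟨⟨A', hA'⟩, ⟨B', hB'⟩, ⟨C', hC'⟩, ⟨D', hD'⟩⟩ => ?_⟩
  have hp0 : (p : ℚ) ≠ 0 := by exact_mod_cast hp.ne_zero
  have hmin : Nat.find hP ≤ (A' * D' - B' * C').natAbs := by
    refine Nat.find_min' hP ⟨l / p, A', B', C', D', div_ne_zero hl hp0, ?_, ?_, ?_, ?_, rfl⟩
    · rw [hA'] at hA; push_cast at hA; field_simp; linarith
    · rw [hB'] at hB; push_cast at hB; field_simp; linarith
    · rw [hC'] at hC; push_cast at hC; field_simp; linarith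
    · rw [hD'] at hD; push_cast at hD; field_simp; linarith
  have hdet : A * D - B * C = (p : ℤ) ^ 2 * (A' * D' - B' * C') := by
    rw [hA', hB', hC', hD']; ring
  have hne : A * D - B * C ≠ 0 := by
    intro h0
    have h1 : ((A * D - B * C : ℤ) : ℚ) = l ^ 2 * (a * d - b * c) := by
      push_cast
      rw [hA, hB, hC, hD]; ring
    rw [h0, Int.cast_zero] at h1
    exact (mul_ne_zero (pow_ne_zero 2 hl) h) h1.symm
  have h2 : (A * D - B * C).natAbs = p ^ 2 * (A' * D' - B' * C').natAbs := by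
    rw [hdet, Int.natAbs_mul, Int.natAbs_pow, Int.natAbs_natCast]
  have h3 : 0 < (A' * D' - B' * C').natAbs := by
    rcases Nat.eq_zero_or_pos (A' * D' - B' * C').natAbs with h | h
    · rw [h, mul_zero] at h2
      exact absurd (Int.natAbs_eq_zero.1 h2) hne
    · exact h
  have h4 : 2 ≤ p := hp.two_le
  rw [← hm, h2] at hmin
  have h5 : 2 ≤ p ^ 2 := by nlinarith
  have h6 := Nat.mul_le_mul_right (A' * D' - B' * C').natAbs h5
  omega

section

variable {I : Type} [Fintype I] [DecidableEq I]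

/-- strict stability at all primes -/
def Str (v : I → ℤ × ℤ) : Prop := ∀ p : ℕ, p.Prime → ∀ i,
  2 * (univ.filter fun j => (p : ℤ) ∣ dt (v i) (v j)).card < Fintype.card I

theorem unique_model {x : I → ℚ × ℚ} {v w : I → ℤ × ℤ} (hv : Rep x v) (hw : Rep x w)
    (hcv : ∀ i, IsCoprime (v i).1 (v i).2) (hcw : ∀ i, IsCoprime (w i).1 (w i).2)
    (hsv : Str v) (hsw : Str w) (hI : 0 < Fintype.card I) :
    ∃ a b c d : ℤ, (a * d - b * c = 1 ∨ a * d - b * c = -1) ∧ ∃ ε : I → ℤ,
      (∀ i, ε i = 1 ∨ ε i = -1) ∧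
      ∀ i, w i = (ε i * (a * (v i).1 + b * (v i).2), ε i * (c * (v i).1 + d * (v i).2)) := by
  classical
  obtain ⟨a1, b1, c1, d1, hD1, κ1, hκ1, h1⟩ := hv
  obtain ⟨a2, b2, c2, d2, hD2, κ2, hκ2, h2⟩ := hw
  -- the rational matrix `B adj(A)`
  obtain ⟨l, a, b, c, d, hl, ha, hb, hc, hd, hprim⟩ := exists_primitive4
    (a2 * d1 - b2 * c1) (b2 * a1 - a2 * b1) (c2 * d1 - d2 * c1) (d2 * a1 - c2 * b1) (by
      have : (a2 * d1 - b2 * c1) * (d2 * a1 - c2 * b1) - (b2 * a1 - a2 * b1) * (c2 * d1 - d2 * c1) =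
        (a2 * d2 - b2 * c2) * (a1 * d1 - b1 * c1) := by ring
      rw [this]
      exact mul_ne_zero hD2 hD1)
  set u : I → ℤ × ℤ := fun i => (a * (v i).1 + b * (v i).2, c * (v i).1 + d * (v i).2) with hu
  -- `u i` is a rational multiple of `w i`
  have hmul : ∀ i, ∃ q : ℚ, q ≠ 0 ∧ ((u i).1 : ℚ) = q * (w i).1 ∧ ((u i).2 : ℚ) = q * (w i).2 := by
    intro i
    refine ⟨l * κ1 i * (a1 * d1 - b1 * c1) / κ2 i,
      div_ne_zero (mul_ne_zero (mul_ne_zero hl (hκ1 i)) hD1) (hκ2 i), ?_, ?_⟩
    · simp only [hu]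
      push_cast
      rw [ha, hb, (h1 i).1, (h1 i).2, (h2 i).1]
      have := hκ2 i
      field_simp
      ring
    · simp only [hu]
      push_cast
      rw [hc, hd, (h1 i).1, (h1 i).2, (h2 i).2]
      have := hκ2 i
      field_simp
      ring
  have hci : ∀ i, ∃ q : ℤ, q ≠ 0 ∧ (u i).1 = q * (w i).1 ∧ (u i).2 = q * (w i).2 := by
    intro i
    obtain ⟨q, hq, h3, h4⟩ := hmul i
    obtain ⟨r, s, hrs⟩ := hcw i
    have h5 : ((r * (u i).1 + s * (u i).2 : ℤ) : ℚ) = q := by
      push_cast
      rw [h3, h4]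
      have h6 : (r : ℚ) * (w i).1 + s * (w i).2 = 1 := by exact_mod_cast hrs
      calc (r : ℚ) * (q * (w i).1) + s * (q * (w i).2) = q * (r * (w i).1 + s * (w i).2) := by ring
        _ = q := by rw [h6, mul_one]
    refine ⟨r * (u i).1 + s * (u i).2, ?_, ?_, ?_⟩
    · intro h0
      rw [h0, Int.cast_zero] at h5
      exact hq h5.symm
    · rw [← h5] at h3
      exact_mod_cast h3
    · rw [← h5] at h4
      exact_mod_cast h4
  choose q hq hq1 hq2 using hci
  -- determinants
  have hdtu : ∀ i j, q i * q j * dt (w i) (w j) = (a * d - b * c) * dt (v i) (v j) := by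
    intro i j
    have e1 : q i * q j * dt (w i) (w j) = dt (u i) (u j) := by
      have e2 : dt (u i) (u j) = (u i).1 * (u j).2 - (u i).2 * (u j).1 := rfl
      rw [e2, hq1, hq2, hq1, hq2]
      unfold dt
      ring
    rw [e1]
    simp only [hu, dt_mk]
    unfold dt
    ring
  have hdet : (a * d - b * c).natAbs = 1 := by
    by_contra hne
    obtain ⟨p, hp, hpd⟩ := Nat.exists_prime_and_dvd hne
    have hpd' : (p : ℤ) ∣ a * d - b * c := by
      rw [← Int.natAbs_dvd_natAbs]
      simpa using hpd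
    have hpi : Prime (p : ℤ) := Nat.prime_iff_prime_int.1 hp
    set S : Finset I := univ.filter fun i => (p : ℤ) ∣ q i with hS
    have hin : ∀ i ∈ S, ∀ j ∈ S, (p : ℤ) ∣ dt (v i) (v j) := by
      intro i hi j hj
      rw [hS, mem_filter] at hi hj
      have ui1 : (p : ℤ) ∣ (u i).1 := by rw [hq1]; exact hi.2.mul_right _
      have ui2 : (p : ℤ) ∣ (u i).2 := by rw [hq2]; exact hi.2.mul_right _
      have uj1 : (p : ℤ) ∣ (u j).1 := by rw [hq1]; exact hj.2.mul_right _
      have uj2 : (p : ℤ) ∣ (u j).2 := by rw [hq2]; exact hj.2.mul_right _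
      have fa : (p : ℤ) ∣ a * dt (v i) (v j) := by
        have : a * dt (v i) (v j) = (u i).1 * (v j).2 - (u j).1 * (v i).2 := by
          simp only [hu]; unfold dt; ring
        rw [this]; exact dvd_sub (ui1.mul_right _) (uj1.mul_right _)
      have fb : (p : ℤ) ∣ b * dt (v i) (v j) := by
        have : b * dt (v i) (v j) = (u j).1 * (v i).1 - (u i).1 * (v j).1 := by
          simp only [hu]; unfold dt; ring
        rw [this]; exact dvd_sub (uj1.mul_right _) (ui1.mul_right _)
      have fc : (p : ℤ) ∣ c * dt (v i) (v j) := by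
        have : c * dt (v i) (v j) = (u i).2 * (v j).2 - (u j).2 * (v i).2 := by
          simp only [hu]; unfold dt; ring
        rw [this]; exact dvd_sub (ui2.mul_right _) (uj2.mul_right _)
      have fd : (p : ℤ) ∣ d * dt (v i) (v j) := by
        have : d * dt (v i) (v j) = (u j).2 * (v i).1 - (u i).2 * (v j).1 := by
          simp only [hu]; unfold dt; ring
        rw [this]; exact dvd_sub (uj2.mul_right _) (ui2.mul_right _)
      by_contra hnd
      exact hprim p hp ⟨(hpi.dvd_or_dvd fa).resolve_right hnd,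
        (hpi.dvd_or_dvd fb).resolve_right hnd, (hpi.dvd_or_dvd fc).resolve_right hnd,
        (hpi.dvd_or_dvd fd).resolve_right hnd⟩
    have hout : ∀ i ∈ Sᶜ, ∀ j ∈ Sᶜ, (p : ℤ) ∣ dt (w i) (w j) := by
      intro i hi j hj
      rw [mem_compl, hS, mem_filter] at hi hj
      push Not at hi hj
      have h3 : (p : ℤ) ∣ q i * q j * dt (w i) (w j) := by
        rw [hdtu]; exact hpd'.mul_right _
      rcases hpi.dvd_or_dvd h3 with h4 | h4
      · rcases hpi.dvd_or_dvd h4 with h5 | h5
        · exact absurd h5 (hi (mem_univ _))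
        · exact absurd h5 (hj (mem_univ _))
      · exact h4
    have hcS : 2 * S.card < Fintype.card I := by
      rcases S.eq_empty_or_nonempty with h | ⟨i0, hi0⟩
      · rw [h]; simpa using hI
      · refine lt_of_le_of_lt ?_ (hsv p hp i0)
        have : S.card ≤ (univ.filter fun j => (p : ℤ) ∣ dt (v i0) (v j)).card :=
          card_le_card fun j hj => mem_filter.2 ⟨mem_univ _, hin i0 hi0 j hj⟩
        omega
    have hcT : 2 * (Sᶜ).card < Fintype.card I := by
      rcases (Sᶜ).eq_empty_or_nonempty with h | ⟨i0, hi0⟩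
      · rw [h]; simpa using hI
      · refine lt_of_le_of_lt ?_ (hsw p hp i0)
        have : (Sᶜ).card ≤ (univ.filter fun j => (p : ℤ) ∣ dt (w i0) (w j)).card :=
          card_le_card fun j hj => mem_filter.2 ⟨mem_univ _, hout i0 hi0 j hj⟩
        omega
    have h5 := card_add_card_compl S
    omega
  have hdet' : a * d - b * c = 1 ∨ a * d - b * c = -1 := Int.natAbs_eq_iff.1 hdet |>.imp id id
  refine ⟨a, b, c, d, hdet', q, ?_, ?_⟩
  · intro i
    -- q i divides both coordinates of v i
    obtain ⟨r, s, hrs⟩ := hcv i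
    have f1 : q i ∣ (a * d - b * c) * (v i).1 := by
      have : (a * d - b * c) * (v i).1 = d * (u i).1 - b * (u i).2 := by simp only [hu]; ring
      rw [this, hq1, hq2]
      exact dvd_sub ((Dvd.intro _ rfl).mul_left _) ((Dvd.intro _ rfl).mul_left _)
    have f2 : q i ∣ (a * d - b * c) * (v i).2 := by
      have : (a * d - b * c) * (v i).2 = a * (u i).2 - c * (u i).1 := by simp only [hu]; ring
      rw [this, hq1, hq2]
      exact dvd_sub ((Dvd.intro _ rfl).mul_left _) ((Dvd.intro _ rfl).mul_left _)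
    have f3 : q i ∣ (a * d - b * c) := by
      have : (a * d - b * c) = r * ((a * d - b * c) * (v i).1) + s * ((a * d - b * c) * (v i).2) := by
        calc (a * d - b * c) = (a * d - b * c) * (r * (v i).1 + s * (v i).2) := by rw [hrs, mul_one]
          _ = _ := by ring
      rw [this]
      exact dvd_add (f1.mul_left _) (f2.mul_left _)
    have f4 : IsUnit (q i) := isUnit_of_dvd_unit f3 (Int.isUnit_iff_natAbs_eq.2 hdet)
    exact Int.isUnit_iff.1 f4
  · intro i
    have hqq : q i * q i = 1 := by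
      have : q i = 1 ∨ q i = -1 := by
        obtain ⟨r, s, hrs⟩ := hcv i
        have f1 : q i ∣ (a * d - b * c) * (v i).1 := by
          have : (a * d - b * c) * (v i).1 = d * (u i).1 - b * (u i).2 := by simp only [hu]; ring
          rw [this, hq1, hq2]
          exact dvd_sub ((Dvd.intro _ rfl).mul_left _) ((Dvd.intro _ rfl).mul_left _)
        have f2 : q i ∣ (a * d - b * c) * (v i).2 := by
          have : (a * d - b * c) * (v i).2 = a * (u i).2 - c * (u i).1 := by simp only [hu]; ring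
          rw [this, hq1, hq2]
          exact dvd_sub ((Dvd.intro _ rfl).mul_left _) ((Dvd.intro _ rfl).mul_left _)
        have f3 : q i ∣ (a * d - b * c) := by
          have : (a * d - b * c) =
              r * ((a * d - b * c) * (v i).1) + s * ((a * d - b * c) * (v i).2) := by
            calc (a * d - b * c) = (a * d - b * c) * (r * (v i).1 + s * (v i).2) := by
                  rw [hrs, mul_one]
              _ = _ := by ring
          rw [this]
          exact dvd_add (f1.mul_left _) (f2.mul_left _)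
        exact Int.isUnit_iff.1 (isUnit_of_dvd_unit f3 (Int.isUnit_iff_natAbs_eq.2 hdet))
      rcases this with h | h <;> rw [h] <;> norm_num
    have g1 : q i * (u i).1 = (w i).1 := by rw [hq1, ← mul_assoc, hqq, one_mul]
    have g2 : q i * (u i).2 = (w i).2 := by rw [hq2, ← mul_assoc, hqq, one_mul]
    exact Prod.ext g1.symm g2.symm

end

end Pool.Agent.Y714.ML
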