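import Pool.Agent.Y714.ML.Bad
import Pool.Agent.Y714.ML.Uniq

set_option autoImplicit false
set_option linter.unusedSectionVars false
set_option linter.unusedSimpArgs false

/-! Good configurations are stable at all primes. -/

namespace Pool.Agent.Y714.ML

open Finset

theorem WW_ge (P N M : ℕ) (m ρ : ℕ × ℕ) (hm : m.1 = M ∨ m.2 = M) (z : ℕ × ℕ) :
    ((P * (M * N) : ℕ) : ℤ) ≤ (WW P N m ρ z).1 ∨ ((P * (M * N) : ℕ) : ℤ) ≤ (WW P N m ρ z).2 := by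
  rcases hm with h | h
  · left
    unfold WW
    simp only [h]
    push_cast
    have : (0 : ℤ) ≤ P * z.1 := by positivity
    have h2 : (0 : ℤ) ≤ ρ.1 := by positivity
    nlinarith
  · right
    unfold WW
    simp only [h]
    push_cast
    have : (0 : ℤ) ≤ P * z.2 := by positivity
    have h2 : (0 : ℤ) ≤ ρ.2 := by positivity
    nlinarith

theorem abs_dt_le (x y : ℤ × ℤ) (X Y : ℤ) (h1 : 0 ≤ x.1) (h2 : 0 ≤ x.2) (h3 : 0 ≤ y.1)
    (h4 : 0 ≤ y.2) (h5 : x.1 ≤ X) (h6 : x.2 ≤ X) (h7 : y.1 ≤ Y) (h8 : y.2 ≤ Y) :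
    |dt x y| ≤ X * Y := by
  unfold dt
  have hX : 0 ≤ X := h1.trans h5
  rw [abs_le]
  have e1 : 0 ≤ x.1 * y.2 := mul_nonneg h1 h4
  have e2 : 0 ≤ x.2 * y.1 := mul_nonneg h2 h3
  have e3 : x.1 * y.2 ≤ X * Y := mul_le_mul h5 h8 h4 hX
  have e4 : x.2 * y.1 ≤ X * Y := mul_le_mul h6 h7 h3 hX
  constructor <;> linarith

theorem coprime_dt_zero {x y : ℤ × ℤ} (hx : IsCoprime x.1 x.2) (hy : IsCoprime y.1 y.2)
    (h : dt x y = 0) : ∃ q : ℤ, (q = 1 ∨ q = -1) ∧ y.1 = q * x.1 ∧ y.2 = q * x.2 := by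
  obtain ⟨u, v, huv⟩ := hx
  have h' : x.1 * y.2 = x.2 * y.1 := by unfold dt at h; linarith
  have e1 : y.1 = (u * y.1 + v * y.2) * x.1 := by
    calc y.1 = (u * x.1 + v * x.2) * y.1 := by rw [huv, one_mul]
      _ = u * x.1 * y.1 + v * (x.2 * y.1) := by ring
      _ = u * x.1 * y.1 + v * (x.1 * y.2) := by rw [h']
      _ = _ := by ring
  have e2 : y.2 = (u * y.1 + v * y.2) * x.2 := by
    calc y.2 = (u * x.1 + v * x.2) * y.2 := by rw [huv, one_mul]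
      _ = u * (x.1 * y.2) + v * x.2 * y.2 := by ring
      _ = u * (x.2 * y.1) + v * x.2 * y.2 := by rw [h']
      _ = _ := by ring
  refine ⟨u * y.1 + v * y.2, ?_, e1, e2⟩
  obtain ⟨a, b, hab⟩ := hy
  apply Int.isUnit_iff.1
  refine isUnit_of_dvd_one ?_
  rw [← hab]
  refine dvd_add (Dvd.dvd.mul_left ?_ a) (Dvd.dvd.mul_left ?_ b)
  · exact ⟨x.1, e1⟩
  · exact ⟨x.2, e2⟩

theorem dvd_dt_trans {x y z : ℤ × ℤ} (hx : IsCoprime x.1 x.2) (p : ℤ) (h1 : p ∣ dt x y)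
    (h2 : p ∣ dt x z) : p ∣ dt y z := by
  obtain ⟨u, v, huv⟩ := hx
  have e1 : dt y z = u * (dt x z * y.1 - dt x y * z.1) + v * (dt x z * y.2 - dt x y * z.2) := by
    have e2 : dt x z * y.1 - dt x y * z.1 = x.1 * dt y z := by unfold dt; ring
    have e3 : dt x z * y.2 - dt x y * z.2 = x.2 * dt y z := by unfold dt; ring
    rw [e2, e3]
    calc dt y z = (u * x.1 + v * x.2) * dt y z := by rw [huv, one_mul]
      _ = _ := by ring
  rw [e1]
  exact dvd_add ((dvd_sub (h2.mul_right _) (h1.mul_right _)).mul_left _)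
    ((dvd_sub (h2.mul_right _) (h1.mul_right _)).mul_left _)

section

variable {I : Type} [Fintype I] [DecidableEq I]

theorem sort3 (rk : I → ℕ) (hrk : Function.Injective rk) (R : I → I → Prop)
    (hsymm : ∀ a b, R a b → R b a) (a b c : I) (hab : a ≠ b) (hac : a ≠ c) (hbc : b ≠ c)
    (h1 : R a b) (h2 : R a c) (h3 : R b c) :
    ∃ i j k, rk i < rk j ∧ rk j < rk k ∧ R i j ∧ R i k := by
  have n1 : rk a ≠ rk b := fun h => hab (hrk h)
  have n2 : rk a ≠ rk c := fun h => hac (hrk h)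
  have n3 : rk b ≠ rk c := fun h => hbc (hrk h)
  rcases lt_or_gt_of_ne n1 with m1 | m1 <;> rcases lt_or_gt_of_ne n2 with m2 | m2 <;>
    rcases lt_or_gt_of_ne n3 with m3 | m3
  · exact ⟨a, b, c, m1, m3, h1, h2⟩
  · exact ⟨a, c, b, m2, m3, h2, h1⟩
  · omega
  · exact ⟨c, a, b, m2, m1, hsymm _ _ h2, hsymm _ _ h3⟩
  · exact ⟨b, a, c, m1, m2, hsymm _ _ h1, h3⟩
  · omega
  · exact ⟨b, c, a, m3, m2, h3, hsymm _ _ h1⟩
  · exact ⟨c, b, a, m3, m1, hsymm _ _ h3, hsymm _ _ h2⟩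

/-- the size conditions -/
structure Siz (P0 P M : ℕ) (rk r : I → ℕ) (m ρ : I → ℕ × ℕ) : Prop where
  hP : P = P0.factorial
  hM : 2 ≤ M
  hrk : Function.Injective rk
  hρ : ∀ i, Res (ρ i)
  hm1 : ∀ i, (m i).1 ≤ M
  hm2 : ∀ i, (m i).2 ≤ M
  hm : ∀ i, (m i).1 = M ∨ (m i).2 = M
  h2 : ∀ i j, rk i < rk j → r i + 1 ≤ r j
  h3 : ∀ i j k, rk i < rk j → rk j < rk k →
    ((M + 1) * P * 2 ^ r i) * ((M + 1) * P * 2 ^ r j) ≤ 2 ^ r k
  hcl : ∀ i, 2 * (univ.filter fun j => ρ j = ρ i).card < Fintype.card I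
  hn : 5 ≤ Fintype.card I

variable {P0 P M : ℕ} {rk r : I → ℕ} {m ρ : I → ℕ × ℕ}

theorem Siz.Ppos (h : Siz P0 P M rk r m ρ) : 0 < P := by
  rw [h.hP]; exact Nat.factorial_pos _

theorem mem_bx {ω : I → ℕ × ℕ} (hω : ω ∈ bx r) (i : I) :
    ω i ∈ range (2 ^ r i) ×ˢ range (2 ^ r i) := Fintype.mem_piFinset.1 hω i

theorem Siz.abs_dt (h : Siz P0 P M rk r m ρ) {ω : I → ℕ × ℕ} (hω : ω ∈ bx r) (i j : I) :
    |dt (wv P r m ρ ω i) (wv P r m ρ ω j)| ≤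
      (((M + 1) * P * 2 ^ r i : ℕ) : ℤ) * (((M + 1) * P * 2 ^ r j : ℕ) : ℤ) := by
  have h1 := WW_le P (2 ^ r i) M h.Ppos (m i) (ρ i) (h.hρ i) (h.hm1 i) (h.hm2 i) (ω i) (mem_bx hω i)
  have h2 := WW_le P (2 ^ r j) M h.Ppos (m j) (ρ j) (h.hρ j) (h.hm1 j) (h.hm2 j) (ω j) (mem_bx hω j)
  have h3 := WW_nonneg P (2 ^ r i) (m i) (ρ i) (ω i)
  have h4 := WW_nonneg P (2 ^ r j) (m j) (ρ j) (ω j)
  exact abs_dt_le _ _ _ _ h3.1 h3.2 h4.1 h4.2 h1.1 h1.2 h2.1 h2.2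

theorem Siz.dt_ne (h : Siz P0 P M rk r m ρ) {ω : I → ℕ × ℕ} (hω : ω ∈ bx r)
    (hg : Good P0 P rk r m ρ ω) (i j : I) (hij : i ≠ j) :
    dt (wv P r m ρ ω i) (wv P r m ρ ω j) ≠ 0 := by
  have key : ∀ i j, rk i < rk j → dt (wv P r m ρ ω i) (wv P r m ρ ω j) ≠ 0 := by
    intro i j hlt h0
    obtain ⟨q, hq, h1, h2⟩ := coprime_dt_zero (hg.1 i) (hg.1 j) h0
    have e1 := WW_le P (2 ^ r i) M h.Ppos (m i) (ρ i) (h.hρ i) (h.hm1 i) (h.hm2 i) (ω i)
      (mem_bx hω i)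
    have e2 := WW_nonneg P (2 ^ r i) (m i) (ρ i) (ω i)
    have e3 := WW_nonneg P (2 ^ r j) (m j) (ρ j) (ω j)
    have e4 := WW_ge P (2 ^ r j) M (m j) (ρ j) (h.hm j) (ω j)
    have e5 : (M + 1) * P * 2 ^ r i < P * (M * 2 ^ r j) := by
      have f1 : 2 ^ (r i + 1) ≤ 2 ^ r j := Nat.pow_le_pow_right (by norm_num) (h.h2 i j hlt)
      have f2 : 0 < 2 ^ r i := by positivity
      have f3 := h.hM
      have f4 := h.Ppos
      have f5 : (M + 1) * 2 ^ r i < M * 2 ^ r j := by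
        rw [pow_succ] at f1
        have f6 : M * (2 ^ r i * 2) ≤ M * 2 ^ r j := Nat.mul_le_mul_left _ f1
        nlinarith
      calc (M + 1) * P * 2 ^ r i = P * ((M + 1) * 2 ^ r i) := by ring
        _ < P * (M * 2 ^ r j) := Nat.mul_lt_mul_of_pos_left f5 f4
    have e5' : (((M + 1) * P * 2 ^ r i : ℕ) : ℤ) < ((P * (M * 2 ^ r j) : ℕ) : ℤ) := by
      exact_mod_cast e5
    unfold wv at h1 h2
    rcases hq with hq | hq
    · rw [hq, one_mul] at h1 h2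
      rcases e4 with e4 | e4
      · linarith [e1.1]
      · linarith [e1.2]
    · rw [hq] at h1 h2
      have e6 : (0 : ℤ) ≤ (((M + 1) * P * 2 ^ r i : ℕ) : ℤ) := Nat.cast_nonneg _
      rcases e4 with e4 | e4
      · linarith [e1.1, e2.1]
      · linarith [e1.2, e2.2]
  have hne : rk i ≠ rk j := fun h' => hij (h.hrk h')
  rcases lt_or_gt_of_ne hne with h1 | h1
  · exact key i j h1
  · intro h0
    apply key j i h1
    rw [dt_comm, h0, neg_zero]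

theorem Siz.str (h : Siz P0 P M rk r m ρ) {ω : I → ℕ × ℕ} (hω : ω ∈ bx r)
    (hg : Good P0 P rk r m ρ ω) : Str (wv P r m ρ ω) := by
  intro p hp i
  by_cases hpP : P0 < p
  · -- large primes
    have h1 : (univ.filter fun j => (p : ℤ) ∣ dt (wv P r m ρ ω i) (wv P r m ρ ω j)).card ≤ 2 := by
      by_contra hc
      push Not at hc
      obtain ⟨a, ha, b, hb, c, hc', hab, hac, hbc⟩ := Finset.two_lt_card.1 hc
      rw [mem_filter] at ha hb hc'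
      have d1 := dvd_dt_trans (hg.1 i) p ha.2 hb.2
      have d2 := dvd_dt_trans (hg.1 i) p ha.2 hc'.2
      have d3 := dvd_dt_trans (hg.1 i) p hb.2 hc'.2
      obtain ⟨i', j', k', h1, h2, h3, h4⟩ := sort3 rk h.hrk
        (fun a b => (p : ℤ) ∣ dt (wv P r m ρ ω a) (wv P r m ρ ω b))
        (fun a b hab' => by rw [dt_comm]; exact dvd_neg.2 hab') a b c hab hac hbc d1 d2 d3
      refine hg.2 i' j' k' h1 h2 ⟨hg.1 i', p, hp, hpP, ?_, h3, h4⟩
      have h5 : i' ≠ j' := fun e => by rw [e] at h1; exact lt_irrefl _ h1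
      have h6 := h.dt_ne hω hg i' j' h5
      have h7 : (p : ℤ) ≤ |dt (wv P r m ρ ω i') (wv P r m ρ ω j')| :=
        Int.le_of_dvd (abs_pos.2 h6) ((dvd_abs _ _).2 h3)
      have h8 := h7.trans (h.abs_dt hω i' j')
      have h9 : p ≤ ((M + 1) * P * 2 ^ r i') * ((M + 1) * P * 2 ^ r j') := by exact_mod_cast h8
      exact h9.trans (h.h3 i' j' k' h1 h2)
    have := h.hn
    omega
  · -- small primes
    push Not at hpP
    refine lt_of_le_of_lt (Nat.mul_le_mul_left 2 (card_le_card ?_)) (h.hcl i)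
    intro j hj
    rw [mem_filter] at hj ⊢
    refine ⟨mem_univ _, ?_⟩
    have hpP' : (p : ℤ) ∣ (P : ℤ) := by
      rw [h.hP]; exact_mod_cast (Nat.dvd_factorial hp.pos hpP)
    have e1 : ∀ k, (p : ℤ) ∣ (wv P r m ρ ω k).1 - (ρ k).1 := by
      intro k
      have : (wv P r m ρ ω k).1 - (ρ k).1 = P * ((m k).1 * (2 ^ r k : ℕ) + (ω k).1) := by
        unfold wv WW; simp only; push_cast; ring
      rw [this]; exact hpP'.mul_right _
    have e2 : ∀ k, (p : ℤ) ∣ (wv P r m ρ ω k).2 - (ρ k).2 := by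
      intro k
      have : (wv P r m ρ ω k).2 - (ρ k).2 = P * ((m k).2 * (2 ^ r k : ℕ) + (ω k).2) := by
        unfold wv WW; simp only; push_cast; ring
      rw [this]; exact hpP'.mul_right _
    have e3 : (p : ℤ) ∣ ((ρ i).1 : ℤ) * (ρ j).2 - (ρ i).2 * (ρ j).1 := by
      have : ((ρ i).1 : ℤ) * (ρ j).2 - (ρ i).2 * (ρ j).1 = dt (wv P r m ρ ω i) (wv P r m ρ ω j) -
          (((wv P r m ρ ω i).1 - (ρ i).1) * (wv P r m ρ ω j).2 +
            (ρ i).1 * ((wv P r m ρ ω j).2 - (ρ j).2)) +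
          (((wv P r m ρ ω i).2 - (ρ i).2) * (wv P r m ρ ω j).1 +
            (ρ i).2 * ((wv P r m ρ ω j).1 - (ρ j).1)) := by
        unfold dt; ring
      rw [this]
      exact dvd_add (dvd_sub hj.2 (dvd_add ((e1 i).mul_right _) ((e2 j).mul_left _)))
        (dvd_add ((e2 i).mul_right _) ((e1 j).mul_left _))
    have hpi := Nat.prime_iff_prime_int.1 hp
    have n1 : ¬ (p : ℤ) ∣ 1 := hpi.not_dvd_one
    have n2 : ¬ (p : ℤ) ∣ -1 := by rw [dvd_neg]; exact n1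
    rcases h.hρ i with hi | hi | hi <;> rcases h.hρ j with hj' | hj' | hj' <;>
      rw [hi, hj'] at e3 ⊢ <;> norm_num at e3 <;> first | exact absurd e3 n1 | exact absurd e3 n2

end

end Pool.Agent.Y714.ML
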