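import Pool.Agent.Y714.ML.Cnt2

set_option autoImplicit false
set_option linter.unusedSectionVars false
set_option linter.unusedSimpArgs false

/-! Most configurations in a product of boxes are good. -/

namespace Pool.Agent.Y714.ML

open Finset

section

variable {I : Type} [Fintype I] [DecidableEq I]

theorem pi_prob (S : I → Finset (ℕ × ℕ)) (Q : I → ℕ × ℕ → Prop) [∀ i, DecidablePred (Q i)]
    (c : I → ℝ) (h : ∀ i, (((S i).filter (Q i)).card : ℝ) ≤ c i * (S i).card) :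
    (((Fintype.piFinset S).filter fun ω => ∀ i, Q i (ω i)).card : ℝ) ≤
      (∏ i, c i) * (Fintype.piFinset S).card := by
  have h1 : ((Fintype.piFinset S).filter fun ω => ∀ i, Q i (ω i)) =
      Fintype.piFinset fun i => (S i).filter (Q i) := by
    ext ω
    simp only [mem_filter, Fintype.mem_piFinset]
    exact forall_and.symm
  rw [h1, Fintype.card_piFinset, Fintype.card_piFinset]
  push_cast
  rw [← prod_mul_distrib]
  exact prod_le_prod (fun i _ => Nat.cast_nonneg _) fun i _ => h i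

theorem pi_prob1 (S : I → Finset (ℕ × ℕ)) (i : I) (Q : ℕ × ℕ → Prop) [DecidablePred Q] (c : ℝ)
    (h : (((S i).filter Q).card : ℝ) ≤ c * (S i).card) :
    (((Fintype.piFinset S).filter fun ω => Q (ω i)).card : ℝ) ≤
      c * (Fintype.piFinset S).card := by
  have h1 := pi_prob S (fun l z => l = i → Q z) (fun l => if l = i then c else 1) (by
    intro l
    by_cases hl : l = i
    · subst hl
      simpa using h
    · simp only [hl, false_imp_iff, filter_true, if_false, one_mul]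
      exact le_refl _)
  have h2 : ((Fintype.piFinset S).filter fun ω => ∀ l, l = i → Q (ω l)) =
      (Fintype.piFinset S).filter fun ω => Q (ω i) := by
    refine filter_congr fun ω _ => ?_
    constructor
    · intro h; exact h i rfl
    · rintro h l rfl; exact h
  rw [h2] at h1
  rwa [Fintype.prod_ite_eq'] at h1

theorem pi_prob3 (S : I → Finset (ℕ × ℕ)) (i j k : I) (hij : i ≠ j) (hik : i ≠ k) (hjk : j ≠ k)
    (Q1 Q2 Q3 : ℕ × ℕ → Prop) [DecidablePred Q1] [DecidablePred Q2] [DecidablePred Q3]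
    (c1 c2 c3 : ℝ)
    (h1 : (((S i).filter Q1).card : ℝ) ≤ c1 * (S i).card)
    (h2 : (((S j).filter Q2).card : ℝ) ≤ c2 * (S j).card)
    (h3 : (((S k).filter Q3).card : ℝ) ≤ c3 * (S k).card) :
    (((Fintype.piFinset S).filter fun ω => Q1 (ω i) ∧ Q2 (ω j) ∧ Q3 (ω k)).card : ℝ) ≤
      (c1 * c2 * c3) * (Fintype.piFinset S).card := by
  have h0 := pi_prob S (fun l z => (l = i → Q1 z) ∧ (l = j → Q2 z) ∧ (l = k → Q3 z))
    (fun l => (if l = i then c1 else 1) * (if l = j then c2 else 1) * (if l = k then c3 else 1)) (by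
    intro l
    by_cases hl : l = i
    · subst hl
      simpa [hij, hik] using h1
    · by_cases hl' : l = j
      · subst hl'
        simpa [hl, hjk] using h2
      · by_cases hl'' : l = k
        · subst hl''
          simpa [hl, hl'] using h3
        · simp [hl, hl', hl''])
  have h4 : ((Fintype.piFinset S).filter
      fun ω => ∀ l, (l = i → Q1 (ω l)) ∧ (l = j → Q2 (ω l)) ∧ (l = k → Q3 (ω l))) =
      (Fintype.piFinset S).filter fun ω => Q1 (ω i) ∧ Q2 (ω j) ∧ Q3 (ω k) := by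
    refine filter_congr fun ω _ => ?_
    constructor
    · intro h; exact ⟨(h i).1 rfl, (h j).2.1 rfl, (h k).2.2 rfl⟩
    · rintro ⟨g1, g2, g3⟩ l
      exact ⟨fun e => by subst e; exact g1, fun e => by subst e; exact g2,
        fun e => by subst e; exact g3⟩
  rw [h4, prod_mul_distrib, prod_mul_distrib, Fintype.prod_ite_eq', Fintype.prod_ite_eq',
    Fintype.prod_ite_eq'] at h0
  exact h0

/-- the product of the boxes -/
def bx (r : I → ℕ) : Finset (I → ℕ × ℕ) :=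
  Fintype.piFinset fun i => range (2 ^ r i) ×ˢ range (2 ^ r i)

theorem card_bx (r : I → ℕ) : (bx r).card = 4 ^ ∑ i, r i := by
  unfold bx
  rw [Fintype.card_piFinset]
  simp only [card_product, card_range]
  rw [← prod_pow_eq_pow_sum]
  refine prod_congr rfl fun i _ => ?_
  rw [← mul_pow]
  norm_num

/-- the configuration of a point of the product of the boxes -/
def wv (P : ℕ) (r : I → ℕ) (m ρ : I → ℕ × ℕ) (ω : I → ℕ × ℕ) (i : I) : ℤ × ℤ :=
  WW P (2 ^ r i) (m i) (ρ i) (ω i)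

/-- a bad triple -/
def BadT (P0 P : ℕ) (r : I → ℕ) (m ρ : I → ℕ × ℕ) (i j k : I) (ω : I → ℕ × ℕ) : Prop :=
  IsCoprime (wv P r m ρ ω i).1 (wv P r m ρ ω i).2 ∧ ∃ p : ℕ, p.Prime ∧ P0 < p ∧ p ≤ 2 ^ r k ∧
    (p : ℤ) ∣ dt (wv P r m ρ ω i) (wv P r m ρ ω j) ∧ (p : ℤ) ∣ dt (wv P r m ρ ω i) (wv P r m ρ ω k)

open Classical in
theorem card_badT (P0 P K : ℕ) (hP0 : 0 < P0) (hP : P = P0.factorial) (r : I → ℕ)
    (m ρ : I → ℕ × ℕ) (i j k : I) (hij : i ≠ j) (hik : i ≠ k) (hjk : j ≠ k)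
    (hK : r k ≤ K) (hbig : (K + 1) * P0 ≤ 2 ^ r j) :
    (((bx r).filter (BadT P0 P r m ρ i j k)).card : ℝ) ≤ 4 / P0 * (bx r).card := by
  set S : I → Finset (ℕ × ℕ) := fun i => range (2 ^ r i) ×ˢ range (2 ^ r i) with hS
  have hSc : ∀ i, ((S i).card : ℝ) = ((2 ^ r i : ℕ) : ℝ) ^ 2 := by
    intro i
    simp only [hS, card_product, card_range]
    push_cast
    ring
  have hSpos : ∀ i, (0 : ℝ) < (S i).card := by
    intro i
    rw [hSc]
    positivity
  have hbx : bx r = Fintype.piFinset S := rfl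
  set A : Finset (ℕ × ℕ) := (S i).filter fun a =>
    IsCoprime (WW P (2 ^ r i) (m i) (ρ i) a).1 (WW P (2 ^ r i) (m i) (ρ i) a).2 with hA
  set R : Finset ℕ := (Ioc P0 (2 ^ r k)).filter Nat.Prime with hR
  set E : ℕ × ℕ → ℕ → Finset (I → ℕ × ℕ) := fun a p => (Fintype.piFinset S).filter fun ω =>
    ω i = a ∧ (p : ℤ) ∣ dt (WW P (2 ^ r i) (m i) (ρ i) a) (WW P (2 ^ r j) (m j) (ρ j) (ω j)) ∧
      (p : ℤ) ∣ dt (WW P (2 ^ r i) (m i) (ρ i) a) (WW P (2 ^ r k) (m k) (ρ k) (ω k)) with hE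
  have hsub : (bx r).filter (BadT P0 P r m ρ i j k) ⊆ A.biUnion fun a => R.biUnion fun p => E a p := by
    intro ω hω
    rw [mem_filter] at hω
    obtain ⟨h1, h2, p, hp, hp1, hp2, hp3, hp4⟩ := hω
    rw [mem_biUnion]
    refine ⟨ω i, mem_filter.2 ⟨Fintype.mem_piFinset.1 h1 i, h2⟩, ?_⟩
    rw [mem_biUnion]
    exact ⟨p, mem_filter.2 ⟨mem_Ioc.2 ⟨hp1, hp2⟩, hp⟩, mem_filter.2 ⟨h1, rfl, hp3, hp4⟩⟩
  have hcard : ((bx r).filter (BadT P0 P r m ρ i j k)).card ≤ ∑ a ∈ A, ∑ p ∈ R, (E a p).card := by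
    refine (card_le_card hsub).trans (card_biUnion_le.trans ?_)
    exact sum_le_sum fun a _ => card_biUnion_le
  have hEle : ∀ a ∈ A, ∀ p ∈ R, ((E a p).card : ℝ) ≤ ((1 / (S i).card) * (1 / (p : ℝ) + 1 / (2 ^ r j : ℕ)) *
      (1 / (p : ℝ) + 1 / (2 ^ r k : ℕ))) * (Fintype.piFinset S).card := by
    intro a ha p hp
    rw [hA, mem_filter] at ha
    rw [hR, mem_filter, mem_Ioc] at hp
    refine pi_prob3 S i j k hij hik hjk (fun z => z = a)
      (fun z => (p : ℤ) ∣ dt (WW P (2 ^ r i) (m i) (ρ i) a) (WW P (2 ^ r j) (m j) (ρ j) z))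
      (fun z => (p : ℤ) ∣ dt (WW P (2 ^ r i) (m i) (ρ i) a) (WW P (2 ^ r k) (m k) (ρ k) z))
      _ _ _ ?_ ?_ ?_
    · rw [filter_eq', if_pos ha.1, card_singleton, Nat.cast_one, one_div,
        inv_mul_cancel₀ (hSpos i).ne']
    · rw [hSc]
      exact dt_count P0 P _ hP (m j) (ρ j) _ ha.2 p hp.2 hp.1.1
    · rw [hSc]
      exact dt_count P0 P _ hP (m k) (ρ k) _ ha.2 p hp.2 hp.1.1
  have h1 : (((bx r).filter (BadT P0 P r m ρ i j k)).card : ℝ) ≤ ∑ a ∈ A, ∑ p ∈ R,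
      ((1 / ((S i).card : ℝ)) * (1 / (p : ℝ) + 1 / (2 ^ r j : ℕ)) *
      (1 / (p : ℝ) + 1 / (2 ^ r k : ℕ))) * (Fintype.piFinset S).card := by
    have h2 : (((bx r).filter (BadT P0 P r m ρ i j k)).card : ℝ) ≤
        ((∑ a ∈ A, ∑ p ∈ R, (E a p).card : ℕ) : ℝ) := by exact_mod_cast hcard
    refine h2.trans ?_
    rw [Nat.cast_sum]
    refine sum_le_sum fun a ha => ?_
    rw [Nat.cast_sum]
    exact sum_le_sum fun p hp => hEle a ha p hp
  have h2 : ∑ a ∈ A, ∑ p ∈ R, ((1 / ((S i).card : ℝ)) * (1 / (p : ℝ) + 1 / (2 ^ r j : ℕ)) *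
      (1 / (p : ℝ) + 1 / (2 ^ r k : ℕ))) * (Fintype.piFinset S).card =
      (A.card / (S i).card) * (∑ p ∈ R, (1 / (p : ℝ) + 1 / (2 ^ r j : ℕ)) *
      (1 / (p : ℝ) + 1 / (2 ^ r k : ℕ))) * (Fintype.piFinset S).card := by
    rw [sum_const, nsmul_eq_mul, mul_sum, mul_sum, sum_mul]
    refine sum_congr rfl fun p _ => ?_
    ring
  have h3 : (A.card : ℝ) / (S i).card ≤ 1 := by
    rw [div_le_one (hSpos i)]
    exact_mod_cast card_le_card (filter_subset _ _)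
  have h4 : ∑ p ∈ R, (1 / (p : ℝ) + 1 / (2 ^ r j : ℕ)) * (1 / (p : ℝ) + 1 / (2 ^ r k : ℕ)) ≤
      4 / P0 := by
    refine le_trans ?_ (sum_pairs P0 (2 ^ r j) (r k) K hP0 (by positivity) hK hbig)
    exact sum_le_sum_of_subset_of_nonneg (filter_subset _ _) fun p _ _ => by positivity
  have h5 : (0 : ℝ) ≤ ∑ p ∈ R, (1 / (p : ℝ) + 1 / (2 ^ r j : ℕ)) * (1 / (p : ℝ) + 1 / (2 ^ r k : ℕ)) :=
    sum_nonneg fun p _ => by positivity
  rw [hbx] at h1 ⊢
  refine h1.trans (h2.le.trans ?_)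
  refine mul_le_mul_of_nonneg_right ?_ (Nat.cast_nonneg _)
  calc _ ≤ 1 * ∑ p ∈ R, (1 / (p : ℝ) + 1 / (2 ^ r j : ℕ)) * (1 / (p : ℝ) + 1 / (2 ^ r k : ℕ)) :=
        mul_le_mul_of_nonneg_right h3 h5
    _ ≤ 4 / P0 := by rw [one_mul]; exact h4

/-- the good configurations -/
def Good (P0 P : ℕ) (rk : I → ℕ) (r : I → ℕ) (m ρ : I → ℕ × ℕ) (ω : I → ℕ × ℕ) : Prop :=
  (∀ i, IsCoprime (wv P r m ρ ω i).1 (wv P r m ρ ω i).2) ∧
  ∀ i j k, rk i < rk j → rk j < rk k → ¬ BadT P0 P r m ρ i j k ω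

open Classical in
theorem card_good (P0 P M K : ℕ) (hP0 : 0 < P0) (hP : P = P0.factorial) (hM : 0 < M)
    (rk r : I → ℕ) (m ρ : I → ℕ × ℕ) (hρ : ∀ i, Res (ρ i)) (hm1 : ∀ i, (m i).1 ≤ M)
    (hm2 : ∀ i, (m i).2 ≤ M) (hm : ∀ i, (m i).1 = M ∨ (m i).2 = M)
    (hK : ∀ i, r i ≤ K) (hbig : ∀ i, (K + 1) * P0 ≤ 2 ^ r i)
    (hbig' : ∀ i, 2 * ((M + 1) * P * P0) ≤ 2 ^ r i)
    (hP0n : 6 * Fintype.card I + 8 * Fintype.card I ^ 3 ≤ P0) :
    ((bx r).card : ℝ) / 2 ≤ ((bx r).filter (Good P0 P rk r m ρ)).card := by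
  have hP0r : (0 : ℝ) < P0 := by exact_mod_cast hP0
  set B1 : I → Finset (I → ℕ × ℕ) := fun i => (bx r).filter fun ω =>
    ¬ IsCoprime (wv P r m ρ ω i).1 (wv P r m ρ ω i).2 with hB1
  set T : Finset (I × I × I) := univ.filter fun q => rk q.1 < rk q.2.1 ∧ rk q.2.1 < rk q.2.2 with hT
  set B3 : I × I × I → Finset (I → ℕ × ℕ) := fun q =>
    (bx r).filter (BadT P0 P r m ρ q.1 q.2.1 q.2.2) with hB3
  have hsub : (bx r) ⊆ (bx r).filter (Good P0 P rk r m ρ) ∪ (univ.biUnion B1 ∪ T.biUnion B3) := by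
    intro ω hω
    by_cases h1 : ∀ i, IsCoprime (wv P r m ρ ω i).1 (wv P r m ρ ω i).2
    · by_cases h2 : ∀ i j k, rk i < rk j → rk j < rk k → ¬ BadT P0 P r m ρ i j k ω
      · exact mem_union_left _ (mem_filter.2 ⟨hω, h1, h2⟩)
      · push Not at h2
        obtain ⟨i, j, k, h3, h4, h5⟩ := h2
        refine mem_union_right _ (mem_union_right _ (mem_biUnion.2 ⟨(i, j, k), ?_, ?_⟩))
        · exact mem_filter.2 ⟨mem_univ _, h3, h4⟩
        · exact mem_filter.2 ⟨hω, h5⟩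
    · push Not at h1
      obtain ⟨i, h1⟩ := h1
      exact mem_union_right _ (mem_union_left _ (mem_biUnion.2 ⟨i, mem_univ _,
        mem_filter.2 ⟨hω, h1⟩⟩))
  have h1 : ∀ i, ((B1 i).card : ℝ) ≤ 3 / P0 * (bx r).card := by
    intro i
    refine pi_prob1 (fun i => range (2 ^ r i) ×ˢ range (2 ^ r i)) i
      (fun z => ¬ IsCoprime (WW P (2 ^ r i) (m i) (ρ i) z).1 (WW P (2 ^ r i) (m i) (ρ i) z).2)
      (3 / P0) ?_
    have h2 := noncop_count P0 P (2 ^ r i) M hP0 hP (by positivity) hM (m i) (ρ i) (hρ i) (hm1 i)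
      (hm2 i) (hm i) (hbig' i)
    refine h2.trans (le_of_eq ?_)
    rw [card_product, card_range]
    push_cast
    ring
  have h3 : ∀ q ∈ T, ((B3 q).card : ℝ) ≤ 4 / P0 * (bx r).card := by
    intro q hq
    rw [hT, mem_filter] at hq
    obtain ⟨-, hq1, hq2⟩ := hq
    have e1 : q.1 ≠ q.2.1 := fun h => by rw [h] at hq1; exact lt_irrefl _ hq1
    have e2 : q.2.1 ≠ q.2.2 := fun h => by rw [h] at hq2; exact lt_irrefl _ hq2
    have e3 : q.1 ≠ q.2.2 := fun h => by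
      rw [← h] at hq2; exact lt_irrefl _ (hq1.trans hq2)
    exact card_badT P0 P K hP0 hP r m ρ q.1 q.2.1 q.2.2 e1 e3 e2 (hK _) (hbig _)
  have h4 : ((bx r).card : ℝ) ≤ ((bx r).filter (Good P0 P rk r m ρ)).card +
      (∑ i, ((B1 i).card : ℝ) + ∑ q ∈ T, ((B3 q).card : ℝ)) := by
    have e1 : (bx r).card ≤ ((bx r).filter (Good P0 P rk r m ρ)).card +
        (∑ i, (B1 i).card + ∑ q ∈ T, (B3 q).card) := by
      refine (card_le_card hsub).trans ((card_union_le _ _).trans ?_)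
      refine Nat.add_le_add_left ((card_union_le _ _).trans ?_) _
      exact Nat.add_le_add card_biUnion_le card_biUnion_le
    exact_mod_cast e1
  have h5 : ∑ i, ((B1 i).card : ℝ) ≤ Fintype.card I * (3 / P0 * (bx r).card) := by
    refine (sum_le_sum fun i _ => h1 i).trans ?_
    rw [sum_const, nsmul_eq_mul, Finset.card_univ]
  have h6 : ∑ q ∈ T, ((B3 q).card : ℝ) ≤ (Fintype.card I : ℝ) ^ 3 * (4 / P0 * (bx r).card) := by
    refine (sum_le_sum h3).trans ?_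
    rw [sum_const, nsmul_eq_mul]
    refine mul_le_mul_of_nonneg_right ?_ (by positivity)
    have e1 : T.card ≤ Fintype.card I ^ 3 := by
      refine (card_le_univ T).trans (le_of_eq ?_)
      rw [Fintype.card_prod, Fintype.card_prod]; ring
    exact_mod_cast e1
  have h7 : (Fintype.card I : ℝ) * (3 / P0 * (bx r).card) +
      (Fintype.card I : ℝ) ^ 3 * (4 / P0 * (bx r).card) ≤ (bx r).card / 2 := by
    have e1 : ((6 * Fintype.card I + 8 * Fintype.card I ^ 3 : ℕ) : ℝ) ≤ P0 := by exact_mod_cast hP0n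
    push_cast at e1
    have e2 : (Fintype.card I : ℝ) * (3 / P0 * (bx r).card) +
      (Fintype.card I : ℝ) ^ 3 * (4 / P0 * (bx r).card) =
      ((6 * Fintype.card I + 8 * Fintype.card I ^ 3) / P0) * ((bx r).card / 2) := by
      field_simp
      ring
    rw [e2]
    have e3 : (6 * (Fintype.card I : ℝ) + 8 * Fintype.card I ^ 3) / P0 ≤ 1 := by
      rw [div_le_one hP0r]; exact e1
    have e4 : (0 : ℝ) ≤ (bx r).card / 2 := by positivity
    nlinarith
  linarith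

end

end Pool.Agent.Y714.ML
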