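import Pool.Agent.Y714.ML.Semi

set_option autoImplicit false
set_option linter.unusedSectionVars false
set_option linter.unusedSimpArgs false

/-! Counting in boxes. -/

namespace Pool.Agent.Y714.ML

open Finset

theorem count_dvd (p N : ℕ) (hp : p.Prime) (β δ : ℤ) (hβ : ¬ (p : ℤ) ∣ β) :
    ((range N).filter fun y : ℕ => (p : ℤ) ∣ β * y + δ).card ≤ N / p + 1 := by
  have h1 : ((range N).filter fun y : ℕ => (p : ℤ) ∣ β * y + δ).card ≤ (range (N / p + 1)).card := by
    refine card_le_card_of_injOn (fun y => y / p) ?_ ?_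
    · intro y hy
      have hy' := mem_filter.1 (Finset.mem_coe.1 hy)
      have h2 := mem_range.1 hy'.1
      refine Finset.mem_coe.2 (mem_range.2 ?_)
      have := Nat.div_le_div_right (c := p) h2.le
      exact Nat.lt_succ_of_le this
    · intro y hy y' hy' heq
      have h1 := (mem_filter.1 (Finset.mem_coe.1 hy)).2
      have h2 := (mem_filter.1 (Finset.mem_coe.1 hy')).2
      have h3 : (p : ℤ) ∣ β * ((y : ℤ) - y') := by
        have h4 := dvd_sub h1 h2
        have h5 : β * (y : ℤ) + δ - (β * y' + δ) = β * ((y : ℤ) - y') := by ring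
        rwa [h5] at h4
      have h4 : (p : ℤ) ∣ (y : ℤ) - y' :=
        ((Nat.prime_iff_prime_int.1 hp).dvd_or_dvd h3).resolve_left hβ
      have h6 : (y : ℤ) % p = (y' : ℤ) % p := (Int.modEq_iff_dvd.2 h4).symm
      have h7 : y % p = y' % p := by exact_mod_cast h6
      have h8 := Nat.div_add_mod y p
      have h9 := Nat.div_add_mod y' p
      simp only at heq
      rw [heq, h7] at h8
      omega
  rwa [card_range] at h1

theorem lin_count (p N : ℕ) (hp : p.Prime) (α β δ : ℤ) (h : ¬ ((p : ℤ) ∣ α ∧ (p : ℤ) ∣ β)) :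
    ((range N ×ˢ range N).filter fun z : ℕ × ℕ => (p : ℤ) ∣ α * z.1 + β * z.2 + δ).card ≤
      N * (N / p + 1) := by
  by_cases hβ : (p : ℤ) ∣ β
  · have hα : ¬ (p : ℤ) ∣ α := fun h' => h ⟨h', hβ⟩
    have h1 : ((range N ×ˢ range N).filter fun z : ℕ × ℕ => (p : ℤ) ∣ α * z.1 + β * z.2 + δ).card =
        ∑ y ∈ range N, (((range N ×ˢ range N).filter
          fun z : ℕ × ℕ => (p : ℤ) ∣ α * z.1 + β * z.2 + δ).filter fun z => z.2 = y).card :=
      card_eq_sum_card_fiberwise fun z hz =>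
        Finset.mem_coe.2 (mem_product.1 (mem_filter.1 (Finset.mem_coe.1 hz)).1).2
    rw [h1]
    have h2 : ∀ y ∈ range N, (((range N ×ˢ range N).filter
          fun z : ℕ × ℕ => (p : ℤ) ∣ α * z.1 + β * z.2 + δ).filter fun z => z.2 = y).card ≤
          N / p + 1 := by
      intro y _
      refine le_trans ?_ (count_dvd p N hp α (β * y + δ) hα)
      refine card_le_card_of_injOn (fun z => z.1) ?_ ?_
      · intro z hz
        have hz' := mem_filter.1 (Finset.mem_coe.1 hz)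
        have hz'' := mem_filter.1 hz'.1
        refine Finset.mem_coe.2 (mem_filter.2 ⟨(mem_product.1 hz''.1).1, ?_⟩)
        have h3 := hz''.2
        rw [hz'.2, add_assoc] at h3
        exact h3
      · intro z hz z' hz' heq
        have e1 := (mem_filter.1 (Finset.mem_coe.1 hz)).2
        have e2 := (mem_filter.1 (Finset.mem_coe.1 hz')).2
        exact Prod.ext heq (e1.trans e2.symm)
    refine (sum_le_sum h2).trans ?_
    rw [sum_const, card_range, smul_eq_mul]
  · have h1 : ((range N ×ˢ range N).filter fun z : ℕ × ℕ => (p : ℤ) ∣ α * z.1 + β * z.2 + δ).card =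
        ∑ y ∈ range N, (((range N ×ˢ range N).filter
          fun z : ℕ × ℕ => (p : ℤ) ∣ α * z.1 + β * z.2 + δ).filter fun z => z.1 = y).card :=
      card_eq_sum_card_fiberwise fun z hz =>
        Finset.mem_coe.2 (mem_product.1 (mem_filter.1 (Finset.mem_coe.1 hz)).1).1
    rw [h1]
    have h2 : ∀ y ∈ range N, (((range N ×ˢ range N).filter
          fun z : ℕ × ℕ => (p : ℤ) ∣ α * z.1 + β * z.2 + δ).filter fun z => z.1 = y).card ≤
          N / p + 1 := by
      intro y _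
      refine le_trans ?_ (count_dvd p N hp β (α * y + δ) hβ)
      refine card_le_card_of_injOn (fun z => z.2) ?_ ?_
      · intro z hz
        have hz' := mem_filter.1 (Finset.mem_coe.1 hz)
        have hz'' := mem_filter.1 hz'.1
        refine Finset.mem_coe.2 (mem_filter.2 ⟨(mem_product.1 hz''.1).2, ?_⟩)
        have h3 := hz''.2
        rw [hz'.2] at h3
        have h4 : α * (y : ℤ) + β * z.2 + δ = β * z.2 + (α * y + δ) := by ring
        rwa [h4] at h3
      · intro z hz z' hz' heq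
        have e1 := (mem_filter.1 (Finset.mem_coe.1 hz)).2
        have e2 := (mem_filter.1 (Finset.mem_coe.1 hz')).2
        exact Prod.ext (e1.trans e2.symm) heq
    refine (sum_le_sum h2).trans ?_
    rw [sum_const, card_range, smul_eq_mul]

theorem both_count (p N : ℕ) (hp : p.Prime) (β δ γ : ℤ) (hβ : ¬ (p : ℤ) ∣ β) :
    ((range N ×ˢ range N).filter fun z : ℕ × ℕ =>
      (p : ℤ) ∣ β * z.1 + δ ∧ (p : ℤ) ∣ β * z.2 + γ).card ≤ (N / p + 1) * (N / p + 1) := by
  have h1 : ((range N ×ˢ range N).filter fun z : ℕ × ℕ =>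
      (p : ℤ) ∣ β * z.1 + δ ∧ (p : ℤ) ∣ β * z.2 + γ) =
      ((range N).filter fun y : ℕ => (p : ℤ) ∣ β * y + δ) ×ˢ
        ((range N).filter fun y : ℕ => (p : ℤ) ∣ β * y + γ) := by
    ext z
    simp only [mem_filter, mem_product]
    tauto
  rw [h1, card_product]
  exact Nat.mul_le_mul (count_dvd p N hp β δ hβ) (count_dvd p N hp β γ hβ)

/-- the vector of a point of the box -/
def WW (P N : ℕ) (m ρ : ℕ × ℕ) (z : ℕ × ℕ) : ℤ × ℤ :=
  (P * (m.1 * N + z.1) + ρ.1, P * (m.2 * N + z.2) + ρ.2)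

/-- admissible residues -/
def Res (ρ : ℕ × ℕ) : Prop := ρ = (1, 0) ∨ ρ = (0, 1) ∨ ρ = (1, 1)

theorem WW_nonneg (P N : ℕ) (m ρ : ℕ × ℕ) (z : ℕ × ℕ) :
    0 ≤ (WW P N m ρ z).1 ∧ 0 ≤ (WW P N m ρ z).2 := by
  unfold WW
  constructor <;> positivity

theorem WW_le (P N M : ℕ) (hP : 0 < P) (m ρ : ℕ × ℕ) (hρ : Res ρ) (hm1 : m.1 ≤ M) (hm2 : m.2 ≤ M)
    (z : ℕ × ℕ) (hz : z ∈ range N ×ˢ range N) :
    (WW P N m ρ z).1 ≤ ((M + 1) * P * N : ℕ) ∧ (WW P N m ρ z).2 ≤ ((M + 1) * P * N : ℕ) := by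
  have hz' := mem_product.1 hz
  have h1 := mem_range.1 hz'.1
  have h2 := mem_range.1 hz'.2
  have h3 : ρ.1 ≤ 1 ∧ ρ.2 ≤ 1 := by
    rcases hρ with h | h | h <;> rw [h] <;> norm_num
  unfold WW
  have key : ∀ a x ρ' : ℕ, a ≤ M → x < N → ρ' ≤ 1 → P * (a * N + x) + ρ' ≤ (M + 1) * P * N := by
    intro a x ρ' ha hx hρ'
    have e1 : a * N ≤ M * N := Nat.mul_le_mul_right _ ha
    have e2 : P * (a * N + x + 1) ≤ P * (M * N + N) := Nat.mul_le_mul_left _ (by omega)
    nlinarith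
  have k1 := key m.1 z.1 ρ.1 hm1 h1 h3.1
  have k2 := key m.2 z.2 ρ.2 hm2 h2 h3.2
  constructor
  · change ((P : ℤ) * (m.1 * N + z.1) + ρ.1) ≤ _
    exact_mod_cast k1
  · change ((P : ℤ) * (m.2 * N + z.2) + ρ.2) ≤ _
    exact_mod_cast k2

theorem not_dvd_small (P0 P N : ℕ) (hP : P = P0.factorial) (m ρ : ℕ × ℕ) (hρ : Res ρ) (z : ℕ × ℕ)
    (p : ℕ) (hp : p.Prime) (h1 : (p : ℤ) ∣ (WW P N m ρ z).1) (h2 : (p : ℤ) ∣ (WW P N m ρ z).2) :
    P0 < p := by
  by_contra hle
  push Not at hle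
  have hpP : (p : ℤ) ∣ (P : ℤ) := by
    rw [hP]; exact_mod_cast (Nat.dvd_factorial hp.pos hle)
  unfold WW at h1 h2
  simp only at h1 h2
  have h3 : (p : ℤ) ∣ (ρ.1 : ℤ) := (Int.dvd_add_right (hpP.mul_right _)).1 h1
  have h4 : (p : ℤ) ∣ (ρ.2 : ℤ) := (Int.dvd_add_right (hpP.mul_right _)).1 h2
  have h5 : ¬ (p : ℤ) ∣ (1 : ℤ) := fun h => hp.one_lt.ne' (by
    have := Int.natAbs_dvd_natAbs.2 h
    simpa using this)
  rcases hρ with h | h | h
  · rw [h] at h3; exact h5 (by exact_mod_cast h3)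
  · rw [h] at h4; exact h5 (by exact_mod_cast h4)
  · rw [h] at h4; exact h5 (by exact_mod_cast h4)

end Pool.Agent.Y714.ML
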