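import Pool.Agent.Y714.ML.Cnt

set_option autoImplicit false
set_option linter.unusedSectionVars false
set_option linter.unusedSimpArgs false

/-! Counting in boxes: sums over primes. -/

namespace Pool.Agent.Y714.ML

open Finset

theorem sum_inv_sq (a X : ℕ) (ha : 0 < a) : ∑ p ∈ Ioc a X, (1 : ℝ) / (p : ℝ) ^ 2 ≤ 1 / a := by
  by_cases h : a ≤ X
  · have h1 := sum_Ioc_inv_sq_le_sub (α := ℝ) (k := a) (n := X) ha.ne' h
    have h2 : (0 : ℝ) ≤ (X : ℝ)⁻¹ := by positivity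
    simp only [one_div]
    linarith
  · rw [Ioc_eq_empty (by omega), sum_empty]
    positivity

theorem sum_inv_le (a r : ℕ) : ∑ p ∈ Ioc a (2 ^ r), (1 : ℝ) / (p : ℝ) ≤ 1 + r := by
  have h1 : ∑ p ∈ Ioc a (2 ^ r), (1 : ℝ) / (p : ℝ) ≤
      ∑ p ∈ (Icc 1 (2 ^ r) : Finset ℕ), (1 : ℝ) / (p : ℝ) := by
    refine sum_le_sum_of_subset_of_nonneg ?_ fun i _ _ => by positivity
    intro p hp
    rw [mem_Ioc] at hp
    rw [mem_Icc]
    omega
  have h2 := harmonic_le_one_add_log (2 ^ r)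
  rw [harmonic_eq_sum_Icc] at h2
  push_cast at h2
  have h3 : Real.log ((2 : ℝ) ^ r) ≤ r := by
    rw [Real.log_pow]
    have h4 : Real.log 2 ≤ 1 := by
      have := Real.log_two_lt_d9
      linarith
    have h5 : (0 : ℝ) ≤ r := Nat.cast_nonneg r
    nlinarith
  simp only [one_div] at h1 ⊢
  linarith

theorem exists_prime_of_not_coprime (a b : ℤ) (h : ¬ IsCoprime a b) :
    ∃ p : ℕ, p.Prime ∧ (p : ℤ) ∣ a ∧ (p : ℤ) ∣ b := by
  have h1 : Int.gcd a b ≠ 1 := fun h' => h (Int.isCoprime_iff_gcd_eq_one.2 h')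
  obtain ⟨p, hp, hpg⟩ := Nat.exists_prime_and_dvd h1
  have h2 : (p : ℤ) ∣ (Int.gcd a b : ℤ) := by exact_mod_cast hpg
  exact ⟨p, hp, h2.trans (Int.gcd_dvd_left a b), h2.trans (Int.gcd_dvd_right a b)⟩

theorem dvd_le {p : ℕ} {a : ℤ} {X : ℕ} (h : (p : ℤ) ∣ a) (ha : a ≠ 0) (h0 : 0 ≤ a) (hX : a ≤ X) :
    p ≤ X := by
  have h1 : (p : ℤ) ≤ a := Int.le_of_dvd (lt_of_le_of_ne h0 ha.symm) h
  exact_mod_cast h1.trans hX

theorem noncop_count (P0 P N M : ℕ) (hP0 : 0 < P0) (hP : P = P0.factorial) (hN : 0 < N) (hM : 0 < M)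
    (m ρ : ℕ × ℕ) (hρ : Res ρ) (hm1 : m.1 ≤ M) (hm2 : m.2 ≤ M) (hm : m.1 = M ∨ m.2 = M)
    (hbig : 2 * ((M + 1) * P * P0) ≤ N) :
    (((range N ×ˢ range N).filter fun z : ℕ × ℕ =>
      ¬ IsCoprime (WW P N m ρ z).1 (WW P N m ρ z).2).card : ℝ) ≤ 3 / P0 * (N : ℝ) ^ 2 := by
  classical
  have hPp : 0 < P := by rw [hP]; exact Nat.factorial_pos _
  set X := (M + 1) * P * N with hX
  have hsub : ((range N ×ˢ range N).filter fun z : ℕ × ℕ =>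
      ¬ IsCoprime (WW P N m ρ z).1 (WW P N m ρ z).2) ⊆
      ((Ioc P0 X).filter Nat.Prime).biUnion fun p => (range N ×ˢ range N).filter fun z : ℕ × ℕ =>
        (p : ℤ) ∣ (P : ℤ) * z.1 + (P * (m.1 * N) + ρ.1 : ℤ) ∧
        (p : ℤ) ∣ (P : ℤ) * z.2 + (P * (m.2 * N) + ρ.2 : ℤ) := by
    intro z hz
    rw [mem_filter] at hz
    obtain ⟨p, hp, h1, h2⟩ := exists_prime_of_not_coprime _ _ hz.2
    have hle := WW_le P N M hPp m ρ hρ hm1 hm2 z hz.1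
    have hnn := WW_nonneg P N m ρ z
    have hpP0 := not_dvd_small P0 P N hP m ρ hρ z p hp h1 h2
    have hpX : p ≤ X := by
      rcases hm with h | h
      · refine dvd_le h1 ?_ hnn.1 hle.1
        unfold WW
        simp only [h]
        have e1 : (0 : ℤ) < M := by exact_mod_cast hM
        have e2 : (0 : ℤ) < N := by exact_mod_cast hN
        have e3 : (0 : ℤ) < P := by exact_mod_cast hPp
        positivity
      · refine dvd_le h2 ?_ hnn.2 hle.2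
        unfold WW
        simp only [h]
        have e1 : (0 : ℤ) < M := by exact_mod_cast hM
        have e2 : (0 : ℤ) < N := by exact_mod_cast hN
        have e3 : (0 : ℤ) < P := by exact_mod_cast hPp
        positivity
    rw [mem_biUnion]
    refine ⟨p, mem_filter.2 ⟨mem_Ioc.2 ⟨hpP0, hpX⟩, hp⟩, mem_filter.2 ⟨hz.1, ?_, ?_⟩⟩
    · have : (P : ℤ) * z.1 + (P * (m.1 * N) + ρ.1 : ℤ) = (WW P N m ρ z).1 := by
        unfold WW; simp only; ring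
      rw [this]; exact h1
    · have : (P : ℤ) * z.2 + (P * (m.2 * N) + ρ.2 : ℤ) = (WW P N m ρ z).2 := by
        unfold WW; simp only; ring
      rw [this]; exact h2
  have h1 := (card_le_card hsub).trans card_biUnion_le
  have h2 : ∀ p ∈ (Ioc P0 X).filter Nat.Prime, (((range N ×ˢ range N).filter fun z : ℕ × ℕ =>
        (p : ℤ) ∣ (P : ℤ) * z.1 + (P * (m.1 * N) + ρ.1 : ℤ) ∧
        (p : ℤ) ∣ (P : ℤ) * z.2 + (P * (m.2 * N) + ρ.2 : ℤ)).card : ℝ) ≤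
        2 * (N : ℝ) ^ 2 * (1 / (p : ℝ) ^ 2) + 2 := by
    intro p hp
    rw [mem_filter, mem_Ioc] at hp
    have hpP : ¬ (p : ℤ) ∣ (P : ℤ) := by
      intro h
      have h' : p ∣ P := by exact_mod_cast h
      rw [hP, hp.2.dvd_factorial] at h'
      omega
    have h3 := both_count p N hp.2 P (P * (m.1 * N) + ρ.1 : ℤ) (P * (m.2 * N) + ρ.2 : ℤ) hpP
    have h4 : ((((range N ×ˢ range N).filter fun z : ℕ × ℕ =>
        (p : ℤ) ∣ (P : ℤ) * z.1 + (P * (m.1 * N) + ρ.1 : ℤ) ∧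
        (p : ℤ) ∣ (P : ℤ) * z.2 + (P * (m.2 * N) + ρ.2 : ℤ)).card : ℕ) : ℝ) ≤
        ((N / p + 1 : ℕ) : ℝ) * ((N / p + 1 : ℕ) : ℝ) := by exact_mod_cast h3
    have h5 : ((N / p + 1 : ℕ) : ℝ) ≤ (N : ℝ) / p + 1 := by
      push_cast
      have := Nat.cast_div_le (α := ℝ) (m := N) (n := p)
      linarith
    have h6 : (0 : ℝ) ≤ ((N / p + 1 : ℕ) : ℝ) := Nat.cast_nonneg _
    have h7 : ((N / p + 1 : ℕ) : ℝ) * ((N / p + 1 : ℕ) : ℝ) ≤
        ((N : ℝ) / p + 1) * ((N : ℝ) / p + 1) := mul_le_mul h5 h5 h6 (h6.trans h5)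
    have h8 : 2 * (N : ℝ) ^ 2 * (1 / (p : ℝ) ^ 2) = 2 * ((N : ℝ) / p) ^ 2 := by
      rw [div_pow]; ring
    rw [h8]
    nlinarith [sq_nonneg ((N : ℝ) / p - 1)]
  have h3 : (((range N ×ˢ range N).filter fun z : ℕ × ℕ =>
      ¬ IsCoprime (WW P N m ρ z).1 (WW P N m ρ z).2).card : ℝ) ≤
      ∑ p ∈ (Ioc P0 X).filter Nat.Prime, (2 * (N : ℝ) ^ 2 * (1 / (p : ℝ) ^ 2) + 2) := by
    refine le_trans (by exact_mod_cast h1) (sum_le_sum h2)
  have h4 : ∑ p ∈ (Ioc P0 X).filter Nat.Prime, (2 * (N : ℝ) ^ 2 * (1 / (p : ℝ) ^ 2) + 2) ≤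
      ∑ p ∈ Ioc P0 X, (2 * (N : ℝ) ^ 2 * (1 / (p : ℝ) ^ 2) + 2) :=
    sum_le_sum_of_subset_of_nonneg (filter_subset _ _) fun i _ _ => by positivity
  have h5 : ∑ p ∈ Ioc P0 X, (2 * (N : ℝ) ^ 2 * (1 / (p : ℝ) ^ 2) + 2) ≤
      2 * (N : ℝ) ^ 2 * (1 / P0) + 2 * X := by
    rw [sum_add_distrib, ← mul_sum, sum_const, Nat.card_Ioc, nsmul_eq_mul]
    have e1 := mul_le_mul_of_nonneg_left (sum_inv_sq P0 X hP0) (by positivity : 0 ≤ 2 * (N : ℝ) ^ 2)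
    have e2 : ((X - P0 : ℕ) : ℝ) ≤ X := by exact_mod_cast Nat.sub_le X P0
    linarith
  have hP0r : (0 : ℝ) < P0 := by exact_mod_cast hP0
  have h6 : 2 * (X : ℝ) ≤ (N : ℝ) ^ 2 / P0 := by
    rw [le_div_iff₀ hP0r]
    have e3 : 2 * X * P0 ≤ N ^ 2 := by
      rw [hX]
      calc 2 * ((M + 1) * P * N) * P0 = 2 * ((M + 1) * P * P0) * N := by ring
        _ ≤ N * N := Nat.mul_le_mul_right _ hbig
        _ = N ^ 2 := by ring
    exact_mod_cast e3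
  calc _ ≤ 2 * (N : ℝ) ^ 2 * (1 / P0) + 2 * X := h3.trans (h4.trans h5)
    _ ≤ 2 * (N : ℝ) ^ 2 * (1 / P0) + (N : ℝ) ^ 2 / P0 := by linarith
    _ = 3 / P0 * (N : ℝ) ^ 2 := by ring

/-- the boxes of vectors with `p` dividing the determinant with a given primitive vector -/
theorem dt_count (P0 P N : ℕ) (hP : P = P0.factorial) (m ρ : ℕ × ℕ) (v : ℤ × ℤ)
    (hv : IsCoprime v.1 v.2) (p : ℕ) (hp : p.Prime) (hpP : P0 < p) :
    (((range N ×ˢ range N).filter fun z : ℕ × ℕ => (p : ℤ) ∣ dt v (WW P N m ρ z)).card : ℝ) ≤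
      (1 / p + 1 / N) * (N : ℝ) ^ 2 := by
  have hnP : ¬ (p : ℤ) ∣ (P : ℤ) := by
    intro h
    have h' : p ∣ P := by exact_mod_cast h
    rw [hP, hp.dvd_factorial] at h'
    omega
  have hpi := Nat.prime_iff_prime_int.1 hp
  have h1 := lin_count p N hp (-v.2 * P) (v.1 * P)
    (v.1 * (P * (m.2 * N) + ρ.2) - v.2 * (P * (m.1 * N) + ρ.1)) (by
      rintro ⟨h2, h3⟩
      have h4 := (hpi.dvd_or_dvd h2).resolve_right hnP
      have h5 := (hpi.dvd_or_dvd h3).resolve_right hnP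
      rw [dvd_neg] at h4
      obtain ⟨r, s, hrs⟩ := hv
      have h6 : (p : ℤ) ∣ 1 := by
        rw [← hrs]; exact dvd_add (h5.mul_left _) (h4.mul_left _)
      exact hpi.not_dvd_one h6)
  have h2 : ((range N ×ˢ range N).filter fun z : ℕ × ℕ => (p : ℤ) ∣ dt v (WW P N m ρ z)) =
      ((range N ×ˢ range N).filter fun z : ℕ × ℕ => (p : ℤ) ∣ (-v.2 * P) * z.1 + (v.1 * P) * z.2 +
        (v.1 * (P * (m.2 * N) + ρ.2) - v.2 * (P * (m.1 * N) + ρ.1))) := by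
    refine filter_congr fun z _ => ?_
    have : dt v (WW P N m ρ z) = (-v.2 * P) * z.1 + (v.1 * P) * z.2 +
        (v.1 * (P * (m.2 * N) + ρ.2) - v.2 * (P * (m.1 * N) + ρ.1)) := by
      unfold dt WW; simp only; ring
    rw [this]
  rw [h2]
  have h3 : ((((range N ×ˢ range N).filter fun z : ℕ × ℕ => (p : ℤ) ∣ (-v.2 * P) * z.1 +
      (v.1 * P) * z.2 + (v.1 * (P * (m.2 * N) + ρ.2) - v.2 * (P * (m.1 * N) + ρ.1))).card : ℕ) : ℝ) ≤
      ((N * (N / p + 1) : ℕ) : ℝ) := by exact_mod_cast h1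
  refine h3.trans ?_
  push_cast
  have h4 := Nat.cast_div_le (α := ℝ) (m := N) (n := p)
  have h5 : (0 : ℝ) ≤ N := Nat.cast_nonneg _
  by_cases hN : (N : ℝ) = 0
  · rw [hN]; simp
  · have h6 : (1 / (p : ℝ) + 1 / N) * (N : ℝ) ^ 2 = N * ((N : ℝ) / p + 1) := by
      field_simp
    rw [h6]
    exact mul_le_mul_of_nonneg_left (by linarith) h5

/-- sum over the primes in the middle range -/
theorem sum_pairs (P0 N r K : ℕ) (hP0 : 0 < P0) (hN : 0 < N) (hr : r ≤ K)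
    (hbig : (K + 1) * P0 ≤ N) :
    ∑ p ∈ Ioc P0 (2 ^ r), (1 / (p : ℝ) + 1 / N) * (1 / (p : ℝ) + 1 / (2 ^ r : ℕ)) ≤ 4 / P0 := by
  have hP0r : (0 : ℝ) < P0 := by exact_mod_cast hP0
  have hNr : (0 : ℝ) < N := by exact_mod_cast hN
  have h1 : ∀ p ∈ Ioc P0 (2 ^ r), (1 / (p : ℝ) + 1 / N) * (1 / (p : ℝ) + 1 / (2 ^ r : ℕ)) ≤
      2 * (1 / (p : ℝ) ^ 2) + 2 / N * (1 / (p : ℝ)) := by
    intro p hp
    rw [mem_Ioc] at hp
    have hp0 : (0 : ℝ) < p := by exact_mod_cast (by omega : 0 < p)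
    have h2 : 1 / ((2 ^ r : ℕ) : ℝ) ≤ 1 / (p : ℝ) :=
      one_div_le_one_div_of_le hp0 (by exact_mod_cast hp.2)
    have h3 : (0 : ℝ) ≤ 1 / (p : ℝ) + 1 / N := by positivity
    calc (1 / (p : ℝ) + 1 / N) * (1 / (p : ℝ) + 1 / (2 ^ r : ℕ)) ≤
        (1 / (p : ℝ) + 1 / N) * (1 / (p : ℝ) + 1 / (p : ℝ)) :=
          mul_le_mul_of_nonneg_left (by linarith) h3
      _ = 2 * (1 / (p : ℝ) ^ 2) + 2 / N * (1 / (p : ℝ)) := by
          field_simp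
          ring
  refine (sum_le_sum h1).trans ?_
  rw [sum_add_distrib, ← mul_sum, ← mul_sum]
  have h2 := sum_inv_sq P0 (2 ^ r) hP0
  have h3 := sum_inv_le P0 r
  have h4 : (2 : ℝ) / N * (1 + r) ≤ 2 / P0 := by
    rw [div_mul_eq_mul_div, div_le_div_iff₀ hNr hP0r]
    have e1 : ((K + 1 : ℕ) : ℝ) * P0 ≤ N := by exact_mod_cast hbig
    have e2 : (1 + r : ℝ) ≤ ((K + 1 : ℕ) : ℝ) := by
      push_cast
      have : (r : ℝ) ≤ K := by exact_mod_cast hr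
      linarith
    have e3 := mul_le_mul_of_nonneg_right e2 hP0r.le
    nlinarith
  have h5 : (2 : ℝ) / N * ∑ p ∈ Ioc P0 (2 ^ r), 1 / (p : ℝ) ≤ 2 / N * (1 + r) :=
    mul_le_mul_of_nonneg_left h3 (by positivity)
  have h6 : 2 * ∑ p ∈ Ioc P0 (2 ^ r), 1 / (p : ℝ) ^ 2 ≤ 2 * (1 / (P0 : ℝ)) := by linarith
  have h7 : (4 : ℝ) / P0 = 2 * (1 / (P0 : ℝ)) + 2 / P0 := by ring
  rw [h7]
  linarith

end Pool.Agent.Y714.ML
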