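import Pool.Agent.Y714.ML.Ht

set_option autoImplicit false
set_option linter.unusedSectionVars false

/-! Models whose monomials of degree `2e` have no common factor. -/

namespace Pool.Agent.Y714.ML

open Finset

section

variable {I : Type} [Fintype I] [DecidableEq I]

theorem degree_split (S : Finset I) {d : I → ℕ} (m : Mon d) :
    ∑ q : I × I, (if q.1 ∈ S ∧ q.2 ∈ S then m.1 q else 0) + ∑ q : I × I, m.1 q =
      ∑ q : I × I, (if ¬ q.1 ∈ S ∧ ¬ q.2 ∈ S then m.1 q else 0) + ∑ i ∈ S, d i := by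
  have h1 : ∑ i ∈ S, d i = ∑ q : I × I, ((if q.1 ∈ S then m.1 q else 0) +
      (if q.2 ∈ S then m.1 q else 0)) := by
    rw [sum_add_distrib, Fintype.sum_prod_type, Fintype.sum_prod_type_right]
    have e1 : ∀ i ∈ S, d i = ∑ j, m.1 (i, j) + ∑ j, m.1 (j, i) := by
      intro i _
      rw [← m.2 i, sum_add_distrib]
    rw [sum_congr rfl e1, sum_add_distrib]
    congr 1
    · rw [← sum_filter_add_sum_filter_not univ (fun i => i ∈ S)]
      rw [show (univ.filter fun i => i ∈ S) = S by ext; simp]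
      rw [sum_congr rfl (s₁ := S) (g := fun i => ∑ j, (if i ∈ S then m.1 (i, j) else 0))
        (fun i hi => by simp only [if_pos hi])]
      rw [sum_eq_zero (s := univ.filter fun i => ¬ i ∈ S) (fun i hi => by
        rw [mem_filter] at hi
        simp only [if_neg hi.2, sum_const_zero]), add_zero]
    · rw [← sum_filter_add_sum_filter_not univ (fun i => i ∈ S)]
      rw [show (univ.filter fun i => i ∈ S) = S by ext; simp]
      rw [sum_congr rfl (s₁ := S) (g := fun i => ∑ j, (if i ∈ S then m.1 (j, i) else 0))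
        (fun i hi => by simp only [if_pos hi])]
      rw [sum_eq_zero (s := univ.filter fun i => ¬ i ∈ S) (fun i hi => by
        rw [mem_filter] at hi
        simp only [if_neg hi.2, sum_const_zero]), add_zero]
  rw [h1, ← sum_add_distrib, ← sum_add_distrib]
  refine sum_congr rfl fun q _ => ?_
  by_cases h2 : q.1 ∈ S <;> by_cases h3 : q.2 ∈ S <;> simp [h2, h3]

theorem exists_gcd_one (x : I → ℚ × ℚ) (hx : ∀ i j, i ≠ j → detQ (x i) (x j) ≠ 0)
    (hcard : 2 ≤ Fintype.card I) (e : I → ℕ) (h2e : ∀ i, 2 * e i ≤ ∑ j, e j)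
    [Fintype (Mon fun i => 2 * e i)] :
    ∃ v : I → ℤ × ℤ, Rep x v ∧ (∀ i, IsCoprime (v i).1 (v i).2) ∧
      Finset.univ.gcd (fun m : Mon (fun i => 2 * e i) => monZ v m) = 1 := by
  classical
  have hx0 : ∀ i, (x i).1 ≠ 0 ∨ (x i).2 ≠ 0 := by
    intro i
    by_contra hcon
    push Not at hcon
    obtain ⟨j, hj⟩ : ∃ j, i ≠ j := by
      by_contra hc
      push Not at hc
      have : Fintype.card I ≤ 1 := Fintype.card_le_one_iff.2 fun a b => (hc a).symm.trans (hc b)
      omega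
    apply hx i j hj
    unfold detQ
    rw [hcon.1, hcon.2]
    ring
  let G : (I → ℤ × ℤ) → ℤ := fun v =>
    Finset.univ.gcd (fun m : Mon (fun i => 2 * e i) => monZ v m)
  let P : ℕ → Prop := fun m => ∃ v : I → ℤ × ℤ,
    (Rep x v ∧ ∀ i, IsCoprime (v i).1 (v i).2) ∧ (G v).natAbs = m
  have hP : ∃ m, P m := by
    obtain ⟨v, hv⟩ := exists_rep x hx0
    exact ⟨_, v, hv, rfl⟩
  obtain ⟨v, ⟨hrep, hco⟩, hG⟩ := Nat.find_spec hP
  refine ⟨v, hrep, hco, ?_⟩
  have hnorm : normalize (G v) = G v := Finset.normalize_gcd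
  -- the gcd is not zero
  have hG0 : G v ≠ 0 := by
    intro h0
    obtain ⟨τ, hτ⟩ := exists_perm_of_dense (fun j k : Cop e => ¬ k.1 = j.1)
      (fun j k h1 h2 => h1 h2.symm)
      (fun j => by
        simp only [not_not]
        rw [card_filter_Cop e (fun i => i = j.1), card_Cop]
        rw [Finset.filter_eq', if_pos (mem_univ j.1), sum_singleton]
        exact h2e j.1)
    have h1 := (Finset.gcd_eq_zero_iff.1 h0) (permMon e τ) (mem_univ _)
    rw [monZ_perm, prod_eq_zero_iff] at h1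
    obtain ⟨j, _, hj⟩ := h1
    exact hrep.dt_ne hx _ _ (fun h => hτ j h.symm) hj
  change G v = 1
  by_contra hne
  have hnu : ¬ IsUnit (G v) := by
    intro hu
    apply hne
    rw [← hnorm]
    exact normalize_eq_one.2 hu
  have hna : (G v).natAbs ≠ 1 := fun h => hnu (Int.isUnit_iff_natAbs_eq.2 h)
  obtain ⟨p, hp, hpg⟩ := Nat.exists_prime_and_dvd hna
  have hpg' : (p : ℤ) ∣ G v := by
    rw [← Int.natAbs_dvd_natAbs]
    simpa using hpg
  -- an unstable point
  obtain ⟨i₀, hi₀⟩ : ∃ i₀, ∑ j, e j <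
      2 * ∑ j ∈ univ.filter (fun j => (p : ℤ) ∣ dt (v i₀) (v j)), e j := by
    by_contra hcon
    push Not at hcon
    obtain ⟨τ, hτ⟩ := exists_not_dvd e v p hp hcon
    exact hτ (hpg'.trans (Finset.gcd_dvd (mem_univ _)))
  obtain ⟨u, w, huw⟩ := hco i₀
  set S : Finset I := univ.filter fun j => (p : ℤ) ∣ dt (v i₀) (v j) with hS
  set v' : I → ℤ × ℤ := modif v i₀ u w p with hv'
  have hrep' : Rep x v' := modif_rep hrep i₀ u w huw p hp
  have hco' : ∀ j, IsCoprime (v' j).1 (v' j).2 := fun j => modif_coprime v i₀ u w huw p hp j (hco j)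
  have hmin : (G v).natAbs ≤ (G v').natAbs := by
    rw [hG]
    exact Nat.find_min' hP ⟨v', ⟨hrep', hco'⟩, rfl⟩
  obtain ⟨δ, hδ⟩ : ∃ δ, 2 * ∑ j ∈ S, e j = ∑ j, e j + (δ + 1) :=
    ⟨2 * ∑ j ∈ S, e j - ∑ j, e j - 1, by omega⟩
  have hmon : ∀ m : Mon (fun i => 2 * e i), monZ v m = (p : ℤ) ^ (δ + 1) * monZ v' m := by
    intro m
    have hmemS : ∀ j, j ∈ S ↔ (p : ℤ) ∣ dt (v i₀) (v j) := by
      intro j
      rw [hS, mem_filter]
      exact ⟨fun h => h.2, fun h => ⟨mem_univ _, h⟩⟩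
    have e1 : ∀ q : I × I, dt (v' q.1) (v' q.2) ^ m.1 q *
        (p : ℤ) ^ (if q.1 ∈ S ∧ q.2 ∈ S then m.1 q else 0) = dt (v q.1) (v q.2) ^ m.1 q *
        (p : ℤ) ^ (if ¬ q.1 ∈ S ∧ ¬ q.2 ∈ S then m.1 q else 0) := by
      intro q
      have h1 := modif_dt v i₀ u w huw p hp.pos q.1 q.2
      rw [← hv'] at h1
      have h2 := congrArg (fun z => z ^ m.1 q) h1
      simp only [mul_pow, ← pow_mul] at h2
      by_cases h1a : (p : ℤ) ∣ dt (v i₀) (v q.1) <;> by_cases h1b : (p : ℤ) ∣ dt (v i₀) (v q.2) <;>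
        simpa [hmemS, h1a, h1b] using h2
    have e3 := prod_congr rfl fun q (_ : q ∈ (univ : Finset (I × I))) => e1 q
    rw [prod_mul_distrib, prod_mul_distrib, prod_pow_eq_pow_sum, prod_pow_eq_pow_sum] at e3
    change monZ v' m * _ = monZ v m * _ at e3
    have h4 := degree_split S m
    have h5 := sum_snd m
    simp only [← mul_sum] at h4 h5
    set A := ∑ q : I × I, (if q.1 ∈ S ∧ q.2 ∈ S then m.1 q else 0) with hA
    set B := ∑ q : I × I, (if ¬ q.1 ∈ S ∧ ¬ q.2 ∈ S then m.1 q else 0) with hB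
    have h6 : A = B + (δ + 1) := by omega
    rw [h6, pow_add, mul_comm ((p : ℤ) ^ B) _, ← mul_assoc] at e3
    have h7 : (p : ℤ) ^ B ≠ 0 := pow_ne_zero _ (by exact_mod_cast hp.ne_zero)
    have h8 := mul_right_cancel₀ h7 e3
    rw [← h8]; ring
  have hGG : G v = normalize ((p : ℤ) ^ (δ + 1)) * G v' := by
    change Finset.univ.gcd (fun m : Mon (fun i => 2 * e i) => monZ v m) = _
    rw [Finset.gcd_congr rfl fun m _ => hmon m, Finset.gcd_mul_left]
  have h9 : (G v).natAbs = p ^ (δ + 1) * (G v').natAbs := by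
    rw [hGG, Int.natAbs_mul]
    congr 1
    rw [Int.normalize_of_nonneg (by positivity), Int.natAbs_pow, Int.natAbs_natCast]
  have h10 : 0 < (G v').natAbs := by
    rcases Nat.eq_zero_or_pos (G v').natAbs with h | h
    · rw [h, mul_zero] at h9
      exact absurd (Int.natAbs_eq_zero.1 h9) hG0
    · exact h
  have h11 : 2 ≤ p ^ (δ + 1) := by
    calc 2 ≤ p := hp.two_le
      _ = p ^ 1 := (pow_one p).symm
      _ ≤ p ^ (δ + 1) := Nat.pow_le_pow_right hp.pos (by omega)
  rw [h9] at hmin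
  nlinarith

end

end Pool.Agent.Y714.ML
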