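import Pool.Agent.Y714.ML.Norm
import Pool.Agent.Y714.ML.Gcd

set_option autoImplicit false
set_option linter.unusedSectionVars false

/-! The number of configurations of bounded height. -/

namespace Pool.Agent.Y714.ML

open Finset

section

variable {I : Type} [Fintype I] [DecidableEq I]

/-- the effective cone -/
def Eff (ε : I → ℝ) : Prop := ∀ i, 0 ≤ ε i ∧ 2 * ε i ≤ ∑ j, ε j

theorem eff_sum (ε ζ : I → ℝ) (hε : Eff ε) (hζ : ∀ i k, i ≠ k → 0 ≤ ζ i + ζ k) :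
    0 ≤ ∑ i, ε i * ζ i := by
  by_cases h : ∀ i, 0 ≤ ζ i
  · exact sum_nonneg fun i _ => mul_nonneg (hε i).1 (h i)
  · push Not at h
    obtain ⟨i0, hi0⟩ := h
    have h1 : ∑ i, ε i * ζ i = ε i0 * ζ i0 + ∑ i ∈ univ.erase i0, ε i * ζ i :=
      (add_sum_erase _ _ (mem_univ i0)).symm
    have h2 : ∑ i, ε i = ε i0 + ∑ i ∈ univ.erase i0, ε i := (add_sum_erase _ _ (mem_univ i0)).symm
    have h3 : ∑ i ∈ univ.erase i0, ε i * (-ζ i0) ≤ ∑ i ∈ univ.erase i0, ε i * ζ i := by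
      refine sum_le_sum fun i hi => ?_
      have h4 := hζ i0 i (ne_of_mem_erase hi).symm
      exact mul_le_mul_of_nonneg_left (by linarith) (hε i).1
    rw [← sum_mul] at h3
    have h5 := (hε i0).2
    rw [h1]
    nlinarith

theorem sum_nonneg_of_pair (ζ : I → ℤ) (hζ : ∀ i k, i ≠ k → 0 ≤ ζ i + ζ k) (A : Finset I)
    (hA : 2 ≤ A.card) : 0 ≤ ∑ i ∈ A, ζ i := by
  have h1 := eff_sum (fun i => if i ∈ A then (1 : ℝ) else 0) (fun i => (ζ i : ℝ)) ?_ ?_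
  · have h2 : ∑ i, (if i ∈ A then (1 : ℝ) else 0) * (ζ i : ℝ) = ((∑ i ∈ A, ζ i : ℤ) : ℝ) := by
      push_cast
      simp only [ite_mul, one_mul, zero_mul]
      rw [← Finset.sum_filter]
      simp
    rw [h2] at h1
    exact_mod_cast h1
  · intro i
    have h3 : ∑ j, (if j ∈ A then (1 : ℝ) else 0) = A.card := by simp
    rw [h3]
    have h4 : (2 : ℝ) ≤ A.card := by exact_mod_cast hA
    simp only
    split_ifs
    · exact ⟨zero_le_one, by linarith⟩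
    · exact ⟨le_refl _, by linarith⟩
  · intro i k hik
    have := hζ i k hik
    exact_mod_cast this

/-- exponent vectors with given sum -/
noncomputable def ZZ (I : Type) [Fintype I] [DecidableEq I] (κ : ℕ) : Finset (I → ℤ) :=
  (Fintype.piFinset fun _ : I => Icc (-(κ : ℤ)) κ).filter fun ζ => ∑ i, ζ i = κ

theorem mem_ZZ (hcard : 3 ≤ Fintype.card I) (ζ : I → ℤ) (hζ : ∀ i k, i ≠ k → 0 ≤ ζ i + ζ k) :
    ∃ κ : ℕ, ∑ i, ζ i = κ ∧ ζ ∈ ZZ I κ := by
  have h0 : 0 ≤ ∑ i, ζ i := sum_nonneg_of_pair ζ hζ univ (by rw [Finset.card_univ]; omega)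
  obtain ⟨κ, hκ⟩ := Int.eq_ofNat_of_zero_le h0
  refine ⟨κ, hκ, ?_⟩
  rw [ZZ, mem_filter, Fintype.mem_piFinset]
  have hup : ∀ i, ζ i ≤ κ := by
    intro i
    have h1 : 0 ≤ ∑ j ∈ univ.erase i, ζ j :=
      sum_nonneg_of_pair ζ hζ _ (by rw [card_erase_of_mem (mem_univ i), Finset.card_univ]; omega)
    have h2 : ∑ j, ζ j = ζ i + ∑ j ∈ univ.erase i, ζ j := (add_sum_erase _ _ (mem_univ i)).symm
    omega
  refine ⟨fun i => ?_, hκ⟩
  obtain ⟨k, hk⟩ : ∃ k, i ≠ k := by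
    by_contra hc
    push Not at hc
    have : Fintype.card I ≤ 1 := Fintype.card_le_one_iff.2 fun a b => (hc a).symm.trans (hc b)
    omega
  have h3 := hζ i k hk
  have h4 := hup k
  rw [mem_Icc]
  exact ⟨by omega, hup i⟩

theorem card_ZZ [Nonempty I] (κ : ℕ) : (ZZ I κ).card ≤ (2 * κ + 1) ^ (Fintype.card I - 1) := by
  classical
  obtain ⟨i0⟩ := ‹Nonempty I›
  have h1 : (ZZ I κ).card ≤
      (Fintype.piFinset fun _ : {i : I // i ≠ i0} => Icc (-(κ : ℤ)) κ).card := by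
    refine card_le_card_of_injOn (fun ζ i => ζ i.1) ?_ ?_
    · intro ζ hζ
      rw [mem_coe, ZZ, mem_filter, Fintype.mem_piFinset] at hζ
      rw [mem_coe, Fintype.mem_piFinset]
      exact fun i => hζ.1 i.1
    · intro ζ hζ ζ' hζ' h
      rw [mem_coe, ZZ, mem_filter] at hζ hζ'
      funext i
      by_cases hi : i = i0
      · have e1 : ∑ j, ζ j = ζ i0 + ∑ j ∈ univ.erase i0, ζ j :=
          (add_sum_erase _ _ (mem_univ i0)).symm
        have e2 : ∑ j, ζ' j = ζ' i0 + ∑ j ∈ univ.erase i0, ζ' j :=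
          (add_sum_erase _ _ (mem_univ i0)).symm
        have e3 : ∑ j ∈ univ.erase i0, ζ j = ∑ j ∈ univ.erase i0, ζ' j :=
          sum_congr rfl fun j hj => congrFun h ⟨j, ne_of_mem_erase hj⟩
        rw [hi]
        have e4 := hζ.2
        have e5 := hζ'.2
        omega
      · exact congrFun h ⟨i, hi⟩
  refine h1.trans ?_
  rw [Fintype.card_piFinset, prod_const, Finset.card_univ, Int.card_Icc]
  have h2 : Fintype.card {i : I // i ≠ i0} = Fintype.card I - 1 := by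
    rw [Fintype.card_subtype_compl, Fintype.card_subtype_eq]
  rw [h2]
  have h3 : ((κ : ℤ) + 1 - -(κ : ℤ)).toNat = 2 * κ + 1 := by omega
  rw [h3]

/-- the sizes of the vectors -/
noncomputable def Lam (ζ : I → ℤ) (i : I) : ℝ := Real.sqrt ((2 : ℝ) ^ ζ i)

theorem Lam_pos (ζ : I → ℤ) (i : I) : 0 < Lam ζ i := Real.sqrt_pos.2 (zpow_pos two_pos _)

theorem Lam_mul (ζ : I → ℤ) (i k : I) : Lam ζ i * Lam ζ k = Real.sqrt ((2 : ℝ) ^ (ζ i + ζ k)) := by
  unfold Lam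
  rw [← Real.sqrt_mul (zpow_nonneg zero_le_two _), zpow_add₀ two_ne_zero]

theorem sqrt_two_zpow (a : ℤ) : Real.sqrt ((2 : ℝ) ^ (2 * a)) = 2 ^ a := by
  rw [mul_comm, zpow_mul, zpow_ofNat]
  exact Real.sqrt_sq (zpow_nonneg zero_le_two _)

theorem Lam_prod (ζ : I → ℤ) : ∏ i, Lam ζ i ^ 2 = (2 : ℝ) ^ (∑ i, ζ i) := by
  have h1 : ∀ i, Lam ζ i ^ 2 = (2 : ℝ) ^ ζ i := fun i =>
    Real.sq_sqrt (zpow_nonneg zero_le_two _)
  rw [prod_congr rfl fun i _ => h1 i]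
  induction (univ : Finset I) using Finset.induction_on with
  | empty => simp
  | insert a s ha ih => rw [prod_insert ha, sum_insert ha, zpow_add₀ two_ne_zero, ih]

theorem two_pow_clog_lt (m : ℕ) (hm : 0 < m) : 2 ^ Nat.clog 2 m < 2 * m := by
  by_cases h1 : m = 1
  · subst h1
    simp
  · have h2 : 1 < m := by omega
    have h3 := Nat.pow_pred_clog_lt_self one_lt_two h2
    have h4 : Nat.clog 2 m = (Nat.clog 2 m).pred + 1 :=
      (Nat.succ_pred_eq_of_pos (Nat.clog_pos one_lt_two h2)).symm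
    rw [h4, pow_succ]
    omega

/-- Every configuration has a normalised model. -/
theorem exists_data (e : I → ℕ) (he : ∀ i, 0 < e i) (h2e : ∀ i, 2 * e i ≤ ∑ j, e j)
    (hcard : 3 ≤ Fintype.card I)
    (x : I → ℚ × ℚ) (hx : ∀ i j, i ≠ j → detQ (x i) (x j) ≠ 0) :
    ∃ (ζ : I → ℤ) (i0 i1 : I) (w : I → ℤ × ℤ), Rep x w ∧ w ∈ KK (Lam ζ) i0 i1 ∧ i0 ≠ i1 ∧
      (∀ k, Lam ζ i0 ≤ Lam ζ k) ∧ (∀ k, k ≠ i0 → 1 ≤ Lam ζ i0 * Lam ζ k) ∧
      (∀ i k, i ≠ k → 0 ≤ ζ i + ζ k) ∧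
      (2 : ℝ) ^ (∑ i, (e i : ℤ) * ζ i) ≤ 2 ^ (∑ i, e i) * hgt (fun i => 2 * e i) x := by
  have : Fintype (Mon fun i => 2 * e i) := Fintype.ofFinite _
  obtain ⟨v, hrep, hco, hgcd⟩ := exists_gcd_one x hx (by omega) e h2e
  have hne := hrep.dt_ne hx
  obtain ⟨ζ, h1, h2, h3⟩ := exists_dual e he h2e v hne _ (fun σ => le_hgt e hrep hgcd σ)
  have : Nonempty I := Fintype.card_pos_iff.1 (by omega)
  obtain ⟨i0, -, hi0⟩ := exists_min_image (univ : Finset I) ζ univ_nonempty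
  obtain ⟨i1, h01, h4⟩ := h2 i0
  obtain ⟨w, hw, hw0, hw1, hw2, hw3⟩ := exists_normal hrep i0 i1 (hco i0) (hne i0 i1 h01)
  have hpair : ∀ i k, i ≠ k → 0 ≤ ζ i + ζ k := fun i k hik => by
    have h5 := h1 i k hik
    have h6 := wt_nonneg v i k
    omega
  have hone : ∀ k, k ≠ i0 → 1 ≤ Lam ζ i0 * Lam ζ k := by
    intro k hk
    rw [Lam_mul, Real.one_le_sqrt]
    exact one_le_zpow₀ one_le_two (hpair i0 k (Ne.symm hk))
  refine ⟨ζ, i0, i1, w, hw, ?_, h01, ?_, hone, hpair, h3⟩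
  · refine mem_KK _ i0 i1 w hw0 hw1 hw2 h01 ?_ ?_
    · intro i k hik
      rw [hw3, Lam_mul]
      have h5 : ((dt (v i) (v k)).natAbs : ℝ) ≤ 2 ^ wt v i k := by
        unfold wt
        rw [zpow_natCast]
        exact_mod_cast Nat.le_pow_clog one_lt_two _
      refine h5.trans ?_
      rw [← sqrt_two_zpow]
      exact Real.sqrt_le_sqrt (zpow_le_zpow_right₀ one_le_two (h1 i k hik))
    · rw [hw3, Lam_mul, h4, sqrt_two_zpow]
      unfold wt
      rw [zpow_natCast]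
      exact_mod_cast two_pow_clog_lt _ (Int.natAbs_pos.2 (hne i0 i1 h01))
  · intro k
    exact Real.sqrt_le_sqrt (zpow_le_zpow_right₀ one_le_two (hi0 k (mem_univ k)))

end

end Pool.Agent.Y714.ML
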