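import Pool.Agent.Y714.ML.Ht

set_option autoImplicit false
set_option linter.unusedSectionVars false

/-! Integer potentials for a configuration of points on the line. -/

namespace Pool.Agent.Y714.ML

open Finset

theorem two_pow_clog_le (m : ℕ) (hm : 0 < m) : 2 ^ Nat.clog 2 m ≤ 2 * m := by
  by_cases h1 : m = 1
  · subst h1
    simp
  · have h2 : 1 < m := by omega
    have h3 := Nat.pow_pred_clog_lt_self one_lt_two h2
    have h4 : Nat.clog 2 m = (Nat.clog 2 m).pred + 1 := by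
      have h5 := Nat.clog_pos one_lt_two h2
      exact (Nat.succ_pred_eq_of_pos h5).symm
    rw [h4, pow_succ]
    omega

section

variable {I : Type} [Fintype I] [DecidableEq I]

/-- the size of the determinants -/
def wt (v : I → ℤ × ℤ) (i k : I) : ℤ := (Nat.clog 2 (dt (v i) (v k)).natAbs : ℤ)

theorem wt_nonneg (v : I → ℤ × ℤ) (i k : I) : 0 ≤ wt v i k := Int.natCast_nonneg _

theorem wt_comm (v : I → ℤ × ℤ) (i k : I) : wt v i k = wt v k i := by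
  unfold wt
  rw [natAbs_dt_comm]

theorem exists_dual (e : I → ℕ) (he : ∀ i, 0 < e i) (h2e : ∀ i, 2 * e i ≤ ∑ j, e j)
    (v : I → ℤ × ℤ) (hne : ∀ i k, i ≠ k → dt (v i) (v k) ≠ 0) (H : ℝ)
    (hH : ∀ σ : Equiv.Perm (Cop e),
      ((∏ j : Cop e, (dt (v j.1) (v (σ j).1)).natAbs : ℕ) : ℝ) ≤ H) :
    ∃ ζ : I → ℤ, (∀ i k, i ≠ k → 2 * wt v i k ≤ ζ i + ζ k) ∧
      (∀ i, ∃ k, i ≠ k ∧ ζ i + ζ k = 2 * wt v i k) ∧
      (2 : ℝ) ^ (∑ i, (e i : ℤ) * ζ i) ≤ 2 ^ (∑ i, e i) * H := by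
  classical
  obtain ⟨τ, hτ⟩ := exists_perm_of_dense (fun j k : Cop e => ¬ k.1 = j.1)
    (fun j k h1 h2 => h1 h2.symm)
    (fun j => by
      simp only [not_not]
      rw [card_filter_Cop e (fun i => i = j.1), card_Cop]
      rw [Finset.filter_eq', if_pos (mem_univ j.1), sum_singleton]
      exact h2e j.1)
  obtain ⟨z, σ, h1, h2⟩ := exists_potential (fun j k : Cop e => ¬ k.1 = j.1)
    (fun j k h1 h2 => h1 h2.symm) (fun j k => wt v j.1 k.1) (fun j k => wt_comm v _ _) τ hτ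
  -- the minimum over the copies
  have hmin : ∀ i, ∃ a : Fin (e i), ∀ b : Fin (e i), z ⟨i, a⟩ ≤ z ⟨i, b⟩ := by
    intro i
    have : Nonempty (Fin (e i)) := ⟨⟨0, he i⟩⟩
    obtain ⟨a, -, ha⟩ := exists_min_image (univ : Finset (Fin (e i))) (fun b => z ⟨i, b⟩)
      univ_nonempty
    exact ⟨a, fun b => ha b (mem_univ b)⟩
  choose a ha using hmin
  refine ⟨fun i => z ⟨i, a i⟩, ?_, ?_, ?_⟩
  · intro i k hik
    exact h1 ⟨i, a i⟩ ⟨k, a k⟩ (fun h => hik h.symm)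
  · intro i
    obtain ⟨h3, h4⟩ := h2 ⟨i, a i⟩
    set j' := σ ⟨i, a i⟩ with hj'
    refine ⟨j'.1, fun h => h3 h.symm, ?_⟩
    have h5 : z ⟨j'.1, a j'.1⟩ ≤ z j' := ha j'.1 j'.2
    have h6 := h1 ⟨i, a i⟩ ⟨j'.1, a j'.1⟩ h3
    simp only at h4 h6 ⊢
    omega
  · have hsum : ∑ i, (e i : ℤ) * z ⟨i, a i⟩ ≤ ∑ j : Cop e, wt v j.1 (σ j).1 := by
      have h3 : ∑ i, (e i : ℤ) * z ⟨i, a i⟩ ≤ ∑ j : Cop e, z j := by
        rw [Fintype.sum_sigma]
        refine sum_le_sum fun i _ => ?_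
        calc (e i : ℤ) * z ⟨i, a i⟩ = ∑ b : Fin (e i), z ⟨i, a i⟩ := by simp
          _ ≤ ∑ b : Fin (e i), z ⟨i, b⟩ := sum_le_sum fun b _ => ha i b
      have h4 : ∑ j : Cop e, z (σ j) = ∑ j : Cop e, z j := Equiv.sum_comp σ z
      have h5 : ∑ j : Cop e, (z j + z (σ j)) = ∑ j : Cop e, 2 * wt v j.1 (σ j).1 :=
        sum_congr rfl fun j _ => (h2 j).2
      rw [sum_add_distrib, h4, ← mul_sum] at h5
      linarith
    have h6 : (2 : ℝ) ^ (∑ j : Cop e, wt v j.1 (σ j).1) ≤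
        2 ^ (∑ i, e i) * ((∏ j : Cop e, (dt (v j.1) (v (σ j).1)).natAbs : ℕ) : ℝ) := by
      have h7 : (∑ j : Cop e, wt v j.1 (σ j).1) =
          ((∑ j : Cop e, Nat.clog 2 (dt (v j.1) (v (σ j).1)).natAbs : ℕ) : ℤ) := by
        unfold wt
        push_cast
        rfl
      rw [h7, zpow_natCast]
      have h8 : (2 : ℕ) ^ (∑ j : Cop e, Nat.clog 2 (dt (v j.1) (v (σ j).1)).natAbs) ≤
          2 ^ (∑ i, e i) * ∏ j : Cop e, (dt (v j.1) (v (σ j).1)).natAbs := by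
        have e1 : (2 : ℕ) ^ (∑ i, e i) = ∏ _j : Cop e, 2 := by
          rw [prod_const, Finset.card_univ, card_Cop]
        have e2 : (2 : ℕ) ^ (∑ j : Cop e, Nat.clog 2 (dt (v j.1) (v (σ j).1)).natAbs) =
            ∏ j : Cop e, 2 ^ Nat.clog 2 (dt (v j.1) (v (σ j).1)).natAbs :=
          (prod_pow_eq_pow_sum _ _ _).symm
        rw [e1, e2, ← prod_mul_distrib]
        refine prod_le_prod' fun j _ => two_pow_clog_le _ ?_
        exact Int.natAbs_pos.2 (hne _ _ fun h => (h2 j).1 h.symm)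
      exact_mod_cast h8
    calc (2 : ℝ) ^ (∑ i, (e i : ℤ) * z ⟨i, a i⟩) ≤ (2 : ℝ) ^ (∑ j : Cop e, wt v j.1 (σ j).1) :=
          zpow_le_zpow_right₀ one_le_two hsum
      _ ≤ _ := h6
      _ ≤ _ := by
          have h9 := hH σ
          gcongr

end

end Pool.Agent.Y714.ML
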