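import Mathlib

set_option autoImplicit false

/-! Hall's theorem for dense relations, and integer potentials for the assignment problem. -/

namespace Pool.Agent.Y714.ML

open Finset

section

variable {J : Type} [Fintype J] [DecidableEq J]

/-- a symmetric relation with all degrees at least half of the number of elements contains
a permutation -/
theorem exists_perm_of_dense (far : J → J → Prop) [DecidableRel far]
    (hs : ∀ j k, far j k → far k j)
    (hd : ∀ j, 2 * (univ.filter fun k => ¬ far j k).card ≤ Fintype.card J) :
    ∃ σ : Equiv.Perm J, ∀ j, far j (σ j) := by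
  classical
  have key : ∀ s : Finset J, s.card ≤ (s.biUnion fun j => univ.filter fun k => far j k).card := by
    intro s
    by_cases h0 : s.Nonempty
    · by_cases h1 : 2 * s.card ≤ Fintype.card J
      · obtain ⟨j, hj⟩ := h0
        have h2 : (univ.filter fun k => far j k).card ≤
            (s.biUnion fun j => univ.filter fun k => far j k).card :=
          card_le_card (fun k hk => mem_biUnion.2 ⟨j, hj, hk⟩)
        have h3 := Finset.card_filter_add_card_filter_not (s := (univ : Finset J)) (fun k => far j k)
        rw [Finset.card_univ] at h3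
        have h4 := hd j
        omega
      · have h2 : (s.biUnion fun j => univ.filter fun k => far j k) = univ := by
          ext k
          simp only [mem_biUnion, mem_filter, mem_univ, true_and, iff_true]
          by_contra hcon
          push Not at hcon
          have h3 : s ⊆ univ.filter fun j => ¬ far k j := by
            intro j hj
            simp only [mem_filter, mem_univ, true_and]
            exact fun h => hcon j hj (hs _ _ h)
          have h4 := card_le_card h3
          have h5 := hd k
          omega
        rw [h2]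
        exact card_le_card (subset_univ _)
    · rw [Finset.not_nonempty_iff_eq_empty.1 h0]
      simp
  obtain ⟨f, hf, hf2⟩ := (Finset.all_card_le_biUnion_card_iff_exists_injective _).1 key
  refine ⟨Equiv.ofBijective f (Finite.injective_iff_bijective.1 hf), fun j => ?_⟩
  have := hf2 j
  simpa using this

/-- Integer potentials (Kuhn, Egervary): for a symmetric integer weight on a symmetric relation
with a perfect matching there are integers `z` with `2 W ≤ z + z` and a permutation of
tight pairs. -/
theorem exists_potential (A : J → J → Prop) [DecidableRel A] (hA : ∀ j k, A j k → A k j)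
    (W : J → J → ℤ) (hW : ∀ j k, W j k = W k j) (τ : Equiv.Perm J) (hτ : ∀ j, A j (τ j)) :
    ∃ (z : J → ℤ) (σ : Equiv.Perm J), (∀ j k, A j k → 2 * W j k ≤ z j + z k) ∧
      (∀ j, A j (σ j) ∧ z j + z (σ j) = 2 * W j (σ j)) := by
  classical
  -- feasible pairs
  let F : (J → ℤ) × (J → ℤ) → Prop := fun p => ∀ j k, A j k → W j k ≤ p.1 j + p.2 k
  let P : ℤ → Prop := fun s => ∃ p, F p ∧ s = ∑ j, p.1 j + ∑ j, p.2 j
  have hbdd : ∃ b, ∀ s, P s → b ≤ s := by
    refine ⟨∑ j, W j (τ j), ?_⟩
    rintro s ⟨p, hp, rfl⟩
    have h1 : ∑ j, p.2 j = ∑ j, p.2 (τ j) := (Equiv.sum_comp τ p.2).symm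
    rw [h1, ← sum_add_distrib]
    exact sum_le_sum fun j _ => hp j (τ j) (hτ j)
  have hne : ∃ s, P s := by
    refine ⟨_, ⟨fun j => ∑ k, |W j k|, fun _ => 0⟩, ?_, rfl⟩
    intro j k _
    simp only [add_zero]
    exact (le_abs_self _).trans
      (single_le_sum (f := fun k => |W j k|) (fun i _ => abs_nonneg _) (mem_univ k))
  obtain ⟨s0, ⟨p, hp, hs0⟩, hmin⟩ := Int.exists_least_of_bdd hbdd hne
  -- Hall for the tight relation
  have key : ∀ s : Finset J, s.card ≤
      (s.biUnion fun j => univ.filter fun k => A j k ∧ p.1 j + p.2 k = W j k).card := by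
    intro s
    by_contra hcon
    push Not at hcon
    set t := s.biUnion fun j => univ.filter fun k => A j k ∧ p.1 j + p.2 k = W j k with ht
    let q : (J → ℤ) × (J → ℤ) :=
      ⟨fun j => p.1 j - (if j ∈ s then 1 else 0), fun k => p.2 k + (if k ∈ t then 1 else 0)⟩
    have hq : F q := by
      intro j k hjk
      have h1 := hp j k hjk
      simp only [q]
      by_cases hj : j ∈ s
      · by_cases hk : k ∈ t
        · simp only [hj, hk, if_true]
          omega
        · simp only [hj, hk, if_true, if_false]
          have h2 : p.1 j + p.2 k ≠ W j k := by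
            intro h
            apply hk
            rw [ht, mem_biUnion]
            exact ⟨j, hj, by simp [hjk, h]⟩
          omega
      · simp only [hj, if_false]
        split_ifs <;> omega
    have h3 := hmin _ ⟨q, hq, rfl⟩
    have h4 : ∑ j, q.1 j = ∑ j, p.1 j - s.card := by
      simp only [q, sum_sub_distrib]
      simp
    have h5 : ∑ j, q.2 j = ∑ j, p.2 j + t.card := by
      simp only [q, sum_add_distrib]
      simp
    rw [h4, h5, hs0] at h3
    have h6 : (t.card : ℤ) < s.card := by exact_mod_cast hcon
    omega
  obtain ⟨f, hf, hf2⟩ := (Finset.all_card_le_biUnion_card_iff_exists_injective _).1 key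
  let σ : Equiv.Perm J := Equiv.ofBijective f (Finite.injective_iff_bijective.1 hf)
  have hσ : ∀ j, A j (σ j) ∧ p.1 j + p.2 (σ j) = W j (σ j) := by
    intro j
    have h7 := hf2 j
    rw [mem_filter] at h7
    exact h7.2
  refine ⟨fun j => p.1 j + p.2 j, σ, ?_, ?_⟩
  · intro j k hjk
    have h1 := hp j k hjk
    have h2 := hp k j (hA j k hjk)
    rw [hW k j] at h2
    simp only
    omega
  · -- termwise equality
    have hge : ∀ j, 2 * W j (σ j) ≤ (p.1 j + p.2 j) + (p.1 (σ j) + p.2 (σ j)) := by
      intro j
      have h1 := hp j (σ j) (hσ j).1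
      have h2 := hp (σ j) j (hA _ _ (hσ j).1)
      rw [hW (σ j) j] at h2
      omega
    have hsum : ∑ j, ((p.1 j + p.2 j) + (p.1 (σ j) + p.2 (σ j))) = ∑ j, 2 * W j (σ j) := by
      have e1 : ∑ j, p.1 (σ j) = ∑ j, p.1 j := Equiv.sum_comp σ p.1
      have e2 : ∑ j, p.2 (σ j) = ∑ j, p.2 j := Equiv.sum_comp σ p.2
      have e3 : ∑ j, W j (σ j) = ∑ j, p.1 j + ∑ j, p.2 j := by
        rw [← e2, ← sum_add_distrib]
        exact sum_congr rfl fun j _ => (hσ j).2.symm
      rw [← mul_sum, e3]
      simp only [sum_add_distrib, e1, e2]
      ring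
    have heq := (sum_eq_sum_iff_of_le (fun j _ => hge j)).1 hsum.symm
    intro j
    exact ⟨(hσ j).1, (heq j (mem_univ j)).symm⟩

end

end Pool.Agent.Y714.ML
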