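import Pool.Agent.Y714.ML.Cfg
import Pool.Agent.Y714.ML.Fin

set_option autoImplicit false
set_option linter.unusedSectionVars false
set_option linter.unusedSimpArgs false

/-! The configurations `∞, 0, 1, t_1, ..., t_N` with good models. -/

namespace Pool.Agent.Y714.ML

open Finset

theorem rep_cr {N : ℕ} (w : Fin 3 ⊕ Fin N → ℤ × ℤ) (h : ∀ i j, i ≠ j → dt (w i) (w j) ≠ 0) :
    Rep (vec (cr w)) w := by
  set w0 := w (Sum.inl 0) with hw0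
  set w1 := w (Sum.inl 1) with hw1
  set w2 := w (Sum.inl 2) with hw2
  have h01 : ((dt w0 w1 : ℤ) : ℚ) ≠ 0 := by exact_mod_cast h (Sum.inl 0) (Sum.inl 1) (by simp)
  have h02 : ((dt w0 w2 : ℤ) : ℚ) ≠ 0 := by exact_mod_cast h (Sum.inl 0) (Sum.inl 2) (by simp)
  have h21 : ((dt w2 w1 : ℤ) : ℚ) ≠ 0 := by exact_mod_cast h (Sum.inl 2) (Sum.inl 1) (by simp)
  have h12 : ((dt w1 w2 : ℤ) : ℚ) = - ((dt w2 w1 : ℤ) : ℚ) := by rw [dt_comm w2 w1]; push_cast; rfl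
  refine ⟨(dt w2 w1 : ℤ) * (w0.1 : ℤ), (dt w0 w2 : ℤ) * (w1.1 : ℤ), (dt w2 w1 : ℤ) * (w0.2 : ℤ),
    (dt w0 w2 : ℤ) * (w1.2 : ℤ), ?_, fun i => match i with
      | Sum.inl i => ![1 / ((dt w2 w1 : ℤ) : ℚ), 1 / ((dt w0 w2 : ℤ) : ℚ), 1 / ((dt w0 w1 : ℤ) : ℚ)] i
      | Sum.inr j => (dt w0 (w (Sum.inr j)) : ℤ) / ((dt w0 w2 : ℤ) * (dt w0 w1 : ℤ)), ?_, ?_⟩
  · have : ((dt w2 w1 : ℤ) : ℚ) * (w0.1 : ℤ) * ((dt w0 w2 : ℤ) * (w1.2 : ℤ)) -
        (dt w0 w2 : ℤ) * (w1.1 : ℤ) * ((dt w2 w1 : ℤ) * (w0.2 : ℤ)) =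
        ((dt w2 w1 : ℤ) : ℚ) * ((dt w0 w2 : ℤ) : ℚ) * ((dt w0 w1 : ℤ) : ℚ) := by
      have e : ((dt w0 w1 : ℤ) : ℚ) = (w0.1 : ℚ) * w1.2 - w0.2 * w1.1 := by
        unfold dt; push_cast; rfl
      rw [e]; ring
    rw [this]
    exact mul_ne_zero (mul_ne_zero h21 h02) h01
  · rintro (i | j)
    · fin_cases i
      · simpa using h21
      · simpa using h02
      · simpa using h01
    · have h0j : ((dt w0 (w (Sum.inr j)) : ℤ) : ℚ) ≠ 0 := by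
        exact_mod_cast h (Sum.inl 0) (Sum.inr j) (by simp)
      exact div_ne_zero h0j (mul_ne_zero h02 h01)
  · rintro (i | j)
    · fin_cases i
      · simp only [vec]
        simp only [Fin.zero_eta, Matrix.cons_val_zero, mul_one, mul_zero, add_zero]
        constructor
        · field_simp
          rw [← hw0]
        · field_simp
          rw [← hw0]
      · simp only [vec]
        simp only [Fin.mk_one, Matrix.cons_val_one, Matrix.cons_val_zero, mul_one, mul_zero, zero_add]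
        constructor
        · field_simp
          rw [← hw1]
        · field_simp
          rw [← hw1]
      · simp only [vec]
        have e1 : ((dt w2 w1 : ℤ) : ℚ) * w0.1 + (dt w0 w2 : ℤ) * w1.1 = (dt w0 w1 : ℤ) * w2.1 := by
          unfold dt; push_cast; ring
        have e2 : ((dt w2 w1 : ℤ) : ℚ) * w0.2 + (dt w0 w2 : ℤ) * w1.2 = (dt w0 w1 : ℤ) * w2.2 := by
          unfold dt; push_cast; ring
        simp only [Fin.reduceFinMk, Matrix.cons_val, mul_one]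
        constructor
        · rw [e1]
          field_simp
          rw [← hw2]
        · rw [e2]
          field_simp
          rw [← hw2]
    · set wj := w (Sum.inr j) with hwj
      have h0j : ((dt w0 wj : ℤ) : ℚ) ≠ 0 := by
        exact_mod_cast h (Sum.inl 0) (Sum.inr j) (by simp)
      have ht : cr w j = - ((dt w1 wj : ℤ) : ℚ) * (dt w0 w2 : ℤ) / ((dt w0 wj : ℤ) * (dt w2 w1 : ℤ)) := by
        unfold cr
        rw [← hwj, ← hw0, ← hw1, ← hw2]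
        push_cast
        rw [h12]
        field_simp
      have e1 : - ((dt w1 wj : ℤ) : ℚ) * w0.1 + (dt w0 wj : ℤ) * w1.1 = (dt w0 w1 : ℤ) * wj.1 := by
        unfold dt; push_cast; ring
      have e2 : - ((dt w1 wj : ℤ) : ℚ) * w0.2 + (dt w0 wj : ℤ) * w1.2 = (dt w0 w1 : ℤ) * wj.2 := by
        unfold dt; push_cast; ring
      simp only [vec, mul_one]
      rw [ht]
      constructor
      · have e3 : ((dt w2 w1 : ℤ) : ℚ) * w0.1 *
            (- ((dt w1 wj : ℤ) : ℚ) * (dt w0 w2 : ℤ) / ((dt w0 wj : ℤ) * (dt w2 w1 : ℤ))) +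
            (dt w0 w2 : ℤ) * w1.1 = ((dt w0 w2 : ℤ) / (dt w0 wj : ℤ)) *
            (- ((dt w1 wj : ℤ) : ℚ) * w0.1 + (dt w0 wj : ℤ) * w1.1) := by
          field_simp
        rw [e3, e1]
        field_simp
        rw [← hwj]
      · have e3 : ((dt w2 w1 : ℤ) : ℚ) * w0.2 *
            (- ((dt w1 wj : ℤ) : ℚ) * (dt w0 w2 : ℤ) / ((dt w0 wj : ℤ) * (dt w2 w1 : ℤ))) +
            (dt w0 w2 : ℤ) * w1.2 = ((dt w0 w2 : ℤ) / (dt w0 wj : ℤ)) *
            (- ((dt w1 wj : ℤ) : ℚ) * w0.2 + (dt w0 wj : ℤ) * w1.2) := by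
          field_simp
        rw [e3, e2]
        field_simp
        rw [← hwj]

theorem cr_mem {N : ℕ} (w : Fin 3 ⊕ Fin N → ℤ × ℤ) (h : ∀ i j, i ≠ j → dt (w i) (w j) ≠ 0) :
    cr w ∈ UU N := by
  obtain ⟨D, κ, hD, hκ, h1⟩ := (rep_cr w h).det
  have key : ∀ i j, i ≠ j → detQ (vec (cr w) i) (vec (cr w) j) ≠ 0 := by
    intro i j hij h0
    have h2 := h1 i j
    rw [h0, mul_zero] at h2
    exact h i j hij (by exact_mod_cast h2)
  refine ⟨fun j k hjk => ?_, fun j => ⟨fun h0 => ?_, fun h0 => ?_⟩⟩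
  · by_contra hne
    refine key (Sum.inr j) (Sum.inr k) (fun e => hne (Sum.inr.inj e)) ?_
    simp only [vec, detQ]
    rw [hjk]; ring
  · refine key (Sum.inl 1) (Sum.inr j) (by simp) ?_
    simp [vec, detQ, h0]
  · refine key (Sum.inl 2) (Sum.inr j) (by simp) ?_
    simp [vec, detQ, h0]

/-! ### the cells -/

/-- the corners of the cells -/
def mm (N : ℕ) : Fin 3 ⊕ Fin N → ℕ × ℕ
  | Sum.inl i => ![(16, 0), (0, 16), (16, 16)] i
  | Sum.inr _ => (16, 16)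

theorem WW_bd (P N : ℕ) (m ρ : ℕ × ℕ) (hρ : Res ρ) (hP : 0 < P) (z : ℕ × ℕ)
    (hz : z ∈ range N ×ˢ range N) :
    ((m.1 * (P * N) : ℕ) : ℤ) ≤ (WW P N m ρ z).1 ∧ (WW P N m ρ z).1 ≤ (((m.1 + 1) * (P * N) : ℕ) : ℤ) ∧
    ((m.2 * (P * N) : ℕ) : ℤ) ≤ (WW P N m ρ z).2 ∧ (WW P N m ρ z).2 ≤ (((m.2 + 1) * (P * N) : ℕ) : ℤ) := by
  have hz' := mem_product.1 hz
  have h1 := mem_range.1 hz'.1
  have h2 := mem_range.1 hz'.2
  have h3 : ρ.1 ≤ 1 ∧ ρ.2 ≤ 1 := by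
    rcases hρ with h | h | h <;> rw [h] <;> norm_num
  have key : ∀ a x ρ' : ℕ, x < N → ρ' ≤ 1 → a * (P * N) ≤ P * (a * N + x) + ρ' ∧
      P * (a * N + x) + ρ' ≤ (a + 1) * (P * N) := by
    intro a x ρ' hx hρ'
    constructor
    · nlinarith
    · have e2 : P * (x + 1) ≤ P * N := Nat.mul_le_mul_left _ (by omega)
      nlinarith
  have k1 := key m.1 z.1 ρ.1 h1 h3.1
  have k2 := key m.2 z.2 ρ.2 h2 h3.2
  unfold WW
  refine ⟨?_, ?_, ?_, ?_⟩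
  · change _ ≤ ((P : ℤ) * (m.1 * N + z.1) + ρ.1)
    exact_mod_cast k1.1
  · change ((P : ℤ) * (m.1 * N + z.1) + ρ.1) ≤ _
    exact_mod_cast k1.2
  · change _ ≤ ((P : ℤ) * (m.2 * N + z.2) + ρ.2)
    exact_mod_cast k2.1
  · change ((P : ℤ) * (m.2 * N + z.2) + ρ.2) ≤ _
    exact_mod_cast k2.2

theorem dt_bd (x y : ℤ × ℤ) (X Y : ℤ) (hX : 0 < X) (hY : 0 < Y) (a b c d a' b' c' d' : ℤ)
    (hc0 : 0 ≤ c) (ha'0 : 0 ≤ a')
    (hb0 : 0 ≤ b) (ha0 : 0 ≤ a)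
    (h1 : a * X ≤ x.1) (h2 : x.1 ≤ a' * X) (h3 : b * X ≤ x.2) (h4 : x.2 ≤ b' * X)
    (h5 : c * Y ≤ y.1) (h6 : y.1 ≤ c' * Y) (h7 : d * Y ≤ y.2) (h8 : y.2 ≤ d' * Y)
    (hd0 : 0 ≤ d) :
    (a * d - b' * c') * (X * Y) ≤ dt x y ∧ dt x y ≤ (a' * d' - b * c) * (X * Y) := by
  have x1 : 0 ≤ x.1 := le_trans (by positivity) h1
  have x2 : 0 ≤ x.2 := le_trans (by positivity) h3
  have y1 : 0 ≤ y.1 := le_trans (by positivity) h5
  have y2 : 0 ≤ y.2 := le_trans (by positivity) h7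
  have e1 : a * X * (d * Y) ≤ x.1 * y.2 := mul_le_mul h1 h7 (by positivity) x1
  have e2 : x.2 * y.1 ≤ b' * X * (c' * Y) := mul_le_mul h4 h6 y1 (x2.trans h4)
  have e3 : x.1 * y.2 ≤ a' * X * (d' * Y) := mul_le_mul h2 h8 y2 (x1.trans h2)
  have e4 : b * X * (c * Y) ≤ x.2 * y.1 := mul_le_mul h3 h5 (by positivity) x2
  unfold dt
  constructor <;> nlinarith

end Pool.Agent.Y714.ML
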