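import Pool.Agent.Y714.ML.Inj

set_option autoImplicit false
set_option linter.unusedSectionVars false
set_option linter.unusedSimpArgs false

/-! Injectivity of the parametrization. -/

namespace Pool.Agent.Y714.ML

open Finset

theorem exp_le (P a b a' b' : ℕ) (hP : 0 < P) (D : ℤ)
    (h1 : 239 * ((P * 2 ^ a : ℕ) * (P * 2 ^ b : ℕ) : ℤ) ≤ D)
    (h2 : D ≤ 289 * ((P * 2 ^ a' : ℕ) * (P * 2 ^ b' : ℕ) : ℤ)) : a + b ≤ a' + b' := by
  by_contra hc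
  push Not at hc
  have h3 : 239 * ((P * 2 ^ a) * (P * 2 ^ b)) ≤ 289 * ((P * 2 ^ a') * (P * 2 ^ b')) := by
    exact_mod_cast h1.trans h2
  have h4 : 2 ^ (a' + b' + 1) ≤ 2 ^ (a + b) := Nat.pow_le_pow_right (by norm_num) hc
  have e1 : (P * 2 ^ a) * (P * 2 ^ b) = P ^ 2 * 2 ^ (a + b) := by rw [pow_add]; ring
  have e2 : (P * 2 ^ a') * (P * 2 ^ b') = P ^ 2 * 2 ^ (a' + b') := by rw [pow_add]; ring
  rw [e1, e2] at h3
  have h5 : 0 < P ^ 2 * 2 ^ (a' + b') := by positivity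
  have h6 : P ^ 2 * 2 ^ (a' + b' + 1) ≤ P ^ 2 * 2 ^ (a + b) := Nat.mul_le_mul_left _ h4
  rw [pow_succ 2 (a' + b')] at h6
  nlinarith

theorem exp_eq (P a b a' b' : ℕ) (hP : 0 < P) (D D' : ℤ) (hDD : |D| = |D'|)
    (h1 : 239 * ((P * 2 ^ a : ℕ) * (P * 2 ^ b : ℕ) : ℤ) ≤ |D|)
    (h2 : |D| ≤ 289 * ((P * 2 ^ a : ℕ) * (P * 2 ^ b : ℕ) : ℤ))
    (h1' : 239 * ((P * 2 ^ a' : ℕ) * (P * 2 ^ b' : ℕ) : ℤ) ≤ |D'|)
    (h2' : |D'| ≤ 289 * ((P * 2 ^ a' : ℕ) * (P * 2 ^ b' : ℕ) : ℤ)) : a + b = a' + b' := by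
  apply le_antisymm
  · exact exp_le P a b a' b' hP |D| h1 (hDD ▸ h2')
  · exact exp_le P a' b' a b hP |D'| h1' (hDD ▸ h2)

/-- bounds for a vector of the first, second and third kind -/
def T0 (x : ℤ × ℤ) (X : ℤ) : Prop := 16 * X ≤ x.1 ∧ x.1 ≤ 17 * X ∧ 0 ≤ x.2 ∧ x.2 ≤ X
def T1 (x : ℤ × ℤ) (X : ℤ) : Prop := 0 ≤ x.1 ∧ x.1 ≤ X ∧ 16 * X ≤ x.2 ∧ x.2 ≤ 17 * X
def T2 (x : ℤ × ℤ) (X : ℤ) : Prop := 16 * X ≤ x.1 ∧ x.1 ≤ 17 * X ∧ 16 * X ≤ x.2 ∧ x.2 ≤ 17 * X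

theorem bd01 (x y : ℤ × ℤ) (X Y : ℤ) (hX : 0 < X) (hY : 0 < Y) (hx : T0 x X) (hy : T1 y Y) :
    255 * (X * Y) ≤ dt x y ∧ dt x y ≤ 289 * (X * Y) := by
  have := dt_bd x y X Y hX hY 16 0 0 16 17 1 1 17 (by norm_num) (by norm_num) (by norm_num)
    (by norm_num) hx.1 hx.2.1 (by linarith [hx.2.2.1]) (by linarith [hx.2.2.2]) (by linarith [hy.1])
    (by linarith [hy.2.1]) hy.2.2.1 hy.2.2.2 (by norm_num)
  constructor <;> linarith [this.1, this.2]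

theorem bd02 (x y : ℤ × ℤ) (X Y : ℤ) (hX : 0 < X) (hY : 0 < Y) (hx : T0 x X) (hy : T2 y Y) :
    239 * (X * Y) ≤ dt x y ∧ dt x y ≤ 289 * (X * Y) := by
  have := dt_bd x y X Y hX hY 16 0 16 16 17 1 17 17 (by norm_num) (by norm_num) (by norm_num)
    (by norm_num) hx.1 hx.2.1 (by linarith [hx.2.2.1]) (by linarith [hx.2.2.2]) hy.1
    hy.2.1 hy.2.2.1 hy.2.2.2 (by norm_num)
  constructor <;> linarith [this.1, this.2]

theorem bd12 (x y : ℤ × ℤ) (X Y : ℤ) (hX : 0 < X) (hY : 0 < Y) (hx : T1 x X) (hy : T2 y Y) :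
    -(289 * (X * Y)) ≤ dt x y ∧ dt x y ≤ -(239 * (X * Y)) := by
  have := dt_bd x y X Y hX hY 0 16 16 16 1 17 17 17 (by norm_num) (by norm_num) (by norm_num)
    (by norm_num) (by linarith [hx.1]) (by linarith [hx.2.1]) hx.2.2.1 hx.2.2.2 hy.1
    hy.2.1 hy.2.2.1 hy.2.2.2 (by norm_num)
  constructor <;> linarith [this.1, this.2]

theorem abs01 (x y : ℤ × ℤ) (X Y : ℤ) (hX : 0 < X) (hY : 0 < Y) (hx : T0 x X) (hy : T1 y Y) :
    239 * (X * Y) ≤ |dt x y| ∧ |dt x y| ≤ 289 * (X * Y) := by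
  obtain ⟨h1, h2⟩ := bd01 x y X Y hX hY hx hy
  have h3 : 0 < X * Y := mul_pos hX hY
  rw [abs_of_nonneg (by linarith)]
  constructor <;> linarith

theorem abs02 (x y : ℤ × ℤ) (X Y : ℤ) (hX : 0 < X) (hY : 0 < Y) (hx : T0 x X) (hy : T2 y Y) :
    239 * (X * Y) ≤ |dt x y| ∧ |dt x y| ≤ 289 * (X * Y) := by
  obtain ⟨h1, h2⟩ := bd02 x y X Y hX hY hx hy
  have h3 : 0 < X * Y := mul_pos hX hY
  rw [abs_of_nonneg (by linarith)]
  constructor <;> linarith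

theorem abs12 (x y : ℤ × ℤ) (X Y : ℤ) (hX : 0 < X) (hY : 0 < Y) (hx : T1 x X) (hy : T2 y Y) :
    239 * (X * Y) ≤ |dt x y| ∧ |dt x y| ≤ 289 * (X * Y) := by
  obtain ⟨h1, h2⟩ := bd12 x y X Y hX hY hx hy
  have h3 : 0 < X * Y := mul_pos hX hY
  rw [abs_of_nonpos (by linarith)]
  constructor <;> linarith

/-- the matrix between two normalized models is `± 1` -/
theorem mat_diag (w0 w1 v0 v1 : ℤ × ℤ) (X Y a b c d e0 e1 : ℤ) (hX : 0 < X) (hY : 0 < Y)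
    (h0 : T0 w0 X) (h1 : T1 w1 Y) (g0 : T0 v0 X) (g1 : T1 v1 Y) (he0 : e0 = 1 ∨ e0 = -1)
    (he1 : e1 = 1 ∨ e1 = -1) (hdet : a * d - b * c = 1 ∨ a * d - b * c = -1)
    (hv0 : v0 = (e0 * (a * w0.1 + b * w0.2), e0 * (c * w0.1 + d * w0.2)))
    (hv1 : v1 = (e1 * (a * w1.1 + b * w1.2), e1 * (c * w1.1 + d * w1.2))) :
    b = 0 ∧ c = 0 ∧ (a = 1 ∨ a = -1) ∧ (d = 1 ∨ d = -1) := by
  have hXY : 0 < X * Y := mul_pos hX hY
  obtain ⟨k1, k2⟩ := bd01 w0 w1 X Y hX hY h0 h1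
  have q0 : e0 * e0 = 1 := by rcases he0 with h | h <;> rw [h] <;> norm_num
  have q1 : e1 * e1 = 1 := by rcases he1 with h | h <;> rw [h] <;> norm_num
  have a0 : a * w0.1 + b * w0.2 = e0 * v0.1 := by rw [hv0]; simp only; rw [← mul_assoc, q0, one_mul]
  have a1 : c * w0.1 + d * w0.2 = e0 * v0.2 := by rw [hv0]; simp only; rw [← mul_assoc, q0, one_mul]
  have a2 : a * w1.1 + b * w1.2 = e1 * v1.1 := by rw [hv1]; simp only; rw [← mul_assoc, q1, one_mul]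
  have a3 : c * w1.1 + d * w1.2 = e1 * v1.2 := by rw [hv1]; simp only; rw [← mul_assoc, q1, one_mul]
  have ec : c * dt w0 w1 = e0 * (v0.2 * w1.2) - e1 * (v1.2 * w0.2) := by
    have : c * dt w0 w1 = (c * w0.1 + d * w0.2) * w1.2 - (c * w1.1 + d * w1.2) * w0.2 := by
      unfold dt; ring
    rw [this, a1, a3]; ring
  have eb : b * dt w0 w1 = e1 * (v1.1 * w0.1) - e0 * (v0.1 * w1.1) := by
    have : b * dt w0 w1 = (a * w1.1 + b * w1.2) * w0.1 - (a * w0.1 + b * w0.2) * w1.1 := by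
      unfold dt; ring
    rw [this, a0, a2]; ring
  obtain ⟨p1, p2, p3, p4⟩ := h0
  obtain ⟨r1, r2, r3, r4⟩ := h1
  obtain ⟨s1, s2, s3, s4⟩ := g0
  obtain ⟨t1, t2, t3, t4⟩ := g1
  have habs0 : |e0| = 1 := by rcases he0 with h | h <;> rw [h] <;> norm_num
  have habs1 : |e1| = 1 := by rcases he1 with h | h <;> rw [h] <;> norm_num
  have b1 : |v0.2 * w1.2| ≤ 17 * (X * Y) := by
    rw [abs_of_nonneg (mul_nonneg s3 (by linarith))]
    calc v0.2 * w1.2 ≤ X * (17 * Y) := mul_le_mul s4 r4 (by linarith) hX.le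
      _ = 17 * (X * Y) := by ring
  have b2 : |v1.2 * w0.2| ≤ 17 * (X * Y) := by
    rw [abs_of_nonneg (mul_nonneg (by linarith) p3)]
    calc v1.2 * w0.2 ≤ (17 * Y) * X := mul_le_mul t4 p4 p3 (by linarith)
      _ = 17 * (X * Y) := by ring
  have b3 : |v1.1 * w0.1| ≤ 17 * (X * Y) := by
    rw [abs_of_nonneg (mul_nonneg t1 (by linarith))]
    calc v1.1 * w0.1 ≤ Y * (17 * X) := mul_le_mul t2 p2 (by linarith) hY.le
      _ = 17 * (X * Y) := by ring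
  have b4 : |v0.1 * w1.1| ≤ 17 * (X * Y) := by
    rw [abs_of_nonneg (mul_nonneg (by linarith) r1)]
    calc v0.1 * w1.1 ≤ (17 * X) * Y := mul_le_mul s2 r2 r1 (by linarith)
      _ = 17 * (X * Y) := by ring
  have hc : c = 0 := by
    by_contra hne
    have c1 : 1 ≤ |c| := Int.one_le_abs hne
    have c2 : |c * dt w0 w1| ≤ 34 * (X * Y) := by
      rw [ec]
      refine (abs_sub _ _).trans ?_
      rw [abs_mul e0, abs_mul e1, habs0, habs1]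
      linarith
    rw [abs_mul, abs_of_nonneg (by linarith : 0 ≤ dt w0 w1)] at c2
    nlinarith
  have hb : b = 0 := by
    by_contra hne
    have c1 : 1 ≤ |b| := Int.one_le_abs hne
    have c2 : |b * dt w0 w1| ≤ 34 * (X * Y) := by
      rw [eb]
      refine (abs_sub _ _).trans ?_
      rw [abs_mul e0, abs_mul e1, habs0, habs1]
      linarith
    rw [abs_mul, abs_of_nonneg (by linarith : 0 ≤ dt w0 w1)] at c2
    nlinarith
  rw [hb, hc] at hdet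
  simp only [mul_zero, sub_zero] at hdet
  refine ⟨hb, hc, ?_, ?_⟩
  · rcases hdet with h | h
    · exact Int.isUnit_iff.1 (isUnit_of_dvd_one ⟨d, h.symm⟩)
    · exact Int.isUnit_iff.1 (isUnit_of_dvd_one ⟨-d, by linarith⟩)
  · rcases hdet with h | h
    · exact Int.isUnit_iff.1 (isUnit_of_dvd_one ⟨a, by linarith⟩)
    · exact Int.isUnit_iff.1 (isUnit_of_dvd_one ⟨-a, by linarith⟩)

theorem sgn_eq {e a x y : ℤ} (he : e = 1 ∨ e = -1) (ha : a = 1 ∨ a = -1) (hx : 0 < x) (hy : 0 < y)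
    (h : y = e * (a * x)) : e = a := by
  rcases he with h1 | h1 <;> rcases ha with h2 | h2 <;> rw [h1, h2] at h ⊢ <;> linarith

end Pool.Agent.Y714.ML
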