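import Pool.Agent.Y714.ML.Inj2

set_option autoImplicit false
set_option linter.unusedSectionVars false
set_option linter.unusedSimpArgs false

/-! Injectivity of the parametrization. -/

namespace Pool.Agent.Y714.ML

open Finset

/-- the residues -/
def rr (N : ℕ) : Fin 3 ⊕ Fin N → ℕ × ℕ
  | Sum.inl i => ![(1, 0), (0, 1), (1, 1)] i
  | Sum.inr j => ![(1, 0), (0, 1), (1, 1)] ⟨j.val % 3, Nat.mod_lt _ (by norm_num)⟩

section

variable {N P0 P : ℕ} {rk r r' : Fin 3 ⊕ Fin N → ℕ}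

theorem wv_T0 (h : Siz P0 P 16 rk r (mm N) (rr N)) {ω : Fin 3 ⊕ Fin N → ℕ × ℕ} (hω : ω ∈ bx r) :
    T0 (wv P r (mm N) (rr N) ω (Sum.inl 0)) (P * 2 ^ r (Sum.inl 0) : ℕ) := by
  have := WW_bd P (2 ^ r (Sum.inl 0)) (mm N (Sum.inl 0)) (rr N (Sum.inl 0)) (h.hρ _) h.Ppos
    (ω (Sum.inl 0)) (mem_bx hω _)
  simp only [mm, Matrix.cons_val_zero] at this
  obtain ⟨h1, h2, h3, h4⟩ := this
  unfold wv T0
  simp only [mm, Matrix.cons_val_zero]
  push_cast at h1 h2 h3 h4 ⊢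
  refine ⟨?_, ?_, ?_, ?_⟩ <;> linarith

theorem wv_T1 (h : Siz P0 P 16 rk r (mm N) (rr N)) {ω : Fin 3 ⊕ Fin N → ℕ × ℕ} (hω : ω ∈ bx r) :
    T1 (wv P r (mm N) (rr N) ω (Sum.inl 1)) (P * 2 ^ r (Sum.inl 1) : ℕ) := by
  have := WW_bd P (2 ^ r (Sum.inl 1)) (mm N (Sum.inl 1)) (rr N (Sum.inl 1)) (h.hρ _) h.Ppos
    (ω (Sum.inl 1)) (mem_bx hω _)
  simp only [mm, Matrix.cons_val_one, Matrix.cons_val_zero] at this
  obtain ⟨h1, h2, h3, h4⟩ := this
  unfold wv T1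
  simp only [mm, Matrix.cons_val_one, Matrix.cons_val_zero]
  push_cast at h1 h2 h3 h4 ⊢
  refine ⟨?_, ?_, ?_, ?_⟩ <;> linarith

theorem wv_T2 (h : Siz P0 P 16 rk r (mm N) (rr N)) {ω : Fin 3 ⊕ Fin N → ℕ × ℕ} (hω : ω ∈ bx r)
    (i : Fin 3 ⊕ Fin N) (hi : mm N i = (16, 16)) :
    T2 (wv P r (mm N) (rr N) ω i) (P * 2 ^ r i : ℕ) := by
  have := WW_bd P (2 ^ r i) (mm N i) (rr N i) (h.hρ _) h.Ppos (ω i) (mem_bx hω _)
  rw [hi] at this
  obtain ⟨h1, h2, h3, h4⟩ := this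
  unfold wv T2
  rw [hi]
  simp only at h1 h2 h3 h4 ⊢
  push_cast at h1 h2 h3 h4 ⊢
  refine ⟨?_, ?_, ?_, ?_⟩ <;> linarith

theorem Xpos (h : Siz P0 P 16 rk r (mm N) (rr N)) (i : Fin 3 ⊕ Fin N) :
    (0 : ℤ) < ((P * 2 ^ r i : ℕ) : ℤ) := by
  have := h.Ppos
  positivity

theorem inj_cr (h : Siz P0 P 16 rk r (mm N) (rr N)) (h' : Siz P0 P 16 rk r' (mm N) (rr N))
    {ω ω' : Fin 3 ⊕ Fin N → ℕ × ℕ} (hω : ω ∈ bx r) (hω' : ω' ∈ bx r')
    (hg : Good P0 P rk r (mm N) (rr N) ω) (hg' : Good P0 P rk r' (mm N) (rr N) ω')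
    (heq : cr (wv P r (mm N) (rr N) ω) = cr (wv P r' (mm N) (rr N) ω')) : r = r' ∧ ω = ω' := by
  have hR := rep_cr _ (h.dt_ne hω hg)
  have hR' := rep_cr _ (h'.dt_ne hω' hg')
  rw [← heq] at hR'
  obtain ⟨a, b, c, d, hdet, ε, hε, hmap⟩ := unique_model hR hR' hg.1 hg'.1 (h.str hω hg)
    (h'.str hω' hg') (by have := h.hn; omega)
  set w := wv P r (mm N) (rr N) ω with hw
  set v := wv P r' (mm N) (rr N) ω' with hv
  -- determinants agree up to sign
  have habs : ∀ i j, |dt (w i) (w j)| = |dt (v i) (v j)| := by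
    intro i j
    rw [hmap i, hmap j]
    have e1 : dt (ε i * (a * (w i).1 + b * (w i).2), ε i * (c * (w i).1 + d * (w i).2))
        (ε j * (a * (w j).1 + b * (w j).2), ε j * (c * (w j).1 + d * (w j).2)) =
        ε i * ε j * (a * d - b * c) * dt (w i) (w j) := by
      rw [dt_mk]; unfold dt; ring
    rw [e1, abs_mul, abs_mul, abs_mul]
    have e2 : |ε i| = 1 := by rcases hε i with e | e <;> rw [e] <;> norm_num
    have e3 : |ε j| = 1 := by rcases hε j with e | e <;> rw [e] <;> norm_num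
    have e4 : |a * d - b * c| = 1 := by rcases hdet with e | e <;> rw [e] <;> norm_num
    rw [e2, e3, e4]; ring
  have t0 := wv_T0 h hω
  have t1 := wv_T1 h hω
  have s0 := wv_T0 h' hω'
  have s1 := wv_T1 h' hω'
  rw [← hw] at t0 t1
  rw [← hv] at s0 s1
  -- the exponents
  have s01 : r (Sum.inl 0) + r (Sum.inl 1) = r' (Sum.inl 0) + r' (Sum.inl 1) := by
    have e1 := abs01 _ _ _ _ (Xpos h _) (Xpos h _) t0 t1
    have e2 := abs01 _ _ _ _ (Xpos h' _) (Xpos h' _) s0 s1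
    exact exp_eq P _ _ _ _ h.Ppos _ _ (habs (Sum.inl 0) (Sum.inl 1)) e1.1 e1.2 e2.1 e2.2
  have s0i : ∀ i, mm N i = (16, 16) → r (Sum.inl 0) + r i = r' (Sum.inl 0) + r' i := by
    intro i hi
    have t2 := wv_T2 h hω i hi
    have s2 := wv_T2 h' hω' i hi
    rw [← hw] at t2
    rw [← hv] at s2
    have e1 := abs02 _ _ _ _ (Xpos h _) (Xpos h _) t0 t2
    have e2 := abs02 _ _ _ _ (Xpos h' _) (Xpos h' _) s0 s2
    exact exp_eq P _ _ _ _ h.Ppos _ _ (habs (Sum.inl 0) i) e1.1 e1.2 e2.1 e2.2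
  have s1i : ∀ i, mm N i = (16, 16) → r (Sum.inl 1) + r i = r' (Sum.inl 1) + r' i := by
    intro i hi
    have t2 := wv_T2 h hω i hi
    have s2 := wv_T2 h' hω' i hi
    rw [← hw] at t2
    rw [← hv] at s2
    have e1 := abs12 _ _ _ _ (Xpos h _) (Xpos h _) t1 t2
    have e2 := abs12 _ _ _ _ (Xpos h' _) (Xpos h' _) s1 s2
    exact exp_eq P _ _ _ _ h.Ppos _ _ (habs (Sum.inl 1) i) e1.1 e1.2 e2.1 e2.2
  have hm2 : mm N (Sum.inl 2) = (16, 16) := rfl
  have hcase : ∀ i : Fin 3 ⊕ Fin N, i = Sum.inl 0 ∨ i = Sum.inl 1 ∨ mm N i = (16, 16) := by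
    rintro (i | j)
    · fin_cases i
      · left; rfl
      · right; left; rfl
      · right; right; rfl
    · right; right; rfl
  have hr0 : r (Sum.inl 0) = r' (Sum.inl 0) := by
    have := s0i _ hm2
    have := s1i _ hm2
    omega
  have hr1 : r (Sum.inl 1) = r' (Sum.inl 1) := by omega
  have hr : r = r' := by
    funext i
    rcases hcase i with e | e | e
    · rw [e]; exact hr0
    · rw [e]; exact hr1
    · have := s0i i e; omega
  subst hr
  -- the matrix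
  obtain ⟨hb, hc, ha, hd⟩ := mat_diag (w (Sum.inl 0)) (w (Sum.inl 1)) (v (Sum.inl 0)) (v (Sum.inl 1))
    _ _ a b c d _ _ (Xpos h _) (Xpos h _) t0 t1 s0 s1 (hε _) (hε _) hdet (hmap _) (hmap _)
  rw [hb, hc] at hmap
  simp only [zero_mul, add_zero, zero_add] at hmap
  have had : ∀ i, mm N i = (16, 16) → ε i = a ∧ ε i = d := by
    intro i hi
    have t2 := wv_T2 h hω i hi
    have s2 := wv_T2 h' hω' i hi
    rw [← hw] at t2
    rw [← hv] at s2
    have hX := Xpos h i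
    have e1 : (v i).1 = ε i * (a * (w i).1) := by rw [hmap i]
    have e2 : (v i).2 = ε i * (d * (w i).2) := by rw [hmap i]
    exact ⟨sgn_eq (hε i) ha (by linarith [t2.1]) (by linarith [s2.1]) e1,
      sgn_eq (hε i) hd (by linarith [t2.2.2.1]) (by linarith [s2.2.2.1]) e2⟩
  have hda : d = a := (had _ hm2).2.symm.trans (had _ hm2).1
  have hall : ∀ i, ε i = a := by
    intro i
    rcases hcase i with e | e | e
    · subst e
      have e1 : (v (Sum.inl 0)).1 = ε (Sum.inl 0) * (a * (w (Sum.inl 0)).1) := by rw [hmap]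
      have hX := Xpos h (Sum.inl 0)
      exact sgn_eq (hε _) ha (by linarith [t0.1]) (by linarith [s0.1]) e1
    · subst e
      have e1 : (v (Sum.inl 1)).2 = ε (Sum.inl 1) * (d * (w (Sum.inl 1)).2) := by rw [hmap]
      have hX := Xpos h (Sum.inl 1)
      rw [← hda]
      exact sgn_eq (hε _) hd (by linarith [t1.2.2.1]) (by linarith [s1.2.2.1]) e1
    · exact (had i e).1
  have haa : a * a = 1 := by rcases ha with e | e <;> rw [e] <;> norm_num
  have hvw : ∀ i, v i = w i := by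
    intro i
    rw [hmap i, hall i, hda, ← mul_assoc, ← mul_assoc, haa, one_mul, one_mul]
  refine ⟨rfl, ?_⟩
  funext i
  have h1 := hvw i
  rw [hw, hv] at h1
  unfold wv WW at h1
  rw [Prod.mk.injEq] at h1
  obtain ⟨h2, h3⟩ := h1
  have hP : (P : ℤ) ≠ 0 := by exact_mod_cast h.Ppos.ne'
  have h4 := mul_left_cancel₀ hP (add_right_cancel h2)
  have h5 := mul_left_cancel₀ hP (add_right_cancel h3)
  have h6 := add_left_cancel h4
  have h7 := add_left_cancel h5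
  exact Prod.ext (by exact_mod_cast h6.symm) (by exact_mod_cast h7.symm)

/-- the height of a good configuration -/
theorem hgt_good (h : Siz P0 P 16 rk r (mm N) (rr N)) {ω : Fin 3 ⊕ Fin N → ℕ × ℕ} (hω : ω ∈ bx r)
    (hg : Good P0 P rk r (mm N) (rr N) ω) :
    hgt (fun _ => 2) (vec (cr (wv P r (mm N) (rr N) ω))) ≤
      ((17 * P : ℕ) : ℝ) ^ (2 * (N + 3)) * 4 ^ ∑ i, r i := by
  have hR := rep_cr _ (h.dt_ne hω hg)
  have hstr := h.str hω hg
  have hnef : Nef (fun _ : Fin 3 ⊕ Fin N => 1) := by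
    intro S hS
    simp only [sum_const, smul_eq_mul, mul_one, Finset.card_univ]
    exact hS
  have h1 := hgt_le (fun _ => 1) hnef hR (fun p hp i => (hstr p hp i).le)
    (fun i => (((16 + 1) * P * 2 ^ r i : ℕ) : ℚ)) (fun i j => by
      have := h.abs_dt hω i j
      exact_mod_cast this)
  refine h1.trans (le_of_eq ?_)
  have h2 : ∏ i : Fin 3 ⊕ Fin N, (((16 + 1) * P * 2 ^ r i : ℕ) : ℚ) ^ (2 * 1) =
      ((17 * P : ℕ) : ℚ) ^ (2 * (N + 3)) * 4 ^ ∑ i, r i := by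
    have e1 : ∀ i, (((16 + 1) * P * 2 ^ r i : ℕ) : ℚ) ^ (2 * 1) = ((17 * P : ℕ) : ℚ) ^ 2 * 4 ^ r i := by
      intro i
      push_cast
      have : (4 : ℚ) ^ r i = (2 ^ r i) ^ 2 := by rw [← pow_mul, mul_comm, pow_mul]; norm_num
      rw [this]
      ring
    rw [prod_congr rfl fun i _ => e1 i, prod_mul_distrib, prod_const, prod_pow_eq_pow_sum,
      ← pow_mul, Finset.card_univ, Fintype.card_sum, Fintype.card_fin, Fintype.card_fin]
    congr 3
    ring
  rw [h2]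
  push_cast
  rfl

end

end Pool.Agent.Y714.ML
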