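import Pool.Agent.Y714.ML.Inj3

set_option autoImplicit false
set_option linter.unusedSectionVars false
set_option linter.unusedSimpArgs false

/-! The lower bound. -/

namespace Pool.Agent.Y714.ML

open Finset

theorem lin_le_two_pow (c L : ℕ) (hL : 4 * c + 2 ≤ L) : (L + 1) * c ≤ 2 ^ L := by
  obtain ⟨m, hm | hm⟩ : ∃ m, L = 2 * m ∨ L = 2 * m + 1 := ⟨L / 2, by omega⟩
  · have h1 : m < 2 ^ m := Nat.lt_two_pow_self
    have h2 : L + 1 ≤ 2 * 2 ^ m := by omega
    have h3 : 2 * c ≤ 2 ^ m := by omega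
    calc (L + 1) * c ≤ (2 * 2 ^ m) * c := Nat.mul_le_mul_right _ h2
      _ = 2 ^ m * (2 * c) := by ring
      _ ≤ 2 ^ m * 2 ^ m := Nat.mul_le_mul_left _ h3
      _ = 2 ^ L := by rw [hm, ← pow_add]; congr 1; ring
  · have h1 : m < 2 ^ m := Nat.lt_two_pow_self
    have h2 : L + 1 ≤ 2 * 2 ^ m := by omega
    have h3 : 2 * c ≤ 2 ^ m := by omega
    calc (L + 1) * c ≤ (2 * 2 ^ m) * c := Nat.mul_le_mul_right _ h2
      _ = 2 ^ m * (2 * c) := by ring
      _ ≤ 2 ^ m * 2 ^ m := Nat.mul_le_mul_left _ h3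
      _ ≤ 2 ^ L := by rw [hm, ← pow_add]; exact Nat.pow_le_pow_right (by norm_num) (by omega)

theorem exists_large (D P0 Q : ℕ) (hD : 0 < D) : ∃ K1 : ℕ, ∀ K, K1 ≤ K →
    (K + 1) * P0 ≤ 2 ^ (K / D) ∧ Q ≤ 2 ^ (K / D) ∧ 1 ≤ K / D := by
  refine ⟨D * (4 * (D * P0) + 2 + Q), fun K hK => ?_⟩
  have h1 : 4 * (D * P0) + 2 + Q ≤ K / D := (Nat.le_div_iff_mul_le hD).2 (by linarith)
  have h2 : K + 1 ≤ D * (K / D + 1) := Nat.lt_mul_div_succ K hD
  refine ⟨?_, ?_, by omega⟩
  · calc (K + 1) * P0 ≤ D * (K / D + 1) * P0 := Nat.mul_le_mul_right _ h2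
      _ = (K / D + 1) * (D * P0) := by ring
      _ ≤ 2 ^ (K / D) := lin_le_two_pow _ _ (by omega)
  · have h3 : K / D < 2 ^ (K / D) := Nat.lt_two_pow_self
    omega

section

variable {I : Type} [Fintype I] [DecidableEq I]

/-- the exponents -/
def ex (rk : I → ℕ) (l : I) (K L : ℕ) (s : I → ℕ) (i : I) : ℕ :=
  if i = l then K - ∑ j ∈ univ.erase l, (4 ^ (rk j + 1) * L + s j) else 4 ^ (rk i + 1) * L + s i

/-- the parameters of the exponents -/
def SS (l : I) (L : ℕ) : Finset (I → ℕ) := Fintype.piFinset fun i => if i = l then {0} else range L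

theorem card_SS (l : I) (L : ℕ) : (SS l L).card = L ^ (Fintype.card I - 1) := by
  unfold SS
  rw [Fintype.card_piFinset, ← mul_prod_erase univ _ (mem_univ l)]
  rw [if_pos rfl, card_singleton, one_mul]
  rw [prod_congr rfl (g := fun _ => L) fun i hi => ?_]
  · rw [prod_const, card_erase_of_mem (mem_univ l), Finset.card_univ]
  · rw [if_neg (ne_of_mem_erase hi), card_range]

theorem mem_SS {l : I} {L : ℕ} {s : I → ℕ} (h : s ∈ SS l L) :
    s l = 0 ∧ ∀ i, i ≠ l → s i < L := by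
  have h1 := Fintype.mem_piFinset.1 h
  refine ⟨?_, fun i hi => ?_⟩
  · have := h1 l
    rw [if_pos rfl, mem_singleton] at this
    exact this
  · have := h1 i
    rw [if_neg hi, mem_range] at this
    exact this

section

variable (rk : I → ℕ) (l : I) (n K L : ℕ) (s : I → ℕ) (hn : Fintype.card I = n)
  (hrk : Function.Injective rk) (hl : ∀ i, i ≠ l → rk i + 2 ≤ n) (hll : rk l + 1 = n)
  (hs : s ∈ SS l L) (hKL : (n + 4) * 4 ^ n * L ≤ K)

include hn hl hll hs hKL

theorem ex_sum_le : ∑ j ∈ univ.erase l, (4 ^ (rk j + 1) * L + s j) ≤ n * 4 ^ n * L := by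
  have h1 : ∀ j ∈ univ.erase l, 4 ^ (rk j + 1) * L + s j ≤ 4 ^ n * L := by
    intro j hj
    have hj' := ne_of_mem_erase hj
    have h2 := (mem_SS hs).2 j hj'
    have h3 := hl j hj'
    have h4 : 4 ^ (rk j + 2) ≤ 4 ^ n := Nat.pow_le_pow_right (by norm_num) h3
    have h5 : 1 ≤ 4 ^ (rk j + 1) := Nat.one_le_pow _ _ (by norm_num)
    have h6 : 4 ^ (rk j + 1) + 1 ≤ 4 ^ (rk j + 2) := by rw [pow_succ 4 (rk j + 1)]; omega
    calc 4 ^ (rk j + 1) * L + s j ≤ (4 ^ (rk j + 1) + 1) * L := by rw [add_mul]; omega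
      _ ≤ 4 ^ n * L := Nat.mul_le_mul_right _ (h6.trans h4)
  refine (sum_le_sum h1).trans ?_
  rw [sum_const, card_erase_of_mem (mem_univ l), Finset.card_univ, hn, smul_eq_mul, mul_assoc]
  exact Nat.mul_le_mul_right _ (Nat.sub_le _ _)

theorem ex_sum : ∑ i, ex rk l K L s i = K := by
  have h1 := ex_sum_le rk l n K L s hn hl hll hs hKL
  rw [← add_sum_erase univ _ (mem_univ l)]
  have h2 : ∑ i ∈ univ.erase l, ex rk l K L s i = ∑ j ∈ univ.erase l, (4 ^ (rk j + 1) * L + s j) :=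
    sum_congr rfl fun i hi => by
      unfold ex
      rw [if_neg (ne_of_mem_erase hi)]
  rw [h2]
  unfold ex
  rw [if_pos rfl]
  have h3 : n * 4 ^ n * L ≤ (n + 4) * 4 ^ n * L :=
    Nat.mul_le_mul_right _ (Nat.mul_le_mul_right _ (by omega))
  omega

theorem ex_ge (i : I) : 4 ^ (rk i + 1) * L ≤ ex rk l K L s i := by
  by_cases h : i = l
  · have h1 := ex_sum_le rk l n K L s hn hl hll hs hKL
    unfold ex
    rw [if_pos h, h, hll]
    have h2 : (n + 4) * 4 ^ n * L = n * 4 ^ n * L + 4 * (4 ^ n * L) := by ring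
    rw [h2] at hKL
    omega
  · unfold ex
    rw [if_neg h]
    omega

theorem ex_le (i : I) (h : i ≠ l) : ex rk l K L s i ≤ (4 ^ (rk i + 1) + 1) * L := by
  have h2 := (mem_SS hs).2 i h
  unfold ex
  rw [if_neg h, add_mul]
  omega

include hrk

theorem ex_two (i j : I) (hij : rk i < rk j) : ex rk l K L s i + L ≤ ex rk l K L s j := by
  have h1 : i ≠ l := by
    intro h
    by_cases h2 : j = l
    · rw [h, h2] at hij; exact lt_irrefl _ hij
    · have := hl j h2
      rw [h] at hij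
      omega
  have h2 := ex_le rk l n K L s hn hl hll hs hKL i h1
  have h3 := ex_ge rk l n K L s hn hl hll hs hKL j
  have h4 : 4 ^ (rk i + 2) ≤ 4 ^ (rk j + 1) := Nat.pow_le_pow_right (by norm_num) (by omega)
  have h5 : 4 ≤ 4 ^ (rk i + 1) := by
    calc 4 = 4 ^ 1 := by norm_num
      _ ≤ 4 ^ (rk i + 1) := Nat.pow_le_pow_right (by norm_num) (by omega)
  have h6 : 4 ^ (rk i + 1) + 2 ≤ 4 ^ (rk j + 1) := by
    rw [pow_succ 4 (rk i + 1)] at h4; omega
  have h7 := Nat.mul_le_mul_right L h6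
  have h8 : (4 ^ (rk i + 1) + 2) * L = (4 ^ (rk i + 1) + 1) * L + L := by ring
  omega

theorem ex_three (i j k : I) (hij : rk i < rk j) (hjk : rk j < rk k) :
    ex rk l K L s i + ex rk l K L s j + L ≤ ex rk l K L s k := by
  have h1 : ∀ i j, rk i < rk j → i ≠ l := by
    intro i j hij h
    by_cases h2 : j = l
    · rw [h, h2] at hij; exact lt_irrefl _ hij
    · have := hl j h2
      rw [h] at hij
      omega
  have h2 := ex_le rk l n K L s hn hl hll hs hKL i (h1 i j hij)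
  have h2' := ex_le rk l n K L s hn hl hll hs hKL j (h1 j k hjk)
  have h3 := ex_ge rk l n K L s hn hl hll hs hKL k
  have h4 : 4 ^ (rk j + 2) ≤ 4 ^ (rk k + 1) := Nat.pow_le_pow_right (by norm_num) (by omega)
  have h4' : 4 ^ (rk i + 1) ≤ 4 ^ (rk j + 1) := Nat.pow_le_pow_right (by norm_num) (by omega)
  have h5 : 4 ≤ 4 ^ (rk j + 1) := by
    calc 4 = 4 ^ 1 := by norm_num
      _ ≤ 4 ^ (rk j + 1) := Nat.pow_le_pow_right (by norm_num) (by omega)
  have h6 : 4 ^ (rk i + 1) + 4 ^ (rk j + 1) + 3 ≤ 4 ^ (rk k + 1) := by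
    rw [pow_succ 4 (rk j + 1)] at h4; omega
  have h7 := Nat.mul_le_mul_right L h6
  have h8 : (4 ^ (rk i + 1) + 4 ^ (rk j + 1) + 3) * L =
      (4 ^ (rk i + 1) + 1) * L + (4 ^ (rk j + 1) + 1) * L + L := by ring
  omega

end

theorem ex_inj (rk : I → ℕ) (l : I) (K L : ℕ) (s s' : I → ℕ) (hs : s ∈ SS l L) (hs' : s' ∈ SS l L)
    (h : ex rk l K L s = ex rk l K L s') : s = s' := by
  funext i
  by_cases hi : i = l
  · rw [hi, (mem_SS hs).1, (mem_SS hs').1]
  · have h1 := congrFun h i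
    unfold ex at h1
    rw [if_neg hi, if_neg hi] at h1
    omega

end

/-- the order of the points -/
def rkk (N : ℕ) : Fin 3 ⊕ Fin N → ℕ
  | Sum.inl i => i.val
  | Sum.inr j => 3 + j.val

theorem rkk_inj (N : ℕ) : Function.Injective (rkk N) := by
  rintro (i | i) (j | j) h
  · simp only [rkk] at h
    rw [Fin.ext h]
  · simp only [rkk] at h
    have := i.isLt
    omega
  · simp only [rkk] at h
    have := j.isLt
    omega
  · simp only [rkk] at h
    have : i = j := Fin.ext (by omega)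
    rw [this]

theorem rr_res (N : ℕ) (i : Fin 3 ⊕ Fin N) : Res (rr N i) := by
  rcases i with i | j
  · fin_cases i
    · left; rfl
    · right; left; rfl
    · right; right; rfl
  · have h : j.val % 3 = 0 ∨ j.val % 3 = 1 ∨ j.val % 3 = 2 := by omega
    unfold Res rr
    rcases h with h | h | h
    · left; simp [h]
    · right; left; simp [h]
    · right; right; simp [h]

/-- the class of a point -/
def cls (N : ℕ) : Fin 3 ⊕ Fin N → Fin 3
  | Sum.inl i => i
  | Sum.inr j => ⟨j.val % 3, Nat.mod_lt _ (by norm_num)⟩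

theorem rr_eq (N : ℕ) (i : Fin 3 ⊕ Fin N) : rr N i = ![(1, 0), (0, 1), (1, 1)] (cls N i) := by
  rcases i with i | j <;> rfl

theorem rr_cls (N : ℕ) (i j : Fin 3 ⊕ Fin N) (h : rr N j = rr N i) : cls N j = cls N i := by
  rw [rr_eq, rr_eq] at h
  have : Function.Injective (![(1, 0), (0, 1), (1, 1)] : Fin 3 → ℕ × ℕ) := by decide
  exact this h

theorem card_cls (N : ℕ) (hN : 2 ≤ N) (i : Fin 3 ⊕ Fin N) :
    2 * (univ.filter fun j => rr N j = rr N i).card < N + 3 := by
  have h1 : (univ.filter fun j => rr N j = rr N i).card ≤ (range ((N + 2) / 3 + 1)).card := by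
    refine card_le_card_of_injOn (fun j => match j with
      | Sum.inl _ => 0
      | Sum.inr j => j.val / 3 + 1) ?_ ?_
    · rintro (j | j) _
      · simp
      · simp only [coe_range, Set.mem_Iio]
        have := j.isLt
        omega
    · rintro (a | a) ha (b | b) hb hab
      · have h1 := rr_cls N i _ (mem_filter.1 (Finset.mem_coe.1 ha)).2
        have h2 := rr_cls N i _ (mem_filter.1 (Finset.mem_coe.1 hb)).2
        have h3 : a = b := h1.trans h2.symm
        rw [h3]
      · simp at hab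
      · simp at hab
      · have h1 := rr_cls N i _ (mem_filter.1 (Finset.mem_coe.1 ha)).2
        have h2 := rr_cls N i _ (mem_filter.1 (Finset.mem_coe.1 hb)).2
        have h3 := h1.trans h2.symm
        have h4 : a.val % 3 = b.val % 3 := congrArg Fin.val h3
        simp only at hab
        have h5 : a = b := Fin.ext (by omega)
        rw [h5]
  rw [card_range] at h1
  omega

end Pool.Agent.Y714.ML
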