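import Pool.Agent.Y714.ML.Low

set_option autoImplicit false
set_option linter.unusedSectionVars false
set_option linter.unusedSimpArgs false

/-! The lower bound: assembly. -/

namespace Pool.Agent.Y714.ML

open Finset

open Classical in
theorem low_K (N P0 P D K L : ℕ) (hN : 2 ≤ N) (hP : P = P0.factorial)
    (hP0 : 6 * (N + 3) + 8 * (N + 3) ^ 3 ≤ P0) (hD : D = (N + 3 + 4) * 4 ^ (N + 3))
    (hL : L = K / D) (h1 : (K + 1) * P0 ≤ 2 ^ L) (h2 : 2 * ((16 + 1) * P * P0) ≤ 2 ^ L)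
    (h3 : (17 * P) ^ 2 ≤ 2 ^ L) (h4 : 1 ≤ L)
    (hfin : {t ∈ UU N | hgt (fun _ => 2) (vec t) ≤ ((17 * P : ℕ) : ℝ) ^ (2 * (N + 3)) * 4 ^ K}.Finite) :
    (L : ℝ) ^ (N + 2) * (4 ^ K / 2) ≤
      {t ∈ UU N | hgt (fun _ => 2) (vec t) ≤ ((17 * P : ℕ) : ℝ) ^ (2 * (N + 3)) * 4 ^ K}.ncard := by
  have hPpos : 0 < P := by rw [hP]; exact Nat.factorial_pos _
  have hc : Fintype.card (Fin 3 ⊕ Fin N) = N + 3 := by
    rw [Fintype.card_sum, Fintype.card_fin, Fintype.card_fin]; ring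
  set l : Fin 3 ⊕ Fin N := Sum.inr ⟨N - 1, by omega⟩ with hl
  have hll : rkk N l + 1 = N + 3 := by
    simp only [hl, rkk]; omega
  have hrkl : ∀ i, i ≠ l → rkk N i + 2 ≤ N + 3 := by
    rintro (i | j) hi
    · simp only [rkk]
      have := i.isLt
      omega
    · simp only [rkk]
      have := j.isLt
      have hne : j.val ≠ N - 1 := by
        intro h
        apply hi
        rw [hl]
        congr 1
        exact Fin.ext h
      omega
  have hKL : (N + 3 + 4) * 4 ^ (N + 3) * L ≤ K := by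
    rw [← hD, hL]; exact Nat.mul_div_le K D
  set R : (Fin 3 ⊕ Fin N → ℕ) → Fin 3 ⊕ Fin N → ℕ := fun s => ex (rkk N) l K L s with hR
  have hsum : ∀ s ∈ SS l L, ∑ i, R s i = K := fun s hs =>
    ex_sum (rkk N) l (N + 3) K L s hc hrkl hll hs hKL
  have hge : ∀ s ∈ SS l L, ∀ i, L ≤ R s i := by
    intro s hs i
    refine le_trans ?_ (ex_ge (rkk N) l (N + 3) K L s hc hrkl hll hs hKL i)
    exact Nat.le_mul_of_pos_left _ (by positivity)
  have hpow : ∀ s ∈ SS l L, ∀ i, 2 ^ L ≤ 2 ^ R s i := fun s hs i =>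
    Nat.pow_le_pow_right (by norm_num) (hge s hs i)
  have hsiz : ∀ s ∈ SS l L, Siz P0 P 16 (rkk N) (R s) (mm N) (rr N) := by
    intro s hs
    refine ⟨hP, by norm_num, rkk_inj N, rr_res N, ?_, ?_, ?_, ?_, ?_, ?_, ?_⟩
    · rintro (i | j)
      · fin_cases i <;> simp [mm]
      · simp [mm]
    · rintro (i | j)
      · fin_cases i <;> simp [mm]
      · simp [mm]
    · rintro (i | j)
      · fin_cases i <;> simp [mm]
      · simp [mm]
    · intro i j hij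
      have := ex_two (rkk N) l (N + 3) K L s hc (rkk_inj N) hrkl hll hs hKL i j hij
      simp only [hR]
      omega
    · intro i j k hij hjk
      have h5 := ex_three (rkk N) l (N + 3) K L s hc (rkk_inj N) hrkl hll hs hKL i j k hij hjk
      calc (16 + 1) * P * 2 ^ R s i * ((16 + 1) * P * 2 ^ R s j)
          = (17 * P) ^ 2 * 2 ^ (R s i + R s j) := by rw [pow_add]; ring
        _ ≤ 2 ^ L * 2 ^ (R s i + R s j) := Nat.mul_le_mul_right _ h3
        _ = 2 ^ (R s i + R s j + L) := by rw [← pow_add]; congr 1; ring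
        _ ≤ 2 ^ R s k := Nat.pow_le_pow_right (by norm_num) h5
    · intro i
      rw [hc]
      exact card_cls N hN i
    · omega
  set G : (Fin 3 ⊕ Fin N → ℕ) → Finset (Fin 3 ⊕ Fin N → ℕ × ℕ) := fun s =>
    (bx (R s)).filter (Good P0 P (rkk N) (R s) (mm N) (rr N)) with hG
  have hGcard : ∀ s ∈ SS l L, (4 : ℝ) ^ K / 2 ≤ (G s).card := by
    intro s hs
    have hle : ∀ i, R s i ≤ K := fun i => by
      rw [← hsum s hs]
      exact single_le_sum (f := R s) (fun _ _ => Nat.zero_le _) (mem_univ i)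
    have h5 := card_good P0 P 16 K (by omega) hP (by norm_num) (rkk N) (R s) (mm N) (rr N)
      (hsiz s hs).hρ (hsiz s hs).hm1 (hsiz s hs).hm2 (hsiz s hs).hm hle
      (fun i => h1.trans (hpow s hs i)) (fun i => h2.trans (hpow s hs i)) (by rw [hc]; exact hP0)
    rw [card_bx, hsum s hs] at h5
    push_cast at h5
    exact h5
  -- the map
  set Z : Finset (Σ _ : (Fin 3 ⊕ Fin N → ℕ), Fin 3 ⊕ Fin N → ℕ × ℕ) := (SS l L).sigma G with hZ
  have hZcard : (L : ℝ) ^ (N + 2) * (4 ^ K / 2) ≤ Z.card := by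
    rw [hZ, card_sigma]
    push_cast
    have h5 : ∑ s ∈ SS l L, (4 : ℝ) ^ K / 2 ≤ ∑ s ∈ SS l L, ((G s).card : ℝ) := sum_le_sum hGcard
    rw [sum_const, nsmul_eq_mul, card_SS, hc] at h5
    push_cast at h5
    exact h5
  let f : (Σ _ : (Fin 3 ⊕ Fin N → ℕ), Fin 3 ⊕ Fin N → ℕ × ℕ) → (Fin N → ℚ) := fun z =>
    cr (wv P (R z.1) (mm N) (rr N) z.2)
  have hinj : Set.InjOn f (Z : Set _) := by
    rintro ⟨s, ω⟩ hz ⟨s', ω'⟩ hz' heq
    rw [Finset.mem_coe, hZ, mem_sigma] at hz hz'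
    simp only [hG, mem_filter] at hz hz'
    obtain ⟨h5, h6⟩ := inj_cr (hsiz s hz.1) (hsiz s' hz'.1) hz.2.1 hz'.2.1 hz.2.2 hz'.2.2 heq
    have h7 := ex_inj (rkk N) l K L s s' hz.1 hz'.1 h5
    rw [h7, h6]
  have hsub : ((Z.image f : Finset (Fin N → ℚ)) : Set (Fin N → ℚ)) ⊆
      {t ∈ UU N | hgt (fun _ => 2) (vec t) ≤ ((17 * P : ℕ) : ℝ) ^ (2 * (N + 3)) * 4 ^ K} := by
    intro t ht
    rw [Finset.mem_coe, mem_image] at ht
    obtain ⟨⟨s, ω⟩, hz, rfl⟩ := ht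
    rw [hZ, mem_sigma] at hz
    simp only [hG, mem_filter] at hz
    refine ⟨cr_mem _ ((hsiz s hz.1).dt_ne hz.2.1 hz.2.2), ?_⟩
    have h5 := hgt_good (hsiz s hz.1) hz.2.1 hz.2.2
    rw [hsum s hz.1] at h5
    exact h5
  have h5 := Set.ncard_le_ncard hsub hfin
  rw [Set.ncard_coe_finset, card_image_of_injOn hinj] at h5
  refine hZcard.trans ?_
  exact_mod_cast h5

theorem lower_fin (N : ℕ) (hN : 2 ≤ N) :
    ∃ c : ℝ, 0 < c ∧ ∃ B0 : ℝ, ∀ B : ℝ, B0 ≤ B →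
      c * B * Real.log B ^ (N + 2) ≤ {t ∈ UU N | hgt (fun _ => 2) (vec t) ≤ B}.ncard := by
  have hfinall : ∀ B : ℝ, 1 ≤ B → {t ∈ UU N | hgt (fun _ => 2) (vec t) ≤ B}.Finite := by
    intro B hB
    obtain ⟨C, hC⟩ := upper_fin N (by omega) (fun _ => 1) (fun _ => by norm_num) (by
      intro i
      simp only [sum_const, smul_eq_mul, mul_one, Finset.card_univ, Fintype.card_sum,
        Fintype.card_fin]
      omega)
    have h1 := (hC (Real.sqrt B) (Real.one_le_sqrt.2 hB)).1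
    rw [Real.sq_sqrt (by linarith)] at h1
    exact h1
  obtain ⟨P0, hP0⟩ : ∃ P0 : ℕ, P0 = 6 * (N + 3) + 8 * (N + 3) ^ 3 := ⟨_, rfl⟩
  obtain ⟨P, hP⟩ : ∃ P : ℕ, P = P0.factorial := ⟨_, rfl⟩
  have hPpos : 0 < P := by rw [hP]; exact Nat.factorial_pos _
  obtain ⟨D, hD⟩ : ∃ D : ℕ, D = (N + 3 + 4) * 4 ^ (N + 3) := ⟨_, rfl⟩
  have hDpos : 0 < D := by rw [hD]; positivity
  obtain ⟨K1, hK1⟩ := exists_large D P0 (2 * ((16 + 1) * P * P0) + (17 * P) ^ 2) hDpos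
  obtain ⟨C0, hC0⟩ : ∃ C0 : ℝ, C0 = ((17 * P : ℕ) : ℝ) ^ (2 * (N + 3)) := ⟨_, rfl⟩
  have hC01 : 1 ≤ C0 := by
    rw [hC0]
    apply one_le_pow₀
    have : 1 ≤ 17 * P := by omega
    exact_mod_cast this
  obtain ⟨A, hA⟩ : ∃ A : ℝ, A = 2 * D * (Real.log C0 + 2) := ⟨_, rfl⟩
  have hlogC0 : 0 ≤ Real.log C0 := Real.log_nonneg hC01
  have hDr : (0 : ℝ) < D := by exact_mod_cast hDpos
  have hApos : 0 < A := by rw [hA]; positivity
  refine ⟨1 / (8 * C0 * A ^ (N + 2)), by positivity, C0 * 4 ^ (K1 + 1), fun B hB => ?_⟩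
  have hC0pos : 0 < C0 := by linarith
  have h4K1 : (1 : ℝ) ≤ 4 ^ (K1 + 1) := one_le_pow₀ (by norm_num)
  have hBC : (4 : ℝ) ^ (K1 + 1) ≤ B / C0 := by rw [le_div_iff₀ hC0pos]; linarith
  set b : ℕ := ⌊B / C0⌋₊ with hb
  set K : ℕ := Nat.log 4 b with hK
  have hb1 : 4 ^ (K1 + 1) ≤ b := by
    apply Nat.le_floor
    push_cast
    exact hBC
  have hbne : b ≠ 0 := by
    have : 0 < 4 ^ (K1 + 1) := by positivity
    omega
  have hKK1 : K1 ≤ K := by
    have h5 := (Nat.le_log_iff_pow_le (by norm_num : 1 < 4) hbne).2 hb1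
    omega
  have hKle : (4 : ℝ) ^ K ≤ B / C0 := by
    have h5 := Nat.pow_log_le_self 4 hbne
    have h6 : ((4 ^ K : ℕ) : ℝ) ≤ (b : ℝ) := by exact_mod_cast h5
    push_cast at h6
    exact h6.trans (Nat.floor_le (by linarith))
  have hKlt : B / C0 < 4 ^ (K + 1) := by
    have h5 := Nat.lt_pow_succ_log_self (by norm_num : 1 < 4) b
    have h6 : ((b + 1 : ℕ) : ℝ) ≤ ((4 ^ (K + 1) : ℕ) : ℝ) := by exact_mod_cast h5
    push_cast at h6
    exact (Nat.lt_floor_add_one _).trans_le h6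
  obtain ⟨e1, e2, e3⟩ := hK1 K hKK1
  have hB1 : C0 * 4 ^ K ≤ B := by
    rw [le_div_iff₀ hC0pos] at hKle; linarith
  have hB2 : B < C0 * 4 ^ (K + 1) := by
    rw [div_lt_iff₀ hC0pos] at hKlt; linarith
  have hCK1 : 1 ≤ C0 * 4 ^ K := by
    have : (1 : ℝ) ≤ 4 ^ K := one_le_pow₀ (by norm_num)
    nlinarith
  have hmain := low_K N P0 P D K (K / D) hN hP hP0.ge hD rfl e1
    ((Nat.le_add_right _ _).trans e2) ((Nat.le_add_left _ _).trans e2) e3
    (by rw [← hC0]; exact hfinall _ hCK1)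
  rw [← hC0] at hmain
  have hmono : ({t ∈ UU N | hgt (fun _ => 2) (vec t) ≤ C0 * 4 ^ K}.ncard : ℝ) ≤
      {t ∈ UU N | hgt (fun _ => 2) (vec t) ≤ B}.ncard := by
    have := Set.ncard_le_ncard (s := {t ∈ UU N | hgt (fun _ => 2) (vec t) ≤
      C0 * 4 ^ K}) (t := {t ∈ UU N | hgt (fun _ => 2) (vec t) ≤ B})
      (fun t ht => ⟨ht.1, ht.2.trans hB1⟩) (hfinall B (hCK1.trans hB1))
    exact_mod_cast this
  refine le_trans ?_ (hmain.trans hmono)
  -- `log B ≤ A * (K / D)`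
  have hBpos : 0 < B := by linarith
  have hlog : Real.log B ≤ A * (K / D : ℕ) := by
    have h5 : Real.log B ≤ Real.log C0 + (K + 1) * Real.log 4 := by
      have h6 := Real.log_le_log hBpos hB2.le
      rw [Real.log_mul hC0pos.ne' (by positivity), Real.log_pow] at h6
      push_cast at h6
      exact h6
    have h6 : Real.log 4 ≤ 2 := by
      have : Real.log 4 = 2 * Real.log 2 := by
        rw [show (4 : ℝ) = 2 ^ 2 by norm_num, Real.log_pow]; norm_num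
      rw [this]
      have := Real.log_two_lt_d9
      linarith
    have h7 : (0 : ℝ) ≤ K := Nat.cast_nonneg K
    have h8 : Real.log B ≤ (K + 1) * (Real.log C0 + 2) := by
      nlinarith
    have h9 : K + 1 ≤ 2 * D * (K / D) := by
      have h10 : K + 1 ≤ D * (K / D + 1) := Nat.lt_mul_div_succ K hDpos
      calc K + 1 ≤ D * (K / D + 1) := h10
        _ ≤ D * (2 * (K / D)) := Nat.mul_le_mul_left _ (by omega)
        _ = 2 * D * (K / D) := by ring
    have h9' : ((K : ℝ) + 1) ≤ 2 * D * (K / D : ℕ) := by exact_mod_cast h9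
    calc Real.log B ≤ (K + 1) * (Real.log C0 + 2) := h8
      _ ≤ (2 * D * (K / D : ℕ)) * (Real.log C0 + 2) :=
          mul_le_mul_of_nonneg_right h9' (by linarith)
      _ = A * (K / D : ℕ) := by rw [hA]; ring
  have hlog0 : 0 ≤ Real.log B := Real.log_nonneg (by linarith)
  have h5 : Real.log B ^ (N + 2) ≤ A ^ (N + 2) * ((K / D : ℕ) : ℝ) ^ (N + 2) := by
    rw [← mul_pow]
    exact pow_le_pow_left₀ hlog0 hlog _
  have h6 : B ≤ 4 * C0 * 4 ^ K := by
    have : C0 * (4 : ℝ) ^ (K + 1) = 4 * C0 * 4 ^ K := by rw [pow_succ]; ring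
    linarith
  have hAn : 0 < A ^ (N + 2) := by positivity
  calc 1 / (8 * C0 * A ^ (N + 2)) * B * Real.log B ^ (N + 2)
      ≤ 1 / (8 * C0 * A ^ (N + 2)) * (4 * C0 * 4 ^ K) *
        (A ^ (N + 2) * ((K / D : ℕ) : ℝ) ^ (N + 2)) := by
        refine mul_le_mul ?_ h5 (by positivity) (by positivity)
        exact mul_le_mul_of_nonneg_left h6 (by positivity)
    _ = ((K / D : ℕ) : ℝ) ^ (N + 2) * (4 ^ K / 2) := by
        field_simp
        ring

end Pool.Agent.Y714.ML
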