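import Pool.Agent.Y714.ML.Dual

set_option autoImplicit false
set_option linter.unusedSectionVars false

/-! Normalised configurations and their number. -/

namespace Pool.Agent.Y714.ML

open Finset

section

variable {I : Type} [Fintype I] [DecidableEq I]

/-- normalisation by `GL_2(ℤ)` -/
theorem exists_normal {x : I → ℚ × ℚ} {v : I → ℤ × ℤ} (hrep : Rep x v) (i0 i1 : I)
    (hco : IsCoprime (v i0).1 (v i0).2) (hne : dt (v i0) (v i1) ≠ 0) :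
    ∃ w : I → ℤ × ℤ, Rep x w ∧ w i0 = (1, 0) ∧ 0 ≤ (w i1).1 ∧ (w i1).1 < (w i1).2 ∧
      ∀ i k, (dt (w i) (w k)).natAbs = (dt (v i) (v k)).natAbs := by
  obtain ⟨a, b, hab⟩ := hco
  set s : ℤ := (dt (v i0) (v i1)).sign with hs
  have hs1 : s = 1 ∨ s = -1 := by
    rcases lt_or_gt_of_ne hne with h | h
    · right; rw [hs]; exact Int.sign_eq_neg_one_of_neg h
    · left; rw [hs]; exact Int.sign_eq_one_of_pos h
  have hss : s * dt (v i0) (v i1) = |dt (v i0) (v i1)| := by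
    rw [hs]; exact Int.sign_mul_self_eq_abs _
  set m : ℤ := (a * (v i1).1 + b * (v i1).2) / |dt (v i0) (v i1)| with hm
  have hpos : 0 < |dt (v i0) (v i1)| := abs_pos.2 hne
  refine ⟨fun j => (a * (v j).1 + b * (v j).2 - m * (s * dt (v i0) (v j)), s * dt (v i0) (v j)),
    ?_, ?_, ?_, ?_, ?_⟩
  · refine hrep.trans ⟨a + m * s * (v i0).2, b - m * s * (v i0).1, -(s * (v i0).2), s * (v i0).1,
      ?_, fun _ => 1, fun _ => one_ne_zero, ?_⟩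
    · have h1 : ((a : ℚ) + m * s * (v i0).2) * (s * (v i0).1) -
          (b - m * s * (v i0).1) * -(s * (v i0).2) = s * (a * (v i0).1 + b * (v i0).2) := by ring
      have h2 : (a : ℚ) * (v i0).1 + b * (v i0).2 = 1 := by exact_mod_cast hab
      rw [h1, h2, mul_one]
      rcases hs1 with h | h <;> rw [h] <;> norm_num
    · intro j
      constructor
      · simp only
        unfold dt
        push_cast
        ring
      · simp only
        unfold dt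
        push_cast
        ring
  · have h0 : dt (v i0) (v i0) = 0 := by unfold dt; ring
    simp only [h0, mul_zero, sub_zero]
    rw [hab]
  · simp only
    rw [hss, hm]
    have := Int.emod_nonneg (a * (v i1).1 + b * (v i1).2) hpos.ne'
    rw [Int.emod_def] at this
    rw [mul_comm ((a * (v i1).1 + b * (v i1).2) / |dt (v i0) (v i1)|)]
    exact this
  · simp only
    rw [hss, hm]
    have := Int.emod_lt_of_pos (a * (v i1).1 + b * (v i1).2) hpos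
    rw [Int.emod_def] at this
    rw [mul_comm ((a * (v i1).1 + b * (v i1).2) / |dt (v i0) (v i1)|)]
    exact this
  · intro i k
    have h1 : dt (a * (v i).1 + b * (v i).2 - m * (s * dt (v i0) (v i)), s * dt (v i0) (v i))
        (a * (v k).1 + b * (v k).2 - m * (s * dt (v i0) (v k)), s * dt (v i0) (v k)) =
        s * ((a * (v i0).1 + b * (v i0).2) * dt (v i) (v k)) := by
      rw [dt_mk]
      unfold dt
      ring
    simp only
    rw [h1, hab, one_mul, Int.natAbs_mul]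
    rcases hs1 with h | h <;> rw [h] <;> simp

/-! ### counting -/

/-- integers `x` with `|x b - c| ≤ R` -/
noncomputable def Fx (b c : ℤ) (R : ℝ) : Finset ℤ := Icc ⌈((c : ℝ) - R) / b⌉ ⌊((c : ℝ) + R) / b⌋

theorem mem_Fx {b c : ℤ} {R : ℝ} (hb : 0 < b) (x : ℤ) (h : |((x * b - c : ℤ) : ℝ)| ≤ R) :
    x ∈ Fx b c R := by
  have hb' : (0 : ℝ) < b := by exact_mod_cast hb
  rw [abs_le] at h
  push_cast at h
  rw [Fx, mem_Icc]
  constructor
  · rw [Int.ceil_le, div_le_iff₀ hb']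
    linarith [h.1]
  · rw [Int.le_floor, le_div_iff₀ hb']
    linarith [h.2]

theorem card_Fx {b c : ℤ} {R : ℝ} (hb : 0 < b) (hR : 0 ≤ R) :
    ((Fx b c R).card : ℝ) ≤ 2 * R / b + 1 := by
  have hb' : (0 : ℝ) < b := by exact_mod_cast hb
  rw [Fx, Int.card_Icc]
  have h1 := Int.floor_le (((c : ℝ) + R) / b)
  have h2 := Int.le_ceil (((c : ℝ) - R) / b)
  have h3 : ((c : ℝ) + R) / b - ((c : ℝ) - R) / b = 2 * R / b := by
    rw [← sub_div]; ring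
  have h4 : 0 ≤ 2 * R / b := by positivity
  rcases le_or_gt 0 (⌊((c : ℝ) + R) / b⌋ + 1 - ⌈((c : ℝ) - R) / b⌉) with h | h
  · have h5 : (((⌊((c : ℝ) + R) / b⌋ + 1 - ⌈((c : ℝ) - R) / b⌉).toNat : ℤ) : ℝ) =
        ⌊((c : ℝ) + R) / b⌋ + 1 - ⌈((c : ℝ) - R) / b⌉ := by
      rw [Int.toNat_of_nonneg h]
      push_cast
      ring
    have h6 : (((⌊((c : ℝ) + R) / b⌋ + 1 - ⌈((c : ℝ) - R) / b⌉).toNat : ℕ) : ℝ) =
        ⌊((c : ℝ) + R) / b⌋ + 1 - ⌈((c : ℝ) - R) / b⌉ := by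
      rw [← h5]; norm_cast
    rw [h6]
    linarith
  · rw [Int.toNat_of_nonpos h.le]
    simp only [Nat.cast_zero]
    linarith

/-- possible second vectors -/
noncomputable def P2 (ρ : ℝ) : Finset (ℤ × ℤ) :=
  ((Ico (0 : ℤ) ⌊ρ⌋) ×ˢ (Icc (1 : ℤ) ⌊ρ⌋)).filter fun ab => ρ < 2 * ab.2

theorem card_P2 {ρ : ℝ} (hρ : 0 ≤ ρ) : ((P2 ρ).card : ℝ) ≤ ρ ^ 2 := by
  have h0 : 0 ≤ ⌊ρ⌋ := Int.floor_nonneg.2 hρ
  have h1 : (P2 ρ).card ≤ ((Ico (0 : ℤ) ⌊ρ⌋) ×ˢ (Icc (1 : ℤ) ⌊ρ⌋)).card := card_filter_le _ _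
  rw [card_product, Int.card_Ico, Int.card_Icc] at h1
  have h2 : ((⌊ρ⌋.toNat : ℕ) : ℝ) ≤ ρ := by
    have h3 : ((⌊ρ⌋.toNat : ℤ) : ℝ) = ⌊ρ⌋ := by rw [Int.toNat_of_nonneg h0]
    have h4 : ((⌊ρ⌋.toNat : ℕ) : ℝ) = ⌊ρ⌋ := by rw [← h3]; norm_cast
    rw [h4]
    exact Int.floor_le ρ
  have h3 : ((P2 ρ).card : ℝ) ≤ (⌊ρ⌋.toNat : ℝ) * (⌊ρ⌋.toNat : ℝ) := by
    have : (⌊ρ⌋ - 0).toNat * (⌊ρ⌋ + 1 - 1).toNat = ⌊ρ⌋.toNat * ⌊ρ⌋.toNat := by simp
    rw [this] at h1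
    exact_mod_cast h1
  calc ((P2 ρ).card : ℝ) ≤ (⌊ρ⌋.toNat : ℝ) * (⌊ρ⌋.toNat : ℝ) := h3
    _ ≤ ρ * ρ := by gcongr
    _ = ρ ^ 2 := by ring

/-- possible further vectors: `|y| ≤ ρ`, `|a y - x b| ≤ R` -/
noncomputable def Q2 (ab : ℤ × ℤ) (ρ R : ℝ) : Finset (ℤ × ℤ) :=
  (Icc (-⌊ρ⌋) ⌊ρ⌋).biUnion fun y => (Fx ab.2 (ab.1 * y) R).image fun x => (x, y)

theorem mem_Q2 {ab : ℤ × ℤ} {ρ R : ℝ} (hb : 0 < ab.2) (w : ℤ × ℤ) (h1 : |((w.2 : ℤ) : ℝ)| ≤ ρ)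
    (h2 : |((dt ab w : ℤ) : ℝ)| ≤ R) : w ∈ Q2 ab ρ R := by
  rw [Q2, mem_biUnion]
  refine ⟨w.2, ?_, mem_image.2 ⟨w.1, mem_Fx hb _ ?_, rfl⟩⟩
  · rw [mem_Icc]
    rw [abs_le] at h1
    have h3 : w.2 ≤ ⌊ρ⌋ := Int.le_floor.2 h1.2
    have h4 : -w.2 ≤ ⌊ρ⌋ := Int.le_floor.2 (by push_cast; linarith [h1.1])
    constructor
    · linarith
    · exact h3
  · have : (w.1 * ab.2 - ab.1 * w.2 : ℤ) = -dt ab w := by unfold dt; ring
    rw [this, Int.cast_neg, abs_neg]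
    exact h2

theorem card_Q2 {ab : ℤ × ℤ} {ρ R : ℝ} (hb : 0 < ab.2) (hρ : 0 ≤ ρ) (hR : 0 ≤ R) :
    ((Q2 ab ρ R).card : ℝ) ≤ (2 * ρ + 1) * (2 * R / ab.2 + 1) := by
  have h1 : ((Q2 ab ρ R).card : ℝ) ≤ ∑ y ∈ Icc (-⌊ρ⌋) ⌊ρ⌋, ((Fx ab.2 (ab.1 * y) R).card : ℝ) := by
    have : (Q2 ab ρ R).card ≤ ∑ y ∈ Icc (-⌊ρ⌋) ⌊ρ⌋, (Fx ab.2 (ab.1 * y) R).card :=
      card_biUnion_le.trans (sum_le_sum fun y _ => card_image_le)
    exact_mod_cast this
  have h2 : ∑ y ∈ Icc (-⌊ρ⌋) ⌊ρ⌋, ((Fx ab.2 (ab.1 * y) R).card : ℝ) ≤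
      ∑ y ∈ Icc (-⌊ρ⌋) ⌊ρ⌋, (2 * R / ab.2 + 1) := sum_le_sum fun y _ => card_Fx hb hR
  have h3 : ((Icc (-⌊ρ⌋) ⌊ρ⌋).card : ℝ) ≤ 2 * ρ + 1 := by
    have h0 : 0 ≤ ⌊ρ⌋ := Int.floor_nonneg.2 hρ
    rw [Int.card_Icc]
    have h4 : (((⌊ρ⌋ + 1 - -⌊ρ⌋).toNat : ℤ) : ℝ) = 2 * ⌊ρ⌋ + 1 := by
      rw [Int.toNat_of_nonneg (by omega)]
      push_cast
      ring
    have h5 : (((⌊ρ⌋ + 1 - -⌊ρ⌋).toNat : ℕ) : ℝ) = 2 * ⌊ρ⌋ + 1 := by rw [← h4]; norm_cast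
    rw [h5]
    have := Int.floor_le ρ
    linarith
  have hb' : (0 : ℝ) < ab.2 := by exact_mod_cast hb
  rw [sum_const, nsmul_eq_mul] at h2
  calc ((Q2 ab ρ R).card : ℝ) ≤ _ := h1.trans h2
    _ ≤ (2 * ρ + 1) * (2 * R / ab.2 + 1) := by
      gcongr

/-- the normalised configurations of size `Λ` -/
noncomputable def KK (Λ : I → ℝ) (i0 i1 : I) : Finset (I → ℤ × ℤ) :=
  (P2 (Λ i0 * Λ i1)).biUnion fun ab => Fintype.piFinset fun k =>
    if k = i0 then {(1, 0)} else if k = i1 then {ab} else Q2 ab (Λ i0 * Λ k) (Λ i1 * Λ k)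

theorem mem_KK (Λ : I → ℝ) (i0 i1 : I) (w : I → ℤ × ℤ)
    (h0 : w i0 = (1, 0)) (h1 : 0 ≤ (w i1).1) (h2 : (w i1).1 < (w i1).2) (h01 : i0 ≠ i1)
    (hle : ∀ i k, i ≠ k → ((dt (w i) (w k)).natAbs : ℝ) ≤ Λ i * Λ k)
    (hlt : Λ i0 * Λ i1 < 2 * ((dt (w i0) (w i1)).natAbs : ℝ)) : w ∈ KK Λ i0 i1 := by
  have hd : ∀ k, dt (w i0) (w k) = (w k).2 := by
    intro k
    rw [h0]
    unfold dt
    simp
  have hb : 0 < (w i1).2 := by omega
  have hb1 : ((w i1).2 : ℝ) ≤ Λ i0 * Λ i1 := by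
    have h3 := hle i0 i1 h01
    rw [hd i1] at h3
    have h4 : (((w i1).2.natAbs : ℕ) : ℝ) = |((w i1).2 : ℝ)| := by
      rw [Nat.cast_natAbs]; push_cast; rfl
    rw [h4] at h3
    exact (le_abs_self _).trans h3
  rw [KK, mem_biUnion]
  refine ⟨w i1, ?_, ?_⟩
  · rw [P2, mem_filter, mem_product, mem_Ico, mem_Icc]
    have h5 : (w i1).2 ≤ ⌊Λ i0 * Λ i1⌋ := Int.le_floor.2 hb1
    refine ⟨⟨⟨h1, by omega⟩, by omega, h5⟩, ?_⟩
    rw [hd i1] at hlt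
    have h4 : (((w i1).2.natAbs : ℕ) : ℝ) = ((w i1).2 : ℝ) := by
      rw [Nat.cast_natAbs, abs_of_pos hb]
    rw [h4] at hlt
    exact hlt
  · rw [Fintype.mem_piFinset]
    intro k
    by_cases hk0 : k = i0
    · rw [if_pos hk0, hk0, h0]
      exact mem_singleton_self _
    · rw [if_neg hk0]
      by_cases hk1 : k = i1
      · rw [if_pos hk1, hk1]
        exact mem_singleton_self _
      · rw [if_neg hk1]
        refine mem_Q2 hb _ ?_ ?_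
        · have h3 := hle i0 k (Ne.symm hk0)
          rw [hd k, Nat.cast_natAbs, Int.cast_abs] at h3
          exact h3
        · have h3 := hle i1 k (Ne.symm hk1)
          rw [Nat.cast_natAbs, Int.cast_abs] at h3
          exact h3

theorem card_KK (Λ : I → ℝ) (hΛ : ∀ i, 0 < Λ i) (i0 i1 : I) (h01 : i0 ≠ i1)
    (hmin : ∀ k, Λ i0 ≤ Λ k) (hone : ∀ k, k ≠ i0 → 1 ≤ Λ i0 * Λ k) :
    ((KK Λ i0 i1).card : ℝ) ≤ 15 ^ Fintype.card I * ∏ i, Λ i ^ 2 := by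
  classical
  have hρ : 0 < Λ i0 * Λ i1 := mul_pos (hΛ _) (hΛ _)
  have hstep : ∀ ab ∈ P2 (Λ i0 * Λ i1), ((Fintype.piFinset fun k =>
      if k = i0 then {((1 : ℤ), (0 : ℤ))} else if k = i1 then {ab} else
        Q2 ab (Λ i0 * Λ k) (Λ i1 * Λ k)).card : ℝ) ≤
      ∏ k, (if k = i0 then 1 else if k = i1 then 1 else 15 * Λ k ^ 2) := by
    intro ab hab
    rw [P2, mem_filter, mem_product, mem_Icc] at hab
    have hb : 0 < ab.2 := by omega
    have hb' : (0 : ℝ) < ab.2 := by exact_mod_cast hb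
    rw [Fintype.card_piFinset]
    push_cast
    refine prod_le_prod (fun k _ => Nat.cast_nonneg _) fun k _ => ?_
    by_cases hk0 : k = i0
    · rw [if_pos hk0, if_pos hk0]; simp
    · rw [if_neg hk0, if_neg hk0]
      by_cases hk1 : k = i1
      · rw [if_pos hk1, if_pos hk1]; simp
      · rw [if_neg hk1, if_neg hk1]
        refine (card_Q2 hb (mul_pos (hΛ _) (hΛ _)).le (mul_pos (hΛ _) (hΛ _)).le).trans ?_
        have e1 : 2 * (Λ i0 * Λ k) + 1 ≤ 3 * (Λ i0 * Λ k) := by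
          have := hone k hk0
          linarith
        have e2 : 2 * (Λ i1 * Λ k) / ab.2 + 1 ≤ 5 * (Λ k / Λ i0) := by
          have h3 : 2 * (Λ i1 * Λ k) / ab.2 ≤ 4 * (Λ k / Λ i0) := by
            rw [div_le_iff₀ hb']
            have h4 := hab.2
            have h5 : 4 * (Λ k / Λ i0) * ((Λ i0 * Λ i1) / 2) ≤ 4 * (Λ k / Λ i0) * ab.2 := by
              have : (Λ i0 * Λ i1) / 2 ≤ ab.2 := by linarith
              have h6 : 0 ≤ 4 * (Λ k / Λ i0) := by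
                have := div_pos (hΛ k) (hΛ i0)
                linarith
              exact mul_le_mul_of_nonneg_left this h6
            have h6 : 4 * (Λ k / Λ i0) * ((Λ i0 * Λ i1) / 2) = 2 * (Λ i1 * Λ k) := by
              have := (hΛ i0).ne'
              field_simp
              ring
            linarith
          have h4 : 1 ≤ Λ k / Λ i0 := (one_le_div (hΛ i0)).2 (hmin k)
          linarith
        have h7 : 0 ≤ 2 * (Λ i1 * Λ k) / ab.2 + 1 := by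
          have := mul_pos (hΛ i1) (hΛ k)
          positivity
        have h8 : 0 ≤ 3 * (Λ i0 * Λ k) := by
          have := mul_pos (hΛ i0) (hΛ k)
          positivity
        calc (2 * (Λ i0 * Λ k) + 1) * (2 * (Λ i1 * Λ k) / ab.2 + 1)
            ≤ (3 * (Λ i0 * Λ k)) * (5 * (Λ k / Λ i0)) := mul_le_mul e1 e2 h7 h8
          _ = 15 * Λ k ^ 2 := by
            have := (hΛ i0).ne'
            field_simp
            ring
  have h1 : ((KK Λ i0 i1).card : ℝ) ≤ ∑ ab ∈ P2 (Λ i0 * Λ i1),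
      ∏ k, (if k = i0 then 1 else if k = i1 then 1 else 15 * Λ k ^ 2) := by
    have h2 : (KK Λ i0 i1).card ≤ ∑ ab ∈ P2 (Λ i0 * Λ i1), (Fintype.piFinset fun k =>
      if k = i0 then {((1 : ℤ), (0 : ℤ))} else if k = i1 then {ab} else
        Q2 ab (Λ i0 * Λ k) (Λ i1 * Λ k)).card := card_biUnion_le
    calc ((KK Λ i0 i1).card : ℝ) ≤ ((∑ ab ∈ P2 (Λ i0 * Λ i1), (Fintype.piFinset fun k =>
      if k = i0 then {((1 : ℤ), (0 : ℤ))} else if k = i1 then {ab} else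
        Q2 ab (Λ i0 * Λ k) (Λ i1 * Λ k)).card : ℕ) : ℝ) := by exact_mod_cast h2
      _ = ∑ ab ∈ P2 (Λ i0 * Λ i1), ((Fintype.piFinset fun k =>
      if k = i0 then {((1 : ℤ), (0 : ℤ))} else if k = i1 then {ab} else
        Q2 ab (Λ i0 * Λ k) (Λ i1 * Λ k)).card : ℝ) := by push_cast; rfl
      _ ≤ _ := sum_le_sum hstep
  rw [sum_const, nsmul_eq_mul] at h1
  have hnn : 0 ≤ ∏ k, (if k = i0 then 1 else if k = i1 then 1 else 15 * Λ k ^ 2) := by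
    refine prod_nonneg fun k _ => ?_
    split_ifs
    · exact zero_le_one
    · exact zero_le_one
    · positivity
  have h3 : (Λ i0 * Λ i1) ^ 2 *
      ∏ k, (if k = i0 then 1 else if k = i1 then 1 else 15 * Λ k ^ 2) =
      ∏ k, (if k = i0 then Λ k ^ 2 else if k = i1 then Λ k ^ 2 else 15 * Λ k ^ 2) := by
    have e1 : Λ i0 ^ 2 = ∏ k, (if k = i0 then Λ k ^ 2 else 1) := by
      rw [Finset.prod_ite_eq' univ i0 (fun k => Λ k ^ 2)]
      simp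
    have e2 : Λ i1 ^ 2 = ∏ k, (if k = i1 then Λ k ^ 2 else 1) := by
      rw [Finset.prod_ite_eq' univ i1 (fun k => Λ k ^ 2)]
      simp
    rw [mul_pow, e1, e2, ← prod_mul_distrib, ← prod_mul_distrib]
    refine prod_congr rfl fun k _ => ?_
    by_cases hk0 : k = i0
    · have hk1 : k ≠ i1 := fun h => h01 (hk0.symm.trans h)
      simp [hk0, h01]
    · by_cases hk1 : k = i1
      · simp [hk1, Ne.symm h01]
      · simp [hk0, hk1]
  have h4 : ∏ k, (if k = i0 then Λ k ^ 2 else if k = i1 then Λ k ^ 2 else 15 * Λ k ^ 2) ≤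
      ∏ k, 15 * Λ k ^ 2 := by
    refine prod_le_prod (fun k _ => ?_) fun k _ => ?_
    · split_ifs <;> positivity
    · have : 0 < Λ k ^ 2 := pow_pos (hΛ k) 2
      split_ifs <;> linarith
  calc ((KK Λ i0 i1).card : ℝ) ≤ ((P2 (Λ i0 * Λ i1)).card : ℝ) *
        ∏ k, (if k = i0 then 1 else if k = i1 then 1 else 15 * Λ k ^ 2) := h1
    _ ≤ (Λ i0 * Λ i1) ^ 2 *
        ∏ k, (if k = i0 then 1 else if k = i1 then 1 else 15 * Λ k ^ 2) :=
        mul_le_mul_of_nonneg_right (card_P2 hρ.le) hnn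
    _ = _ := h3
    _ ≤ _ := h4
    _ = 15 ^ Fintype.card I * ∏ i, Λ i ^ 2 := by
      rw [prod_mul_distrib, prod_const, Finset.card_univ]

end

end Pool.Agent.Y714.ML
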