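import Pool.Agent.Y714.ML.Low2

set_option autoImplicit false
set_option linter.unusedSectionVars false
set_option linter.unusedSimpArgs false

/-! The anticanonical height: both bounds. -/

namespace Pool.Agent.Y714.ML

open Finset

theorem fuj_one (N : ℕ) : fuj (fun _ : Fin 3 ⊕ Fin N => 1) = 2 := by
  unfold fuj
  have : {s : ℝ | Eff fun _ : Fin 3 ⊕ Fin N => s * ((1 : ℕ) : ℝ) - 2} = Set.Ici 2 := by
    ext s
    rw [Set.mem_setOf_eq, Set.mem_Ici]
    unfold Eff
    simp only [Nat.cast_one, mul_one, sum_const, Finset.card_univ, Fintype.card_sum,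
      Fintype.card_fin, nsmul_eq_mul]
    push_cast
    have hN : (0 : ℝ) ≤ N := Nat.cast_nonneg N
    constructor
    · intro h
      linarith [(h (Sum.inl 0)).1]
    · intro h i
      constructor
      · linarith
      · nlinarith
  rw [this, csInf_Ici]

theorem two_fin (N : ℕ) (hN : 2 ≤ N) :
    ∃ c C B0 : ℝ, 0 < c ∧ ∀ B : ℝ, B0 ≤ B →
      c * B * Real.log B ^ (N + 2) ≤ {t ∈ UU N | hgt (fun _ => 2) (vec t) ≤ B}.ncard ∧
      {t ∈ UU N | hgt (fun _ => 2) (vec t) ≤ B}.ncard ≤ C * B * Real.log B ^ (N + 2) := by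
  obtain ⟨c, hc, B0, h1⟩ := lower_fin N hN
  obtain ⟨C, h2⟩ := upper_fin N (by omega) (fun _ => 1) (fun _ => by norm_num) (by
      intro i
      simp only [sum_const, smul_eq_mul, mul_one, Finset.card_univ, Fintype.card_sum,
        Fintype.card_fin]
      omega)
  rw [fuj_one] at h2
  refine ⟨c, |C| * 2 ^ (N + 2), max B0 (Real.exp 1), hc, fun B hB => ⟨h1 B ((le_max_left _ _).trans hB), ?_⟩⟩
  have hBe : Real.exp 1 ≤ B := (le_max_right _ _).trans hB
  have hB1 : 1 ≤ B := by
    have := Real.add_one_le_exp 1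
    linarith
  have hB0 : 0 < B := by linarith
  have hlog : 1 ≤ Real.log B := by
    rw [Real.le_log_iff_exp_le hB0]; exact hBe
  have h3 := (h2 (Real.sqrt B) (Real.one_le_sqrt.2 hB1)).2
  rw [Real.sq_sqrt hB0.le] at h3
  refine h3.trans ?_
  have h4 : Real.sqrt B ^ (2 : ℝ) = B := by
    rw [Real.rpow_two, Real.sq_sqrt hB0.le]
  rw [h4, Real.log_sqrt hB0.le]
  have h5 : (1 + Real.log B / 2) ^ (N + 2) ≤ 2 ^ (N + 2) * Real.log B ^ (N + 2) := by
    rw [← mul_pow]
    exact pow_le_pow_left₀ (by linarith) (by linarith) _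
  have h6 : 0 ≤ (1 + Real.log B / 2) ^ (N + 2) := by positivity
  calc C * B * (1 + Real.log B / 2) ^ (N + 2) ≤ |C| * B * (1 + Real.log B / 2) ^ (N + 2) := by
        have := le_abs_self C
        gcongr
    _ ≤ |C| * B * (2 ^ (N + 2) * Real.log B ^ (N + 2)) := by
        have := abs_nonneg C
        gcongr
    _ = _ := by ring

end Pool.Agent.Y714.ML
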